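import Mathlib
import Pool.Agent.Y882.FLW
import Pool.Agent.Y822.Cnt

/-! Approximation of the indicator of rough numbers by a short divisor sum. -/

set_option autoImplicit false

namespace Pool.Agent.H52AD

open Finset
open Pool.Agent.Y882 (VV VV_union VV_mu VV_sub prod_ind flw VV_congr)
open Pool.Agent.Y822 (Ro ro)

/-- the primes up to `y` -/
def Ps (y : ℕ) : Finset ℕ := (Icc 1 y).filter Nat.Prime

lemma mem_Ps {y p : ℕ} : p ∈ Ps y ↔ p.Prime ∧ p ≤ y := by
  unfold Ps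
  rw [mem_filter, mem_Icc]
  constructor
  · rintro ⟨⟨_, h⟩, h2⟩; exact ⟨h2, h⟩
  · rintro ⟨h, h2⟩; exact ⟨⟨h.one_le, h2⟩, h⟩

/-- the indicator function of the divisors of `m` -/
noncomputable def dv (m : ℕ) (p : ℕ) : ℝ := if p ∣ m then 1 else 0

lemma prod_dv {T : Finset ℕ} (hT : ∀ p ∈ T, p.Prime) (m : ℕ) :
    ∏ p ∈ T, dv m p = if (∏ p ∈ T, p) ∣ m then 1 else 0 := by
  classical
  unfold dv
  by_cases h : (∏ p ∈ T, p) ∣ m
  · rw [if_pos h]
    apply prod_eq_one
    intro p hp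
    rw [if_pos ((dvd_prod_of_mem _ hp).trans h)]
  · rw [if_neg h]
    have h2 : ∃ p ∈ T, ¬ p ∣ m := by
      by_contra h3
      push Not at h3
      exact h (prod_primes_dvd m (fun p hp => (hT p hp).prime) h3)
    obtain ⟨p, hp, h4⟩ := h2
    exact prod_eq_zero hp (if_neg h4)

/-- **approximation of the rough indicator** -/
theorem apx : ∃ C : ℕ, 1 ≤ C ∧ ∀ b J y : ℕ, C ≤ b → C ≤ y → y ≤ 2 ^ 2 ^ J →
    ∃ cA cD : Finset ℕ → ℝ, (∀ T, |cA T| ≤ J + 1 ∧ |cD T| ≤ J + 2) ∧
      (∀ T ⊆ Ps y, (cA T ≠ 0 ∨ cD T ≠ 0) → ∏ p ∈ T, p ≤ C * (2 ^ 2 ^ J) ^ (C * b)) ∧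
      (∀ m : ℕ, |ro y m - VV (Ps y) cA (dv m)| ≤ VV (Ps y) cD (dv m)) ∧
      (∀ g : ℕ → ℝ, (∀ p ∈ Ps y, 0 ≤ g p ∧ g p ≤ 1 / (p : ℝ)) →
        VV (Ps y) cD g ≤ 2 * (1 / 2 : ℝ) ^ b) := by
  classical
  obtain ⟨C0, hC0, H⟩ := flw
  obtain ⟨z0, hz0⟩ : ∃ z0 : ℕ, z0 = C0 * (1 + 1) := ⟨_, rfl⟩
  obtain ⟨B, hB⟩ : ∃ B : ℕ, B = ∏ p ∈ Icc 1 z0, p := ⟨_, rfl⟩
  have hB1 : 1 ≤ B := by
    rw [hB]
    exact Nat.pos_of_ne_zero (prod_ne_zero_iff.2 fun p hp => by
      have := (mem_Icc.1 hp).1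
      omega)
  obtain ⟨C, hC⟩ : ∃ C : ℕ, C = B + z0 + C0 := ⟨_, rfl⟩
  refine ⟨C, by omega, ?_⟩
  intro b J y hb hy hyJ
  set P0 := Ps z0 with hP0
  set P1 := (Ps y).filter (fun p => z0 < p) with hP1
  have hdis : Disjoint P0 P1 := by
    rw [disjoint_left]
    intro p hp hp1
    rw [hP0, mem_Ps] at hp
    rw [hP1, mem_filter] at hp1
    omega
  have hun : Ps y = P0 ∪ P1 := by
    ext p
    rw [mem_union, hP0, hP1, mem_filter, mem_Ps, mem_Ps]
    constructor
    · rintro ⟨h1, h2⟩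
      rcases Nat.lt_or_ge z0 p with h | h
      · exact Or.inr ⟨⟨h1, h2⟩, h⟩
      · exact Or.inl ⟨h1, h⟩
    · rintro (⟨h1, h2⟩ | ⟨h1, _⟩)
      · exact ⟨h1, by omega⟩
      · exact h1
  obtain ⟨cU, cL, h1, h2, h3, h4⟩ := H 1 b J z0 P1 (by omega) (by omega) (fun p hp => by
    rw [hP1, mem_filter, mem_Ps] at hp
    exact ⟨hp.1.1, hp.2, hp.1.2.trans hyJ⟩)
  have hdvf : ∀ m : ℕ, (fun p => if p ∣ m then (1 : ℝ) else 0) = dv m := fun m => rfl
  have hro : ∀ m : ℕ, ro y m = VV P0 (fun T => (-1) ^ T.card) (dv m) *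
      (if ∀ p ∈ P1, ¬ p ∣ m then 1 else 0) := by
    intro m
    rw [VV_mu]
    have e1 : ∏ p ∈ P0, (1 - dv m p) = if ∀ p ∈ P0, ¬ p ∣ m then (1 : ℝ) else 0 := by
      by_cases h : ∀ p ∈ P0, ¬ p ∣ m
      · rw [if_pos h]
        apply prod_eq_one
        intro p hp
        unfold dv
        rw [if_neg (h p hp), sub_zero]
      · rw [if_neg h]
        push Not at h
        obtain ⟨p, hp, hd⟩ := h
        apply prod_eq_zero hp
        unfold dv
        rw [if_pos hd, sub_self]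
    rw [e1]
    unfold ro
    by_cases hr : Ro y m
    · rw [if_pos hr, if_pos, if_pos, mul_one]
      · intro p hp
        have : p ∈ Ps y := by rw [hun]; exact mem_union_right _ hp
        exact hr p (mem_Ps.1 this).1 (mem_Ps.1 this).2
      · intro p hp
        have : p ∈ Ps y := by rw [hun]; exact mem_union_left _ hp
        exact hr p (mem_Ps.1 this).1 (mem_Ps.1 this).2
    · rw [if_neg hr]
      unfold Ro at hr
      push Not at hr
      obtain ⟨p, hp, hpy, hd⟩ := hr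
      have : p ∈ P0 ∪ P1 := by rw [← hun]; exact mem_Ps.2 ⟨hp, hpy⟩
      rcases mem_union.1 this with h | h
      · have e2 : (if ∀ p ∈ P0, ¬ p ∣ m then (1 : ℝ) else 0) = 0 := if_neg (fun h' => h' p h hd)
        rw [e2, zero_mul]
      · have e2 : (if ∀ p ∈ P1, ¬ p ∣ m then (1 : ℝ) else 0) = 0 := if_neg (fun h' => h' p h hd)
        rw [e2, mul_zero]
  refine ⟨fun T => (-1) ^ (T ∩ P0).card * cL (T ∩ P1),
    fun T => (if T ∩ P0 = ∅ then 1 else 0) * (cU (T ∩ P1) - cL (T ∩ P1)), ?_, ?_, ?_, ?_⟩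
  · intro T
    constructor
    · rw [abs_mul, abs_pow, abs_neg, abs_one, one_pow, one_mul]
      exact (h1 _).2
    · rw [abs_mul]
      have a1 : |(if T ∩ P0 = ∅ then (1 : ℝ) else 0)| ≤ 1 := by split_ifs <;> norm_num
      have a2 : |cU (T ∩ P1) - cL (T ∩ P1)| ≤ J + 2 := by
        refine (abs_sub _ _).trans ?_
        have := h1 (T ∩ P1)
        linarith [this.1, this.2]
      calc _ ≤ 1 * |cU (T ∩ P1) - cL (T ∩ P1)| := mul_le_mul_of_nonneg_right a1 (abs_nonneg _)
        _ ≤ _ := by rw [one_mul]; exact a2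
  · intro T hT hne
    have hne' : cU (T ∩ P1) ≠ 0 ∨ cL (T ∩ P1) ≠ 0 := by
      rcases hne with h | h
      · right
        intro h0
        apply h
        show (-1 : ℝ) ^ (T ∩ P0).card * cL (T ∩ P1) = 0
        rw [h0, mul_zero]
      · by_contra hcon
        push Not at hcon
        apply h
        show (if T ∩ P0 = ∅ then (1 : ℝ) else 0) * (cU (T ∩ P1) - cL (T ∩ P1)) = 0
        rw [hcon.1, hcon.2, sub_self, mul_zero]
    have h5 := h2 (T ∩ P1) inter_subset_right hne'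
    have h6 : ∏ p ∈ T, p = (∏ p ∈ T ∩ P0, p) * ∏ p ∈ T ∩ P1, p := by
      rw [← prod_union]
      · congr 1
        rw [← inter_union_distrib_left, ← hun]
        exact (inter_eq_left.2 hT).symm
      · exact disjoint_of_subset_left inter_subset_right (disjoint_of_subset_right inter_subset_right hdis)
    have h7 : ∏ p ∈ T ∩ P0, p ≤ B := by
      rw [hB]
      apply prod_le_prod_of_subset_of_one_le'
      · intro p hp
        have h8 := mem_Ps.1 (mem_inter.1 hp).2
        exact mem_Icc.2 ⟨h8.1.one_le, h8.2⟩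
      · intro p hp _
        exact (mem_Icc.1 hp).1
    rw [h6]
    have h8 : (2 ^ 2 ^ J) ^ (C0 * b) ≤ (2 ^ 2 ^ J) ^ (C * b) := by
      apply Nat.pow_le_pow_right (by positivity)
      exact Nat.mul_le_mul_right _ (by omega)
    exact Nat.mul_le_mul (h7.trans (by omega)) (h5.trans h8)
  · intro m
    rw [hun, VV_union P0 P1 hdis (fun T => (-1) ^ T.card) cL,
      VV_union P0 P1 hdis (fun T => if T = ∅ then 1 else 0) (fun T => cU T - cL T), hro m, ← mul_sub, abs_mul]
    have e0 : VV P0 (fun T => if T = ∅ then 1 else 0) (dv m) = 1 := by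
      unfold VV
      rw [sum_eq_single ∅]
      · simp
      · intro T _ hT
        show (if T = ∅ then (1 : ℝ) else 0) * _ = 0
        rw [if_neg hT, zero_mul]
      · intro h
        exact absurd (empty_mem_powerset _) h
    rw [e0, one_mul, VV_sub]
    have a1 : |VV P0 (fun T => (-1) ^ T.card) (dv m)| ≤ 1 := by
      rw [VV_mu, abs_prod]
      apply prod_le_one
      · intro p _; exact abs_nonneg _
      · intro p _
        unfold dv
        split_ifs <;> norm_num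
    obtain ⟨b1, b2⟩ := h3 m
    rw [hdvf m] at b1 b2
    have a2 : |(if ∀ p ∈ P1, ¬ p ∣ m then (1 : ℝ) else 0) - VV P1 cL (dv m)| ≤
        VV P1 cU (dv m) - VV P1 cL (dv m) := by
      rw [abs_le]
      constructor <;> linarith
    calc _ ≤ 1 * |(if ∀ p ∈ P1, ¬ p ∣ m then (1 : ℝ) else 0) - VV P1 cL (dv m)| :=
          mul_le_mul_of_nonneg_right a1 (abs_nonneg _)
      _ ≤ _ := by rw [one_mul]; exact a2
  · intro g hg
    rw [hun, VV_union P0 P1 hdis (fun T => if T = ∅ then 1 else 0) (fun T => cU T - cL T)]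
    have e0 : VV P0 (fun T => if T = ∅ then 1 else 0) g = 1 := by
      unfold VV
      rw [sum_eq_single ∅]
      · simp
      · intro T _ hT
        show (if T = ∅ then (1 : ℝ) else 0) * _ = 0
        rw [if_neg hT, zero_mul]
      · intro h
        exact absurd (empty_mem_powerset _) h
    rw [e0, one_mul, VV_sub]
    have hg1 : ∀ p ∈ P1, 0 ≤ g p ∧ g p ≤ ((1 : ℕ) : ℝ) / ((p : ℝ) - 1) := by
      intro p hp
      have hp' : p ∈ Ps y := by rw [hun]; exact mem_union_right _ hp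
      have h5 := hg p hp'
      have h6 := (mem_Ps.1 hp').1.two_le
      have h7 : (2 : ℝ) ≤ p := by exact_mod_cast h6
      refine ⟨h5.1, h5.2.trans ?_⟩
      push_cast
      exact one_div_le_one_div_of_le (by linarith) (by linarith)
    obtain ⟨b1, b2, b3, b4⟩ := h4 g hg1
    have hP : ∏ p ∈ P1, (1 - g p) ≤ 1 := by
      apply prod_le_one
      · intro p hp
        have hp' : p ∈ Ps y := by rw [hun]; exact mem_union_right _ hp
        have h5 := hg p hp'
        have h6 := (mem_Ps.1 hp').1.two_le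
        have h7 : (2 : ℝ) ≤ p := by exact_mod_cast h6
        have h8 : 1 / (p : ℝ) ≤ 1 := by rw [div_le_one (by linarith)]; linarith
        linarith [h5.2]
      · intro p hp
        have hp' : p ∈ Ps y := by rw [hun]; exact mem_union_right _ hp
        linarith [(hg p hp').1]
    have hb0 : (0 : ℝ) ≤ (1 / 2) ^ b := by positivity
    nlinarith

end Pool.Agent.H52AD
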