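import Mathlib
import Pool.Agent.H316R2.LS

/-! Detection of divisibility by characters; passing to primitive characters. -/

set_option autoImplicit false

namespace Pool.Agent.H52AD

open Finset
open Pool.Agent.H316R2 (PC PC_eq)

/-- divisibility of `m + 1` by `g * d` against its expectation given divisibility by `g` -/
noncomputable def DD (g d m : ℕ) : ℝ :=
  (if g ∣ m + 1 then 1 else 0) *
    ((if d ∣ m + 1 then 1 else 0) - (if m.Coprime d then 1 / (Nat.totient d : ℝ) else 0))

lemma neg_one_inv (q : ℕ) [NeZero q] : ((-1 : ZMod q))⁻¹ = -1 := by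
  have h : (-1 : ZMod q) * (-1 : ZMod q)⁻¹ = 1 := ZMod.mul_inv_of_unit _ (isUnit_one.neg)
  have h2 : (-1 : ZMod q) * ((-1 : ZMod q) * (-1 : ZMod q)⁻¹) = (-1 : ZMod q) * 1 := by rw [h]
  rw [← mul_assoc] at h2
  simp at h2
  simp

/-- detection of `q ∣ m + 1` -/
lemma detect (q : ℕ) [NeZero q] (m : ℕ) :
    (if q ∣ m + 1 then (1 : ℂ) else 0) =
      1 / (Nat.totient q : ℂ) * ∑ ξ : DirichletCharacter ℂ q, ξ (-1) * ξ (m : ZMod q) := by
  have h := DirichletCharacter.sum_char_inv_mul_char_eq ℂ (n := q) (a := -1) (isUnit_one.neg)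
    (m : ZMod q)
  rw [neg_one_inv] at h
  rw [h]
  have hφ : (Nat.totient q : ℂ) ≠ 0 := by
    exact_mod_cast (Nat.totient_pos.2 (Nat.pos_of_ne_zero (NeZero.ne q))).ne'
  have hiff : ((-1 : ZMod q) = (m : ZMod q)) ↔ q ∣ m + 1 := by
    rw [← ZMod.natCast_eq_zero_iff]
    push_cast
    constructor
    · intro h; rw [← h]; ring
    · intro h
      exact (eq_neg_of_add_eq_zero_left h).symm
  by_cases hq : q ∣ m + 1
  · rw [if_pos hq, if_pos (hiff.2 hq)]
    field_simp
  · rw [if_neg hq, if_neg (fun h => hq (hiff.1 h)), mul_zero]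

/-- values of an induced character -/
lemma changeLevel_nat {f q : ℕ} (h : f ∣ q) (ψ : DirichletCharacter ℂ f) (n : ℕ) :
    (DirichletCharacter.changeLevel h ψ) (n : ZMod q) =
      if n.Coprime q then ψ (n : ZMod f) else 0 := by
  split_ifs with hn
  · have h1 := DirichletCharacter.changeLevel_eq_cast_of_dvd' ψ h (a := (n : ℤ))
      (by exact_mod_cast Nat.isCoprime_iff_coprime.mpr hn)
    push_cast at h1
    exact h1
  · exact MulChar.map_nonunit _ (fun hu => hn ((ZMod.isUnit_iff_coprime n _).mp hu))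

lemma changeLevel_neg_one {f q : ℕ} [NeZero q] (h : f ∣ q) (ψ : DirichletCharacter ℂ f) :
    (DirichletCharacter.changeLevel h ψ) (-1) = ψ (-1) := by
  have h1 := DirichletCharacter.changeLevel_eq_cast_of_dvd' ψ h (a := (-1 : ℤ))
      (isCoprime_one_left.neg_left)
  push_cast at h1
  exact h1

open Classical in
/-- the characters modulo `q` which do not come from a character modulo `g` -/
noncomputable def NF (q g : ℕ) : Finset (DirichletCharacter ℂ q) :=
  if h : q = 0 then ∅ else
    haveI : NeZero q := ⟨h⟩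
    (univ : Finset (DirichletCharacter ℂ q)).filter (fun ξ => ¬ ξ.conductor ∣ g)

open Classical in
lemma NF_eq (q g : ℕ) [NeZero q] :
    NF q g = (univ : Finset (DirichletCharacter ℂ q)).filter (fun ξ => ¬ ξ.conductor ∣ g) := by
  unfold NF; rw [dif_neg (NeZero.ne q)]

/-- the centred divisibility in terms of characters -/
lemma DD_eq (g d : ℕ) (hg : 1 ≤ g) (hd : 1 ≤ d) (hc : Nat.Coprime g d) (m : ℕ) :
    ((DD g d m : ℝ) : ℂ) = 1 / (Nat.totient (g * d) : ℂ) *
      ∑ ξ ∈ NF (g * d) g, ξ (-1) * ξ (m : ZMod (g * d)) := by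
  classical
  have hq0 : g * d ≠ 0 := Nat.mul_ne_zero (by omega) (by omega)
  have : NeZero (g * d) := ⟨hq0⟩
  have : NeZero g := ⟨by omega⟩
  have : NeZero d := ⟨by omega⟩
  have h1 := detect (g * d) m
  have h2 := detect g m
  have hgd : g ∣ g * d := Dvd.intro _ rfl
  -- split the characters
  have hsplit : ∑ ξ : DirichletCharacter ℂ (g * d), ξ (-1) * ξ (m : ZMod (g * d)) =
      ∑ ξ ∈ (univ : Finset (DirichletCharacter ℂ (g * d))).filter (fun ξ => ξ.conductor ∣ g),
        ξ (-1) * ξ (m : ZMod (g * d)) + ∑ ξ ∈ NF (g * d) g, ξ (-1) * ξ (m : ZMod (g * d)) := by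
    rw [NF_eq, sum_filter_add_sum_filter_not]
  have himg : (univ : Finset (DirichletCharacter ℂ (g * d))).filter (fun ξ => ξ.conductor ∣ g) =
      (univ : Finset (DirichletCharacter ℂ g)).image (DirichletCharacter.changeLevel hgd) := by
    ext ξ
    rw [mem_filter, mem_image]
    constructor
    · rintro ⟨_, h⟩
      have h3 := (DirichletCharacter.mem_conductorSet_iff_conductor_dvd ξ hgd).2 h
      obtain ⟨hd', χ₀, hχ⟩ := h3
      exact ⟨χ₀, mem_univ _, hχ.symm⟩
    · rintro ⟨χ₀, _, rfl⟩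
      refine ⟨mem_univ _, ?_⟩
      rw [DirichletCharacter.conductor_changeLevel]
      exact χ₀.conductor_dvd_level
  have hind : ∑ ξ ∈ (univ : Finset (DirichletCharacter ℂ (g * d))).filter
        (fun ξ => ξ.conductor ∣ g), ξ (-1) * ξ (m : ZMod (g * d)) =
      if m.Coprime d then ∑ ψ : DirichletCharacter ℂ g, ψ (-1) * ψ (m : ZMod g) else 0 := by
    rw [himg, sum_image fun x _ y _ hxy => DirichletCharacter.changeLevel_injective hgd hxy]
    simp only [changeLevel_neg_one, changeLevel_nat]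
    by_cases hmd : m.Coprime d
    · rw [if_pos hmd]
      refine sum_congr rfl fun ψ _ => ?_
      by_cases hmg : m.Coprime g
      · rw [if_pos (Nat.Coprime.mul_right hmg hmd)]
      · rw [if_neg (fun h => hmg (Nat.Coprime.coprime_mul_right_right h))]
        rw [MulChar.map_nonunit ψ (fun hu => hmg ((ZMod.isUnit_iff_coprime m _).mp hu))]
    · rw [if_neg hmd]
      refine sum_eq_zero fun ψ _ => ?_
      rw [if_neg (fun h => hmd (Nat.Coprime.coprime_mul_left_right h)), mul_zero]
  have hφ : (Nat.totient (g * d) : ℂ) = Nat.totient g * Nat.totient d := by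
    rw [Nat.totient_mul hc]; push_cast; rfl
  have hφg : (Nat.totient g : ℂ) ≠ 0 := by
    exact_mod_cast (Nat.totient_pos.2 (by omega)).ne'
  have hφd : (Nat.totient d : ℂ) ≠ 0 := by
    exact_mod_cast (Nat.totient_pos.2 (by omega)).ne'
  have e1 : (if g * d ∣ m + 1 then (1 : ℂ) else 0) =
      (if g ∣ m + 1 then 1 else 0) * (if d ∣ m + 1 then 1 else 0) := by
    by_cases a1 : g ∣ m + 1
    · by_cases a2 : d ∣ m + 1
      · rw [if_pos a1, if_pos a2, if_pos (hc.mul_dvd_of_dvd_of_dvd a1 a2), mul_one]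
      · rw [if_neg a2, if_neg (fun h => a2 (dvd_of_mul_left_dvd h)), mul_zero]
    · rw [if_neg a1, if_neg (fun h => a1 (dvd_of_mul_right_dvd h)), zero_mul]
  rw [hsplit, hind, e1, mul_add, hφ] at h1
  have e2 : ((DD g d m : ℝ) : ℂ) =
      (if g ∣ m + 1 then (1 : ℂ) else 0) * (if d ∣ m + 1 then 1 else 0) -
      (if g ∣ m + 1 then (1 : ℂ) else 0) * (if m.Coprime d then 1 / (Nat.totient d : ℂ) else 0) := by
    unfold DD
    split_ifs <;> push_cast <;> ring
  rw [e2, h1, h2, hφ]
  by_cases hmd : m.Coprime d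
  · simp only [if_pos hmd]
    field_simp
    ring
  · simp only [if_neg hmd]
    push_cast
    ring

end Pool.Agent.H52AD
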