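import Mathlib
import Pool.Agent.H52AD.Chr

/-! The bilinear form of the centred divisibility: reduction to primitive characters. -/

set_option autoImplicit false

namespace Pool.Agent.H52AD

open Finset
open Pool.Agent.H316R2 (PC PC_eq)

/-- character sum over the integers coprime to `m` -/
noncomputable def AS (M : ℕ) (α : ℕ → ℝ) (m f : ℕ) (ψ : DirichletCharacter ℂ f) : ℂ :=
  ∑ a ∈ Icc 1 M, (if a.Coprime m then (α a : ℂ) else 0) * ψ (a : ZMod f)

/-- sum over the primitive characters modulo `f` -/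
noncomputable def XS (M N : ℕ) (α β : ℕ → ℝ) (m f : ℕ) : ℝ :=
  ∑ ψ ∈ PC f, ‖AS M α m f ψ‖ * ‖AS N β m f ψ‖

lemma XS_nonneg (M N : ℕ) (α β : ℕ → ℝ) (m f : ℕ) : 0 ≤ XS M N α β m f :=
  sum_nonneg fun _ _ => mul_nonneg (norm_nonneg _) (norm_nonneg _)

/-- the sum with an induced character -/
lemma sum_change {f m : ℕ} (hf : 1 ≤ f) (M : ℕ) (α : ℕ → ℝ) (ψ : DirichletCharacter ℂ f) :
    ∑ a ∈ Icc 1 M, (α a : ℂ) *
      (DirichletCharacter.changeLevel (Dvd.intro m rfl : f ∣ f * m) ψ) (a : ZMod (f * m)) =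
      AS M α m f ψ := by
  unfold AS
  refine sum_congr rfl fun a _ => ?_
  rw [changeLevel_nat]
  by_cases h1 : a.Coprime m
  · rw [if_pos h1]
    by_cases h2 : a.Coprime f
    · rw [if_pos (Nat.Coprime.mul_right h2 h1)]
    · rw [if_neg (fun h => h2 (Nat.Coprime.coprime_mul_right_right h))]
      have : NeZero f := ⟨by omega⟩
      rw [MulChar.map_nonunit ψ (fun hu => h2 ((ZMod.isUnit_iff_coprime a _).mp hu))]
  · rw [if_neg h1, if_neg (fun h => h1 (Nat.Coprime.coprime_mul_left_right h))]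
    simp

/-- one pair of moduli -/
lemma one_pair (M N : ℕ) (α β : ℕ → ℝ) (y g d : ℕ) (hg : 1 ≤ g) (hd : 1 ≤ d) (hc : Nat.Coprime g d)
    (hr : ∀ p : ℕ, p.Prime → p ∣ d → y < p) :
    |∑ a ∈ Icc 1 M, ∑ n ∈ Icc 1 N, α a * β n * DD g d (a * n)| ≤
      1 / (Nat.totient (g * d) : ℝ) *
        ∑ f ∈ (g * d).divisors.filter (fun f => y < f), XS M N α β (g * d / f) f := by
  classical
  have hq0 : g * d ≠ 0 := Nat.mul_ne_zero (by omega) (by omega)
  have : NeZero (g * d) := ⟨hq0⟩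
  set q := g * d with hq
  -- expansion
  have e1 : (((∑ a ∈ Icc 1 M, ∑ n ∈ Icc 1 N, α a * β n * DD g d (a * n) : ℝ)) : ℂ) =
      1 / (Nat.totient q : ℂ) * ∑ ξ ∈ NF q g, ξ (-1) *
        ((∑ a ∈ Icc 1 M, (α a : ℂ) * ξ (a : ZMod q)) * ∑ n ∈ Icc 1 N, (β n : ℂ) * ξ (n : ZMod q)) := by
    push_cast
    have h1 : ∀ a ∈ Icc 1 M, ∀ n ∈ Icc 1 N, (α a : ℂ) * (β n : ℂ) * ((DD g d (a * n) : ℝ) : ℂ) =
        ∑ ξ ∈ NF q g, 1 / (Nat.totient q : ℂ) * (ξ (-1) *
          (((α a : ℂ) * ξ (a : ZMod q)) * ((β n : ℂ) * ξ (n : ZMod q)))) := by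
      intro a _ n _
      rw [DD_eq g d hg hd hc, ← hq, mul_sum, mul_sum]
      refine sum_congr rfl fun ξ _ => ?_
      rw [Nat.cast_mul, map_mul]
      ring
    rw [sum_congr rfl fun a ha => sum_congr rfl fun n hn => h1 a ha n hn]
    have h2 : ∀ a ∈ Icc 1 M, ∑ n ∈ Icc 1 N, ∑ ξ ∈ NF q g, 1 / (Nat.totient q : ℂ) * (ξ (-1) *
          (((α a : ℂ) * ξ (a : ZMod q)) * ((β n : ℂ) * ξ (n : ZMod q)))) =
        ∑ ξ ∈ NF q g, ∑ n ∈ Icc 1 N, 1 / (Nat.totient q : ℂ) * (ξ (-1) *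
          (((α a : ℂ) * ξ (a : ZMod q)) * ((β n : ℂ) * ξ (n : ZMod q)))) := fun a _ => sum_comm
    rw [sum_congr rfl h2, sum_comm, mul_sum]
    refine sum_congr rfl fun ξ _ => ?_
    rw [sum_mul_sum, mul_sum, mul_sum]
    refine sum_congr rfl fun a _ => ?_
    rw [mul_sum, mul_sum]
  have hφ0 : (0 : ℝ) < Nat.totient q := by exact_mod_cast Nat.totient_pos.2 (Nat.pos_of_ne_zero hq0)
  have e2 : |∑ a ∈ Icc 1 M, ∑ n ∈ Icc 1 N, α a * β n * DD g d (a * n)| ≤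
      1 / (Nat.totient q : ℝ) * ∑ ξ ∈ NF q g,
        ‖∑ a ∈ Icc 1 M, (α a : ℂ) * ξ (a : ZMod q)‖ * ‖∑ n ∈ Icc 1 N, (β n : ℂ) * ξ (n : ZMod q)‖ := by
    rw [← Real.norm_eq_abs, ← Complex.norm_real, e1, norm_mul]
    have h3 : ‖(1 : ℂ) / (Nat.totient q : ℂ)‖ = 1 / (Nat.totient q : ℝ) := by
      rw [norm_div, norm_one, Complex.norm_natCast]
    rw [h3]
    apply mul_le_mul_of_nonneg_left _ (by positivity)
    refine (norm_sum_le _ _).trans (sum_le_sum fun ξ _ => ?_)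
    rw [norm_mul, norm_mul]
    calc ‖ξ (-1)‖ * (‖∑ a ∈ Icc 1 M, (α a : ℂ) * ξ (a : ZMod q)‖ *
          ‖∑ n ∈ Icc 1 N, (β n : ℂ) * ξ (n : ZMod q)‖) ≤
        1 * (‖∑ a ∈ Icc 1 M, (α a : ℂ) * ξ (a : ZMod q)‖ *
          ‖∑ n ∈ Icc 1 N, (β n : ℂ) * ξ (n : ZMod q)‖) :=
          mul_le_mul_of_nonneg_right (ξ.norm_le_one _) (mul_nonneg (norm_nonneg _) (norm_nonneg _))
      _ = _ := one_mul _
  refine e2.trans (mul_le_mul_of_nonneg_left ?_ (by positivity))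
  -- regroup by the conductor
  have hmaps : ∀ ξ ∈ NF q g, ξ.conductor ∈ q.divisors.filter (fun f => y < f) := by
    intro ξ hξ
    rw [NF_eq, mem_filter] at hξ
    rw [mem_filter, Nat.mem_divisors]
    refine ⟨⟨ξ.conductor_dvd_level, hq0⟩, ?_⟩
    by_contra hle
    push Not at hle
    apply hξ.2
    have hcd : Nat.Coprime ξ.conductor d := by
      by_contra hnc
      obtain ⟨p, hp, h1, h2⟩ := Nat.Prime.not_coprime_iff_dvd.1 hnc
      have h3 := hr p hp h2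
      have h4 := Nat.le_of_dvd (Nat.pos_of_ne_zero ξ.conductor_ne_zero) h1
      omega
    exact hcd.dvd_of_dvd_mul_right (hq ▸ ξ.conductor_dvd_level)
  rw [← sum_fiberwise_of_maps_to hmaps]
  refine sum_le_sum fun f hf => ?_
  rw [mem_filter, Nat.mem_divisors] at hf
  obtain ⟨⟨hfq, _⟩, _⟩ := hf
  have hf1 : 1 ≤ f := Nat.pos_of_dvd_of_pos hfq (Nat.pos_of_ne_zero hq0)
  have : NeZero f := ⟨by omega⟩
  obtain ⟨m, hm⟩ := hfq
  have hm1 : 1 ≤ m := by
    rcases Nat.eq_zero_or_pos m with h | h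
    · rw [h, mul_zero] at hm; exact absurd hm hq0
    · exact h
  have hqf : q / f = m := by rw [hm]; exact Nat.mul_div_cancel_left m hf1
  rw [hqf]
  clear_value q
  subst hm
  have h2 : ((NF (f * m) g).filter (fun ξ => ξ.conductor = f)) ⊆
      (PC f).image (DirichletCharacter.changeLevel (Dvd.intro m rfl : f ∣ f * m)) := by
    intro ξ hξ
    rw [mem_filter] at hξ
    obtain ⟨_, hcf⟩ := hξ
    rw [mem_image]
    have key : ∀ c : ℕ, ∀ h : c ∣ f * m, ξ.conductor = c → ∃ χ : DirichletCharacter ℂ c,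
        χ.IsPrimitive ∧ DirichletCharacter.changeLevel h χ = ξ := by
      rintro c h rfl
      exact ⟨ξ.primitiveCharacter, ξ.primitiveCharacter_isPrimitive, ξ.changeLevel_primitiveCharacter⟩
    obtain ⟨χ, hχ1, hχ2⟩ := key f (Dvd.intro m rfl) hcf
    refine ⟨χ, ?_, hχ2⟩
    rw [PC_eq, mem_filter]
    exact ⟨mem_univ _, hχ1⟩
  calc _ ≤ ∑ ξ ∈ (PC f).image (DirichletCharacter.changeLevel (Dvd.intro m rfl : f ∣ f * m)),
        ‖∑ a ∈ Icc 1 M, (α a : ℂ) * ξ (a : ZMod (f * m))‖ *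
          ‖∑ n ∈ Icc 1 N, (β n : ℂ) * ξ (n : ZMod (f * m))‖ :=
        sum_le_sum_of_subset_of_nonneg h2 fun ξ _ _ => mul_nonneg (norm_nonneg _) (norm_nonneg _)
    _ = ∑ ψ ∈ PC f, ‖AS M α m f ψ‖ * ‖AS N β m f ψ‖ := by
        rw [sum_image fun x _ y _ hxy => DirichletCharacter.changeLevel_injective _ hxy]
        refine sum_congr rfl fun ψ _ => ?_
        rw [sum_change hf1, sum_change hf1]
    _ = XS M N α β m f := rfl

/-- all pairs of moduli -/
theorem all_pairs {ι : Type*} (M N Q y : ℕ) (α β : ℕ → ℝ) (I : Finset ι) (g d : ι → ℕ) (w : ι → ℝ)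
    (W : ℝ) (hW : 0 ≤ W) (hw : ∀ i ∈ I, |w i| ≤ W)
    (hinj : ∀ i ∈ I, ∀ j ∈ I, g i * d i = g j * d j → i = j)
    (hcop : ∀ i ∈ I, Nat.Coprime (g i) (d i)) (h1 : ∀ i ∈ I, 1 ≤ g i ∧ 1 ≤ d i)
    (hQ : ∀ i ∈ I, g i * d i ≤ Q) (hr : ∀ i ∈ I, ∀ p : ℕ, p.Prime → p ∣ d i → y < p) :
    |∑ i ∈ I, w i * ∑ a ∈ Icc 1 M, ∑ n ∈ Icc 1 N, α a * β n * DD (g i) (d i) (a * n)| ≤
      W * ∑ m ∈ Icc 1 Q, 1 / (Nat.totient m : ℝ) *
        ∑ f ∈ Ioc y Q, 1 / (Nat.totient f : ℝ) * XS M N α β m f := by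
  classical
  have e1 : |∑ i ∈ I, w i * ∑ a ∈ Icc 1 M, ∑ n ∈ Icc 1 N, α a * β n * DD (g i) (d i) (a * n)| ≤
      ∑ i ∈ I, W * (1 / (Nat.totient (g i * d i) : ℝ) *
        ∑ f ∈ (g i * d i).divisors.filter (fun f => y < f), XS M N α β (g i * d i / f) f) := by
    refine (abs_sum_le_sum_abs _ _).trans (sum_le_sum fun i hi => ?_)
    rw [abs_mul]
    exact mul_le_mul (hw i hi) (one_pair M N α β y (g i) (d i) (h1 i hi).1 (h1 i hi).2 (hcop i hi)
      (hr i hi)) (abs_nonneg _) hW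
  refine e1.trans ?_
  rw [← mul_sum]
  apply mul_le_mul_of_nonneg_left _ hW
  set T : ℕ → ℝ := fun q => 1 / (Nat.totient q : ℝ) *
        ∑ f ∈ q.divisors.filter (fun f => y < f), XS M N α β (q / f) f with hT
  have hT0 : ∀ q, 0 ≤ T q := fun q => mul_nonneg (by positivity) (sum_nonneg fun f _ => XS_nonneg _ _ _ _ _ _)
  have e2 : ∑ i ∈ I, 1 / (Nat.totient (g i * d i) : ℝ) *
        ∑ f ∈ (g i * d i).divisors.filter (fun f => y < f), XS M N α β (g i * d i / f) f ≤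
      ∑ q ∈ Icc 1 Q, T q := by
    have : ∑ i ∈ I, T (g i * d i) = ∑ q ∈ I.image (fun i => g i * d i), T q := by
      rw [sum_image hinj]
    calc _ = ∑ i ∈ I, T (g i * d i) := rfl
      _ = _ := this
      _ ≤ _ := by
        apply sum_le_sum_of_subset_of_nonneg
        · intro q hq
          rw [mem_image] at hq
          obtain ⟨i, hi, rfl⟩ := hq
          rw [mem_Icc]
          exact ⟨Nat.mul_pos (h1 i hi).1 (h1 i hi).2, hQ i hi⟩
        · intro q _ _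
          exact hT0 q
  refine e2.trans ?_
  -- swap
  have e3 : ∑ q ∈ Icc 1 Q, T q = ∑ x ∈ (Icc 1 Q).sigma (fun q => q.divisors.filter (fun f => y < f)),
      1 / (Nat.totient x.1 : ℝ) * XS M N α β (x.1 / x.2) x.2 := by
    rw [sum_sigma]
    refine sum_congr rfl fun q _ => ?_
    rw [hT]
    simp only
    rw [mul_sum]
  have e4 : ∑ m ∈ Icc 1 Q, 1 / (Nat.totient m : ℝ) *
        ∑ f ∈ Ioc y Q, 1 / (Nat.totient f : ℝ) * XS M N α β m f =
      ∑ x ∈ (Icc 1 Q) ×ˢ (Ioc y Q), 1 / (Nat.totient x.1 : ℝ) * (1 / (Nat.totient x.2 : ℝ) *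
        XS M N α β x.1 x.2) := by
    rw [sum_product]
    refine sum_congr rfl fun m _ => ?_
    rw [mul_sum]
  rw [e3, e4]
  have hfac : ∀ x ∈ (Icc 1 Q).sigma (fun q => q.divisors.filter (fun f => y < f)),
      1 ≤ x.1 ∧ x.1 ≤ Q ∧ y < x.2 ∧ 1 ≤ x.2 ∧ x.2 * (x.1 / x.2) = x.1 ∧ 1 ≤ x.1 / x.2 := by
    rintro ⟨q, f⟩ hx
    rw [mem_sigma, mem_Icc, mem_filter, Nat.mem_divisors] at hx
    obtain ⟨⟨h3, h4⟩, ⟨h5, h6⟩, h7⟩ := hx
    simp only at h3 h4 h5 h6 h7 ⊢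
    have hf1 : 1 ≤ f := Nat.pos_of_dvd_of_pos h5 h3
    refine ⟨h3, h4, h7, hf1, Nat.mul_div_cancel' h5, Nat.div_pos (Nat.le_of_dvd h3 h5) hf1⟩
  calc ∑ x ∈ (Icc 1 Q).sigma (fun q => q.divisors.filter (fun f => y < f)),
      1 / (Nat.totient x.1 : ℝ) * XS M N α β (x.1 / x.2) x.2
      ≤ ∑ x ∈ (Icc 1 Q).sigma (fun q => q.divisors.filter (fun f => y < f)),
        (fun z : ℕ × ℕ => 1 / (Nat.totient z.1 : ℝ) * (1 / (Nat.totient z.2 : ℝ) *
          XS M N α β z.1 z.2)) (x.1 / x.2, x.2) := by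
        refine sum_le_sum fun x hx => ?_
        obtain ⟨a1, a2, a3, a4, a5, a6⟩ := hfac x hx
        simp only
        rw [← mul_assoc]
        apply mul_le_mul_of_nonneg_right _ (XS_nonneg _ _ _ _ _ _)
        have h8 : Nat.totient x.2 * Nat.totient (x.1 / x.2) ≤ Nat.totient x.1 := by
          conv_rhs => rw [← a5]
          exact Nat.totient_super_multiplicative _ _
        have t1 : (0 : ℝ) < Nat.totient x.2 := by exact_mod_cast Nat.totient_pos.2 a4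
        have t2 : (0 : ℝ) < Nat.totient (x.1 / x.2) := by exact_mod_cast Nat.totient_pos.2 a6
        have h12 : (1 : ℝ) / (Nat.totient (x.1 / x.2) : ℝ) * (1 / (Nat.totient x.2 : ℝ)) =
            1 / ((Nat.totient x.2 : ℝ) * (Nat.totient (x.1 / x.2) : ℝ)) := by
          field_simp
        have h13 : (1 : ℝ) / (Nat.totient x.1 : ℝ) ≤
            1 / ((Nat.totient x.2 : ℝ) * (Nat.totient (x.1 / x.2) : ℝ)) :=
          one_div_le_one_div_of_le (by positivity) (by exact_mod_cast h8)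
        rw [h12]
        exact h13
    _ = ∑ z ∈ ((Icc 1 Q).sigma (fun q => q.divisors.filter (fun f => y < f))).image
          (fun x => (x.1 / x.2, x.2)), 1 / (Nat.totient z.1 : ℝ) * (1 / (Nat.totient z.2 : ℝ) *
          XS M N α β z.1 z.2) := by
        rw [sum_image]
        intro x hx x' hx' h
        rw [mem_coe] at hx hx'
        obtain ⟨_, _, _, _, a5, _⟩ := hfac x hx
        obtain ⟨_, _, _, _, b5, _⟩ := hfac x' hx'
        simp only [Prod.mk.injEq] at h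
        obtain ⟨h9, h10⟩ := h
        have h11 : x.1 = x'.1 := by rw [← a5, ← b5, h9, h10]
        obtain ⟨q, f⟩ := x
        obtain ⟨q', f'⟩ := x'
        simp only at h10 h11
        rw [h10, h11]
    _ ≤ _ := by
        apply sum_le_sum_of_subset_of_nonneg
        · intro z hz
          rw [mem_image] at hz
          obtain ⟨x, hx, rfl⟩ := hz
          obtain ⟨a1, a2, a3, a4, a5, a6⟩ := hfac x hx
          rw [mem_product, mem_Icc, mem_Ioc]
          refine ⟨⟨a6, (Nat.div_le_self _ _).trans a2⟩, a3, ?_⟩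
          calc x.2 ≤ x.2 * (x.1 / x.2) := Nat.le_mul_of_pos_right _ a6
            _ = x.1 := a5
            _ ≤ Q := a2
        · intro z _ _
          exact mul_nonneg (by positivity) (mul_nonneg (by positivity) (XS_nonneg _ _ _ _ _ _))

end Pool.Agent.H52AD
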