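import Mathlib
import Pool.Agent.H52AD.Bil
import Pool.Agent.H398R2.BA1

/-! The large sieve for the bilinear form. -/

set_option autoImplicit false

namespace Pool.Agent.H52AD

open Finset
open Pool.Agent.H316R2 (PC PC_eq ls_dyadic)

lemma sqrt_add_le' (a b : ℝ) (ha : 0 ≤ a) (hb : 0 ≤ b) : Real.sqrt (a + b) ≤ Real.sqrt a + Real.sqrt b := by
  rw [Real.sqrt_le_left (by positivity)]
  nlinarith [Real.sq_sqrt ha, Real.sq_sqrt hb, mul_nonneg (Real.sqrt_nonneg a) (Real.sqrt_nonneg b)]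

lemma coef_norm {α : ℕ → ℝ} (hα : ∀ n, |α n| ≤ 1) (m a : ℕ) :
    ‖(if a.Coprime m then (α a : ℂ) else 0)‖ ^ 2 ≤ 1 := by
  split_ifs
  · rw [Complex.norm_real, Real.norm_eq_abs]
    exact pow_le_one₀ (abs_nonneg _) (hα a)
  · simp

/-- the large sieve for one side -/
lemma ls_side (M F m : ℕ) (α : ℕ → ℝ) (hα : ∀ n, |α n| ≤ 1) (ℓ : ℝ) (hℓ : (Nat.log 2 M : ℝ) + 1 ≤ ℓ) :
    ∑ f ∈ Icc 1 F, ((f : ℝ) / (Nat.totient f : ℝ)) * ∑ ψ ∈ PC f, ‖AS M α m f ψ‖ ^ 2 ≤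
      6 * ℓ * (M * (2 * M + (F : ℝ) ^ 2)) := by
  have h1 := ls_dyadic M F (fun a => if a.Coprime m then (α a : ℂ) else 0)
  have h2 : ∑ n ∈ Icc 1 M, (2 * n + (F : ℝ) ^ 2) * ‖(if n.Coprime m then (α n : ℂ) else 0)‖ ^ 2 ≤
      M * (2 * M + (F : ℝ) ^ 2) := by
    calc _ ≤ ∑ _n ∈ Icc 1 M, (2 * (M : ℝ) + (F : ℝ) ^ 2) := by
          refine sum_le_sum fun n hn => ?_
          rw [mem_Icc] at hn
          have h3 : (n : ℝ) ≤ M := by exact_mod_cast hn.2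
          calc (2 * n + (F : ℝ) ^ 2) * ‖(if n.Coprime m then (α n : ℂ) else 0)‖ ^ 2 ≤
              (2 * n + (F : ℝ) ^ 2) * 1 :=
                mul_le_mul_of_nonneg_left (coef_norm hα m n) (by positivity)
            _ ≤ _ := by linarith
      _ = _ := by rw [sum_const, Nat.card_Icc, nsmul_eq_mul]; simp
  have h4 : 0 ≤ (M : ℝ) * (2 * M + (F : ℝ) ^ 2) := by positivity
  calc _ ≤ 6 * ((Nat.log 2 M : ℝ) + 1) * ∑ n ∈ Icc 1 M, (2 * n + (F : ℝ) ^ 2) *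
        ‖(if n.Coprime m then (α n : ℂ) else 0)‖ ^ 2 := h1
    _ ≤ 6 * ((Nat.log 2 M : ℝ) + 1) * (M * (2 * M + (F : ℝ) ^ 2)) :=
        mul_le_mul_of_nonneg_left h2 (by positivity)
    _ ≤ 6 * ℓ * (M * (2 * M + (F : ℝ) ^ 2)) := by
        apply mul_le_mul_of_nonneg_right _ h4
        linarith

/-- Cauchy's inequality -/
lemma cs_side (F m M N : ℕ) (α β : ℕ → ℝ) (U V : ℝ) (hU : 0 < U) (hV : 0 < V)
    (h1 : ∑ f ∈ Icc 1 F, ((f : ℝ) / (Nat.totient f : ℝ)) * ∑ ψ ∈ PC f, ‖AS M α m f ψ‖ ^ 2 ≤ U)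
    (h2 : ∑ f ∈ Icc 1 F, ((f : ℝ) / (Nat.totient f : ℝ)) * ∑ ψ ∈ PC f, ‖AS N β m f ψ‖ ^ 2 ≤ V) :
    ∑ f ∈ Icc 1 F, ((f : ℝ) / (Nat.totient f : ℝ)) * XS M N α β m f ≤ Real.sqrt U * Real.sqrt V := by
  have hu : 0 < Real.sqrt U := Real.sqrt_pos.2 hU
  have hv : 0 < Real.sqrt V := Real.sqrt_pos.2 hV
  have hu2 : Real.sqrt U * Real.sqrt U = U := Real.mul_self_sqrt hU.le
  have hv2 : Real.sqrt V * Real.sqrt V = V := Real.mul_self_sqrt hV.le
  set u := Real.sqrt U with hud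
  set v := Real.sqrt V with hvd
  have h3 : ∑ f ∈ Icc 1 F, ((f : ℝ) / (Nat.totient f : ℝ)) * XS M N α β m f ≤
      (v / (2 * u)) * (∑ f ∈ Icc 1 F, ((f : ℝ) / (Nat.totient f : ℝ)) * ∑ ψ ∈ PC f, ‖AS M α m f ψ‖ ^ 2) +
      (u / (2 * v)) * (∑ f ∈ Icc 1 F, ((f : ℝ) / (Nat.totient f : ℝ)) * ∑ ψ ∈ PC f, ‖AS N β m f ψ‖ ^ 2) := by
    rw [mul_sum, mul_sum, ← sum_add_distrib]
    refine sum_le_sum fun f _ => ?_
    have h4 : XS M N α β m f ≤ (v / (2 * u)) * (∑ ψ ∈ PC f, ‖AS M α m f ψ‖ ^ 2) +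
        (u / (2 * v)) * ∑ ψ ∈ PC f, ‖AS N β m f ψ‖ ^ 2 := by
      unfold XS
      rw [mul_sum, mul_sum, ← sum_add_distrib]
      refine sum_le_sum fun ψ _ => ?_
      have h5 : v / (2 * u) * ‖AS M α m f ψ‖ ^ 2 + u / (2 * v) * ‖AS N β m f ψ‖ ^ 2 -
          ‖AS M α m f ψ‖ * ‖AS N β m f ψ‖ =
          (v * ‖AS M α m f ψ‖ - u * ‖AS N β m f ψ‖) ^ 2 / (2 * u * v) := by
        field_simp
        ring
      have h6 : 0 ≤ (v * ‖AS M α m f ψ‖ - u * ‖AS N β m f ψ‖) ^ 2 / (2 * u * v) := by positivity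
      linarith
    have h7 : 0 ≤ (f : ℝ) / (Nat.totient f : ℝ) := by positivity
    have h8 := mul_le_mul_of_nonneg_left h4 h7
    refine h8.trans (le_of_eq ?_)
    ring
  refine h3.trans ?_
  have h9 : (v / (2 * u)) * (∑ f ∈ Icc 1 F, ((f : ℝ) / (Nat.totient f : ℝ)) * ∑ ψ ∈ PC f, ‖AS M α m f ψ‖ ^ 2) ≤
      (v / (2 * u)) * U := mul_le_mul_of_nonneg_left h1 (by positivity)
  have h10 : (u / (2 * v)) * (∑ f ∈ Icc 1 F, ((f : ℝ) / (Nat.totient f : ℝ)) * ∑ ψ ∈ PC f, ‖AS N β m f ψ‖ ^ 2) ≤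
      (u / (2 * v)) * V := mul_le_mul_of_nonneg_left h2 (by positivity)
  have h11 : (v / (2 * u)) * U = u * v / 2 := by rw [← hu2]; field_simp
  have h12 : (u / (2 * v)) * V = u * v / 2 := by rw [← hv2]; field_simp
  linarith

/-- the bilinear form, one `m` -/
lemma dya (M N Q y m : ℕ) (hy : 1 ≤ y) (hM : 1 ≤ M) (hN : 1 ≤ N) (α β : ℕ → ℝ)
    (hα : ∀ n, |α n| ≤ 1) (hβ : ∀ n, |β n| ≤ 1) (ℓ : ℝ) (hℓ1 : (Nat.log 2 M : ℝ) + 1 ≤ ℓ)
    (hℓ2 : (Nat.log 2 N : ℝ) + 1 ≤ ℓ) :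
    ∑ f ∈ Ioc y Q, 1 / (Nat.totient f : ℝ) * XS M N α β m f ≤
      ((Nat.log 2 Q : ℝ) + 1) * (12 * ℓ * (Real.sqrt M * Real.sqrt N) *
        (2 * (Real.sqrt M * Real.sqrt N) / y + Real.sqrt (2 * M) + Real.sqrt (2 * N) + 2 * Q)) := by
  classical
  have hM0 : (0 : ℝ) < M := by exact_mod_cast hM
  have hN0 : (0 : ℝ) < N := by exact_mod_cast hN
  have hy0 : (0 : ℝ) < y := by exact_mod_cast hy
  have hℓ0 : 0 < ℓ := by
    have : (0 : ℝ) ≤ (Nat.log 2 M : ℝ) := Nat.cast_nonneg _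
    linarith
  set R := Real.sqrt M * Real.sqrt N with hR
  have hR0 : 0 ≤ R := by positivity
  set B : ℝ := 12 * ℓ * R * (2 * R / y + Real.sqrt (2 * M) + Real.sqrt (2 * N) + 2 * Q) with hB
  have hB0 : 0 ≤ B := by positivity
  have hmaps : ∀ f ∈ Ioc y Q, Nat.log 2 f ∈ range (Nat.log 2 Q + 1) := by
    intro f hf
    rw [mem_Ioc] at hf
    rw [mem_range]
    have := Nat.log_mono_right (b := 2) hf.2
    omega
  rw [← sum_fiberwise_of_maps_to hmaps]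
  have hone : ∀ j ∈ range (Nat.log 2 Q + 1), ∑ f ∈ (Ioc y Q).filter (fun f => Nat.log 2 f = j),
      1 / (Nat.totient f : ℝ) * XS M N α β m f ≤ B := by
    intro j _
    rcases ((Ioc y Q).filter (fun f => Nat.log 2 f = j)).eq_empty_or_nonempty with h | ⟨f0, hf0⟩
    · rw [h, sum_empty]; exact hB0
    rw [mem_filter, mem_Ioc] at hf0
    obtain ⟨⟨g1, g2⟩, g3⟩ := hf0
    have g4 : f0 < 2 ^ (j + 1) := by
      have := Nat.lt_pow_succ_log_self (b := 2) (by norm_num) f0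
      rwa [g3] at this
    have g5 : 2 ^ j ≤ f0 := by
      have := Nat.pow_log_le_self 2 (show f0 ≠ 0 by omega)
      rwa [g3] at this
    obtain ⟨F, hF⟩ : ∃ F : ℕ, F = 2 ^ (j + 1) := ⟨_, rfl⟩
    have hF2 : (F : ℝ) = 2 * 2 ^ j := by rw [hF]; push_cast; rw [pow_succ]; ring
    have hF0 : (0 : ℝ) < F := by rw [hF2]; positivity
    have hFy : (y : ℝ) ≤ F := by
      have : y ≤ F := by omega
      exact_mod_cast this
    have hFQ : (F : ℝ) ≤ 2 * Q := by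
      have : F ≤ 2 * Q := by rw [hF, pow_succ]; omega
      exact_mod_cast this
    have hUp : 0 < 6 * ℓ * (M * (2 * M + (F : ℝ) ^ 2)) := by positivity
    have hVp : 0 < 6 * ℓ * (N * (2 * N + (F : ℝ) ^ 2)) := by positivity
    have hcs := cs_side F m M N α β _ _ hUp hVp (ls_side M F m α hα ℓ hℓ1) (ls_side N F m β hβ ℓ hℓ2)
    have h6 : Real.sqrt (6 * ℓ * (M * (2 * M + (F : ℝ) ^ 2))) ≤
        Real.sqrt (6 * ℓ) * (Real.sqrt M * (Real.sqrt (2 * M) + F)) := by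
      rw [Real.sqrt_mul (show (0 : ℝ) ≤ 6 * ℓ by positivity), Real.sqrt_mul (show (0 : ℝ) ≤ M by positivity)]
      apply mul_le_mul_of_nonneg_left _ (Real.sqrt_nonneg _)
      apply mul_le_mul_of_nonneg_left _ (Real.sqrt_nonneg _)
      refine (sqrt_add_le' _ _ (by positivity) (by positivity)).trans ?_
      rw [Real.sqrt_sq hF0.le]
    have h7 : Real.sqrt (6 * ℓ * (N * (2 * N + (F : ℝ) ^ 2))) ≤
        Real.sqrt (6 * ℓ) * (Real.sqrt N * (Real.sqrt (2 * N) + F)) := by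
      rw [Real.sqrt_mul (show (0 : ℝ) ≤ 6 * ℓ by positivity), Real.sqrt_mul (show (0 : ℝ) ≤ N by positivity)]
      apply mul_le_mul_of_nonneg_left _ (Real.sqrt_nonneg _)
      apply mul_le_mul_of_nonneg_left _ (Real.sqrt_nonneg _)
      refine (sqrt_add_le' _ _ (by positivity) (by positivity)).trans ?_
      rw [Real.sqrt_sq hF0.le]
    have h8 : ∑ f ∈ Icc 1 F, ((f : ℝ) / (Nat.totient f : ℝ)) * XS M N α β m f ≤
        6 * ℓ * R * (2 * R + F * (Real.sqrt (2 * M) + Real.sqrt (2 * N)) + F ^ 2) := by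
      refine hcs.trans ((mul_le_mul h6 h7 (Real.sqrt_nonneg _) (by positivity)).trans (le_of_eq ?_))
      have e1 : Real.sqrt (6 * ℓ) * Real.sqrt (6 * ℓ) = 6 * ℓ := Real.mul_self_sqrt (by positivity)
      have e2 : Real.sqrt (2 * M) * Real.sqrt (2 * N) = 2 * R := by
        rw [Real.sqrt_mul (by norm_num), Real.sqrt_mul (by norm_num), hR]
        have := Real.mul_self_sqrt (show (0 : ℝ) ≤ 2 by norm_num)
        calc _ = (Real.sqrt 2 * Real.sqrt 2) * (Real.sqrt M * Real.sqrt N) := by ring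
          _ = _ := by rw [this]
      calc _ = (Real.sqrt (6 * ℓ) * Real.sqrt (6 * ℓ)) * R *
            (Real.sqrt (2 * M) * Real.sqrt (2 * N) + F * (Real.sqrt (2 * M) + Real.sqrt (2 * N)) + F ^ 2) := by
            rw [hR]; ring
        _ = _ := by rw [e1, e2]
    have h9 : ∑ f ∈ (Ioc y Q).filter (fun f => Nat.log 2 f = j),
        1 / (Nat.totient f : ℝ) * XS M N α β m f ≤
        2 / F * ∑ f ∈ Icc 1 F, ((f : ℝ) / (Nat.totient f : ℝ)) * XS M N α β m f := by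
      rw [mul_sum]
      calc _ ≤ ∑ f ∈ (Ioc y Q).filter (fun f => Nat.log 2 f = j),
            2 / (F : ℝ) * (((f : ℝ) / (Nat.totient f : ℝ)) * XS M N α β m f) := by
            refine sum_le_sum fun f hf => ?_
            rw [mem_filter, mem_Ioc] at hf
            have b1 : 2 ^ j ≤ f := by
              have := Nat.pow_log_le_self 2 (show f ≠ 0 by omega)
              rwa [hf.2] at this
            have b2 : (F : ℝ) ≤ 2 * f := by
              rw [hF2]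
              have : ((2 ^ j : ℕ) : ℝ) ≤ f := by exact_mod_cast b1
              push_cast at this
              linarith
            have b3 : (0 : ℝ) < f := by exact_mod_cast (by omega : 0 < f)
            have b4 : (0 : ℝ) < Nat.totient f := by exact_mod_cast Nat.totient_pos.2 (by omega)
            rw [← mul_assoc]
            apply mul_le_mul_of_nonneg_right _ (XS_nonneg _ _ _ _ _ _)
            rw [div_mul_div_comm, div_le_div_iff₀ b4 (by positivity)]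
            nlinarith
        _ ≤ _ := by
            apply sum_le_sum_of_subset_of_nonneg
            · intro f hf
              rw [mem_filter, mem_Ioc] at hf
              rw [mem_Icc]
              refine ⟨by omega, ?_⟩
              have := Nat.lt_pow_succ_log_self (b := 2) (by norm_num) f
              rw [hf.2] at this
              omega
            · intro f _ _
              exact mul_nonneg (by positivity) (mul_nonneg (by positivity) (XS_nonneg _ _ _ _ _ _))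
    refine h9.trans ((mul_le_mul_of_nonneg_left h8 (by positivity)).trans ?_)
    have h10 : 2 / (F : ℝ) * (6 * ℓ * R * (2 * R + F * (Real.sqrt (2 * M) + Real.sqrt (2 * N)) + F ^ 2)) =
        12 * ℓ * R * (2 * R / F + Real.sqrt (2 * M) + Real.sqrt (2 * N) + F) := by
      field_simp
      ring
    rw [h10, hB]
    apply mul_le_mul_of_nonneg_left _ (by positivity)
    have h11 : 2 * R / F ≤ 2 * R / y := div_le_div_of_nonneg_left (by positivity) hy0 hFy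
    linarith
  calc _ ≤ ∑ _j ∈ range (Nat.log 2 Q + 1), B := sum_le_sum hone
    _ = _ := by rw [sum_const, card_range, nsmul_eq_mul]; push_cast; ring

/-- **the bilinear large sieve** -/
theorem bilin : ∃ k0 : ℕ, ∀ {ι : Type} (M N Q y : ℕ) (α β : ℕ → ℝ) (I : Finset ι) (g d : ι → ℕ)
    (w : ι → ℝ) (W ℓ : ℝ), 1 ≤ y → 1 ≤ M → 1 ≤ N → (∀ n, |α n| ≤ 1) → (∀ n, |β n| ≤ 1) →
    (Nat.log 2 M : ℝ) + 1 ≤ ℓ → (Nat.log 2 N : ℝ) + 1 ≤ ℓ → 0 ≤ W → (∀ i ∈ I, |w i| ≤ W) →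
    (∀ i ∈ I, ∀ j ∈ I, g i * d i = g j * d j → i = j) →
    (∀ i ∈ I, Nat.Coprime (g i) (d i)) → (∀ i ∈ I, 1 ≤ g i ∧ 1 ≤ d i) →
    (∀ i ∈ I, g i * d i ≤ Q) → (∀ i ∈ I, ∀ p : ℕ, p.Prime → p ∣ d i → y < p) →
    |∑ i ∈ I, w i * ∑ a ∈ Icc 1 M, ∑ n ∈ Icc 1 N, α a * β n * DD (g i) (d i) (a * n)| ≤
      W * ((1 + Real.log Q) ^ k0 * (((Nat.log 2 Q : ℝ) + 1) * (12 * ℓ * (Real.sqrt M * Real.sqrt N) *
        (2 * (Real.sqrt M * Real.sqrt N) / y + Real.sqrt (2 * M) + Real.sqrt (2 * N) + 2 * Q)))) := by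
  obtain ⟨k, hk⟩ := Pool.Agent.H398R2.BV.sum_pow_omega_div_totient 1 le_rfl
  refine ⟨2 ^ k, ?_⟩
  intro ι M N Q y α β I g d w W ℓ hy hM hN hα hβ hℓ1 hℓ2 hW hw hinj hcop h1 hQ hr
  refine (all_pairs M N Q y α β I g d w W hW hw hinj hcop h1 hQ hr).trans ?_
  apply mul_le_mul_of_nonneg_left _ hW
  set B := ((Nat.log 2 Q : ℝ) + 1) * (12 * ℓ * (Real.sqrt M * Real.sqrt N) *
        (2 * (Real.sqrt M * Real.sqrt N) / y + Real.sqrt (2 * M) + Real.sqrt (2 * N) + 2 * Q)) with hB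
  have hℓ0 : 0 < ℓ := by
    have : (0 : ℝ) ≤ (Nat.log 2 M : ℝ) := Nat.cast_nonneg _
    linarith
  have hB0 : 0 ≤ B := by positivity
  have hk' := hk Q
  simp only [one_pow] at hk'
  calc _ ≤ ∑ m ∈ Icc 1 Q, 1 / (Nat.totient m : ℝ) * B :=
        sum_le_sum fun m _ => mul_le_mul_of_nonneg_left
          (dya M N Q y m hy hM hN α β hα hβ ℓ hℓ1 hℓ2) (by positivity)
    _ = (∑ m ∈ Icc 1 Q, 1 / (Nat.totient m : ℝ)) * B := by rw [sum_mul]
    _ ≤ _ := mul_le_mul_of_nonneg_right hk' hB0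

end Pool.Agent.H52AD
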