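import Mathlib
import Pool.Agent.H52AD.Dya
import Pool.Agent.H52AD.Apx

/-! The total error of the sieve over all multipliers. -/

set_option autoImplicit false

namespace Pool.Agent.H52AD

open Finset
open Pool.Agent.Y882 (VV VV_union VV_mu VV_sub prod_ind flw VV_congr)
open Pool.Agent.Y822 (Ro ro ro_nonneg ro_le_one)

/-- the error of the sieve at the multiplier `a` -/
noncomputable def E2 (y N : ℕ) (P : Finset ℕ) (c : Finset ℕ → ℝ) (f : ℕ → ℝ) (a : ℕ) : ℝ :=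
  ∑ T ∈ P.powerset, c T * ∑ n ∈ Icc 1 N, f n * (ro y (a * n + 1) *
    ((if (∏ p ∈ T, p) ∣ a * n + 1 then 1 else 0) -
      (if a.Coprime (∏ p ∈ T, p) then 1 / (Nat.totient (∏ p ∈ T, p) : ℝ) else 0)))

/-- number of solutions of a linear congruence -/
lemma cnt_cong (a q N : ℕ) (hq : 1 ≤ q) (h : a.Coprime q) :
    |(((Icc 1 N).filter (fun n => q ∣ a * n + 1)).card : ℝ) - N / q| ≤ 1 := by
  have : NeZero q := ⟨by omega⟩
  -- the residue class
  obtain ⟨v, hv⟩ : ∃ v : ℕ, ∀ n : ℕ, q ∣ a * n + 1 ↔ n ≡ v [MOD q] := by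
    refine ⟨((-(a : ZMod q)⁻¹ : ZMod q)).val, fun n => ?_⟩
    have hu : IsUnit (a : ZMod q) := (ZMod.isUnit_iff_coprime a q).2 h
    rw [← ZMod.natCast_eq_zero_iff, ← ZMod.natCast_eq_natCast_iff]
    push_cast
    rw [ZMod.natCast_val, ZMod.cast_id', id]
    constructor
    · intro h1
      have h2 : (a : ZMod q)⁻¹ * ((a : ZMod q) * n + 1) = 0 := by rw [h1, mul_zero]
      rw [mul_add, ← mul_assoc, ZMod.inv_mul_of_unit _ hu, one_mul, mul_one] at h2
      exact eq_neg_of_add_eq_zero_left h2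
    · intro h1
      rw [h1, mul_neg, ZMod.mul_inv_of_unit _ hu]
      ring
  have e : (Icc 1 N).filter (fun n => q ∣ a * n + 1) = (Ioc 0 N).filter (fun n => n ≡ v [MOD q]) := by
    ext n
    rw [mem_filter, mem_filter, mem_Icc, mem_Ioc, hv]
    constructor
    · rintro ⟨⟨h1, h2⟩, h3⟩; exact ⟨⟨by omega, h2⟩, h3⟩
    · rintro ⟨⟨h1, h2⟩, h3⟩; exact ⟨⟨by omega, h2⟩, h3⟩
  rw [e]
  have h1 := Nat.Ioc_filter_modEq_card (a := 0) (b := N) (r := q) (by omega) v
  have hq0 : (0 : ℚ) < q := by exact_mod_cast hq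
  set A : ℚ := ((N : ℚ) - v) / q with hA
  set B : ℚ := ((0 : ℕ) - v : ℚ) / q with hB
  have h2 : ((((Ioc 0 N).filter (fun n => n ≡ v [MOD q])).card : ℤ) : ℝ) =
      ((max (⌊A⌋ - ⌊B⌋) 0 : ℤ) : ℝ) := by
    rw [h1]
  have hAB : (A : ℝ) - B = N / q := by
    have h0 : A - B = (N : ℚ) / q := by rw [hA, hB]; field_simp; push_cast; ring
    have h00 : ((A - B : ℚ) : ℝ) = (((N : ℚ) / q : ℚ) : ℝ) := by rw [h0]
    push_cast at h00
    exact h00
  have f1 : (⌊A⌋ : ℚ) ≤ A := Int.floor_le A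
  have f2 : A < ⌊A⌋ + 1 := Int.lt_floor_add_one A
  have f3 : (⌊B⌋ : ℚ) ≤ B := Int.floor_le B
  have f4 : B < ⌊B⌋ + 1 := Int.lt_floor_add_one B
  have f1' : (⌊A⌋ : ℝ) ≤ (A : ℝ) := by exact_mod_cast f1
  have f2' : (A : ℝ) < ⌊A⌋ + 1 := by exact_mod_cast f2
  have f3' : (⌊B⌋ : ℝ) ≤ (B : ℝ) := by exact_mod_cast f3
  have f4' : (B : ℝ) < ⌊B⌋ + 1 := by exact_mod_cast f4
  have hNq : (0 : ℝ) ≤ (N : ℝ) / q := by positivity
  have hcast : (((Ioc 0 N).filter (fun n => n ≡ v [MOD q])).card : ℝ) =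
      ((((Ioc 0 N).filter (fun n => n ≡ v [MOD q])).card : ℤ) : ℝ) := by push_cast; rfl
  rw [hcast, h2]
  rcases le_total (⌊A⌋ - ⌊B⌋) 0 with h3 | h3
  · rw [max_eq_right h3]
    have h3' : (⌊A⌋ : ℝ) - ⌊B⌋ ≤ 0 := by exact_mod_cast h3
    rw [abs_le]
    push_cast
    constructor <;> linarith
  · rw [max_eq_left h3]
    rw [abs_le]
    push_cast
    constructor <;> linarith

lemma prod_pos' {T : Finset ℕ} (hT : ∀ p ∈ T, p.Prime) : 1 ≤ ∏ p ∈ T, p :=
  Nat.pos_of_ne_zero (prod_ne_zero_iff.2 fun p hp => (hT p hp).ne_zero)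

lemma prod_injOn {T T' : Finset ℕ} (hT : ∀ p ∈ T, p.Prime) (hT' : ∀ p ∈ T', p.Prime)
    (h : ∏ p ∈ T, p = ∏ p ∈ T', p) : T = T' := by
  have e1 := Nat.primeFactors_prod hT
  have e2 := Nat.primeFactors_prod hT'
  rw [← e1, ← e2, h]

/-- sums over sets of primes with bounded product -/
lemma sum_sets_le (P : Finset ℕ) (hP : ∀ p ∈ P, p.Prime) (c : Finset ℕ → ℝ) (R : ℕ)
    (hR : ∀ T ⊆ P, c T ≠ 0 → ∏ p ∈ T, p ≤ R) (F : ℕ → ℝ) (hF : ∀ d, 0 ≤ F d) :
    ∑ T ∈ P.powerset.filter (fun T => c T ≠ 0), F (∏ p ∈ T, p) ≤ ∑ d ∈ Icc 1 R, F d := by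
  classical
  have h1 : ∑ T ∈ P.powerset.filter (fun T => c T ≠ 0), F (∏ p ∈ T, p) =
      ∑ d ∈ (P.powerset.filter (fun T => c T ≠ 0)).image (fun T => ∏ p ∈ T, p), F d := by
    rw [sum_image]
    intro T hT T' hT' h
    rw [mem_coe, mem_filter, mem_powerset] at hT hT'
    exact prod_injOn (fun p hp => hP p (hT.1 hp)) (fun p hp => hP p (hT'.1 hp)) h
  rw [h1]
  apply sum_le_sum_of_subset_of_nonneg
  · intro d hd
    rw [mem_image] at hd
    obtain ⟨T, hT, rfl⟩ := hd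
    rw [mem_filter, mem_powerset] at hT
    rw [mem_Icc]
    exact ⟨prod_pos' fun p hp => hP p (hT.1 hp), hR T hT.1 hT.2⟩
  · intro d _ _
    exact hF d

/-- the majorant on average, one multiplier -/
lemma maj_one (y N a d D1 b J : ℕ) (cD : Finset ℕ → ℝ) (hd : 1 ≤ d)
    (hr : ∀ p : ℕ, p.Prime → p ∣ d → y < p) (hJ : ∀ T, |cD T| ≤ J + 2)
    (hD : ∀ T ⊆ Ps y, cD T ≠ 0 → ∏ p ∈ T, p ≤ D1)
    (hV : ∀ g : ℕ → ℝ, (∀ p ∈ Ps y, 0 ≤ g p ∧ g p ≤ 1 / (p : ℝ)) →
        VV (Ps y) cD g ≤ 2 * (1 / 2 : ℝ) ^ b) :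
    ∑ n ∈ Icc 1 N, VV (Ps y) cD (dv (a * n + 1)) * (if d ∣ a * n + 1 then 1 else 0) ≤
      N / d * (2 * (1 / 2 : ℝ) ^ b) + (J + 2) * D1 := by
  classical
  have hPp : ∀ T ⊆ Ps y, ∀ p ∈ T, p.Prime := fun T hT p hp => (mem_Ps.1 (hT hp)).1
  have hd0 : (0 : ℝ) < d := by exact_mod_cast hd
  -- expansion
  have e1 : ∑ n ∈ Icc 1 N, VV (Ps y) cD (dv (a * n + 1)) * (if d ∣ a * n + 1 then (1 : ℝ) else 0) =
      ∑ T ∈ (Ps y).powerset, cD T *
        (((Icc 1 N).filter (fun n => (∏ p ∈ T, p) * d ∣ a * n + 1)).card : ℝ) := by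
    unfold VV
    simp only [sum_mul]
    rw [sum_comm]
    refine sum_congr rfl fun T hT => ?_
    rw [mem_powerset] at hT
    have hcop : Nat.Coprime (∏ p ∈ T, p) d := by
      refine Nat.Coprime.prod_left fun p hp => ?_
      rw [(hPp T hT p hp).coprime_iff_not_dvd]
      intro h
      have := hr p (hPp T hT p hp) h
      have := (mem_Ps.1 (hT hp)).2
      omega
    rw [card_filter]
    push_cast
    rw [mul_sum]
    refine sum_congr rfl fun n _ => ?_
    rw [prod_dv (hPp T hT), mul_assoc]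
    congr 1
    by_cases h1 : (∏ p ∈ T, p) ∣ a * n + 1
    · by_cases h2 : d ∣ a * n + 1
      · rw [if_pos h1, if_pos h2, if_pos (hcop.mul_dvd_of_dvd_of_dvd h1 h2), mul_one]
      · rw [if_neg h2, if_neg (fun h => h2 (dvd_of_mul_left_dvd h)), mul_zero]
    · rw [if_neg h1, if_neg (fun h => h1 (dvd_of_mul_right_dvd h)), zero_mul]
  rw [e1]
  set g : ℕ → ℝ := fun p => if p ∣ a then 0 else 1 / (p : ℝ) with hg
  have hg1 : ∀ p ∈ Ps y, 0 ≤ g p ∧ g p ≤ 1 / (p : ℝ) := by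
    intro p _
    rw [hg]
    simp only
    split_ifs
    · exact ⟨le_rfl, by positivity⟩
    · exact ⟨by positivity, le_rfl⟩
  have e2 : ∀ T ∈ (Ps y).powerset, cD T *
        (((Icc 1 N).filter (fun n => (∏ p ∈ T, p) * d ∣ a * n + 1)).card : ℝ) ≤
      (if a.Coprime d then (N : ℝ) / d else 0) * (cD T * ∏ p ∈ T, g p) +
        (if cD T ≠ 0 then ((J : ℝ) + 2) else 0) := by
    intro T hT
    rw [mem_powerset] at hT
    by_cases hc0 : cD T = 0
    · rw [hc0, if_neg (not_not.2 rfl)]; simp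
    rw [if_pos hc0]
    set q := (∏ p ∈ T, p) * d with hq
    have hq1 : 1 ≤ q := Nat.mul_pos (prod_pos' (hPp T hT)) hd
    have hprodg : ∏ p ∈ T, g p = if a.Coprime (∏ p ∈ T, p) then 1 / ((∏ p ∈ T, p : ℕ) : ℝ) else 0 := by
      by_cases h : a.Coprime (∏ p ∈ T, p)
      · rw [if_pos h]
        push_cast
        rw [one_div, ← prod_inv_distrib]
        refine prod_congr rfl fun p hp => ?_
        rw [hg]
        simp only
        rw [if_neg, one_div]
        intro hpa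
        have h3 := Nat.Coprime.coprime_dvd_right (dvd_prod_of_mem (fun p => p) hp) h
        rw [Nat.coprime_comm, (hPp T hT p hp).coprime_iff_not_dvd] at h3
        exact h3 hpa
      · rw [if_neg h]
        have h3 : ∃ p ∈ T, p ∣ a := by
          by_contra hcon
          push Not at hcon
          apply h
          refine Nat.Coprime.prod_right fun p hp => ?_
          rw [Nat.coprime_comm, (hPp T hT p hp).coprime_iff_not_dvd]
          exact hcon p hp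
        obtain ⟨p, hp, hpa⟩ := h3
        apply prod_eq_zero hp
        rw [hg]
        simp only
        rw [if_pos hpa]
    have hJT := hJ T
    by_cases haq : a.Coprime q
    · have h4 : a.Coprime d := Nat.Coprime.coprime_mul_left_right haq
      have h5 : a.Coprime (∏ p ∈ T, p) := Nat.Coprime.coprime_mul_right_right haq
      rw [if_pos h4, hprodg, if_pos h5]
      have h6 := cnt_cong a q N hq1 haq
      have h7 : (N : ℝ) / q = N / d * (1 / ((∏ p ∈ T, p : ℕ) : ℝ)) := by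
        rw [hq]
        push_cast
        field_simp
      set X := (((Icc 1 N).filter (fun n => q ∣ a * n + 1)).card : ℝ) with hX
      have h8 : cD T * X - N / d * (cD T * (1 / ((∏ p ∈ T, p : ℕ) : ℝ))) = cD T * (X - N / q) := by
        rw [h7]; ring
      have h9 : cD T * (X - N / q) ≤ (J : ℝ) + 2 := by
        calc _ ≤ |cD T * (X - N / q)| := le_abs_self _
          _ = |cD T| * |X - N / q| := abs_mul _ _
          _ ≤ (J + 2) * 1 := mul_le_mul hJT h6 (abs_nonneg _) (by positivity)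
          _ = _ := mul_one _
      linarith
    · have h4 : ((Icc 1 N).filter (fun n => q ∣ a * n + 1)).card = 0 := by
        rw [card_eq_zero, filter_eq_empty_iff]
        intro n _ hdv
        apply haq
        have h5 : Nat.gcd a q ∣ 1 := by
          have h6 : Nat.gcd a q ∣ a * n + 1 := (Nat.gcd_dvd_right a q).trans hdv
          exact (Nat.dvd_add_right ((Nat.gcd_dvd_left a q).mul_right n)).1 h6
        exact Nat.dvd_one.1 h5
      rw [h4]
      have h5 : (if a.Coprime d then (N : ℝ) / d else 0) * (cD T * ∏ p ∈ T, g p) = 0 := by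
        by_cases h6 : a.Coprime d
        · have h7 : ¬ a.Coprime (∏ p ∈ T, p) := fun h => haq (Nat.Coprime.mul_right h h6)
          rw [hprodg, if_neg h7, mul_zero, mul_zero]
        · rw [if_neg h6, zero_mul]
      rw [h5]
      simp
      positivity
  refine (sum_le_sum e2).trans ?_
  rw [sum_add_distrib, ← mul_sum]
  have h1 : ∑ T ∈ (Ps y).powerset, cD T * ∏ p ∈ T, g p = VV (Ps y) cD g := rfl
  rw [h1]
  have h2 := hV g hg1
  have h3 : (if a.Coprime d then (N : ℝ) / d else 0) * VV (Ps y) cD g ≤ N / d * (2 * (1 / 2 : ℝ) ^ b) := by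
    split_ifs
    · exact mul_le_mul_of_nonneg_left h2 (by positivity)
    · rw [zero_mul]; positivity
  have h4 : ∑ T ∈ (Ps y).powerset, (if cD T ≠ 0 then ((J : ℝ) + 2) else 0) ≤ (J + 2) * D1 := by
    rw [← sum_filter]
    have h5 := sum_sets_le (Ps y) (fun p hp => (mem_Ps.1 hp).1) cD D1 hD (fun _ => (J : ℝ) + 2)
      (fun _ => by positivity)
    refine h5.trans (le_of_eq ?_)
    rw [sum_const, Nat.card_Icc, nsmul_eq_mul]
    simp
    ring
  linarith

/-- the majorant on average, all multipliers -/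
lemma maj_all (y M N d D1 b J : ℕ) (cD : Finset ℕ → ℝ) (hd : 1 ≤ d)
    (hr : ∀ p : ℕ, p.Prime → p ∣ d → y < p) (hJ : ∀ T, |cD T| ≤ J + 2)
    (hD : ∀ T ⊆ Ps y, cD T ≠ 0 → ∏ p ∈ T, p ≤ D1)
    (hV : ∀ g : ℕ → ℝ, (∀ p ∈ Ps y, 0 ≤ g p ∧ g p ≤ 1 / (p : ℝ)) →
        VV (Ps y) cD g ≤ 2 * (1 / 2 : ℝ) ^ b) :
    ∑ a ∈ Icc 1 M, ∑ n ∈ Icc 1 N, VV (Ps y) cD (dv (a * n + 1)) * (if d ∣ a * n + 1 then 1 else 0) ≤
      M * N / d * (2 * (1 / 2 : ℝ) ^ b) + (J + 2) * D1 * (min M N : ℕ) := by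
  have h1 : ∑ a ∈ Icc 1 M, ∑ n ∈ Icc 1 N, VV (Ps y) cD (dv (a * n + 1)) *
      (if d ∣ a * n + 1 then (1 : ℝ) else 0) ≤ M * (N / d * (2 * (1 / 2 : ℝ) ^ b) + (J + 2) * D1) := by
    calc _ ≤ ∑ _a ∈ Icc 1 M, ((N : ℝ) / d * (2 * (1 / 2 : ℝ) ^ b) + (J + 2) * D1) :=
          sum_le_sum fun a _ => maj_one y N a d D1 b J cD hd hr hJ hD hV
      _ = _ := by rw [sum_const, Nat.card_Icc, nsmul_eq_mul]; simp
  have h2 : ∑ a ∈ Icc 1 M, ∑ n ∈ Icc 1 N, VV (Ps y) cD (dv (a * n + 1)) *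
      (if d ∣ a * n + 1 then (1 : ℝ) else 0) ≤ N * (M / d * (2 * (1 / 2 : ℝ) ^ b) + (J + 2) * D1) := by
    rw [sum_comm]
    calc _ ≤ ∑ _n ∈ Icc 1 N, ((M : ℝ) / d * (2 * (1 / 2 : ℝ) ^ b) + (J + 2) * D1) := by
          refine sum_le_sum fun n _ => ?_
          have := maj_one y M n d D1 b J cD hd hr hJ hD hV
          simp only [mul_comm n] at this
          exact this
      _ = _ := by rw [sum_const, Nat.card_Icc, nsmul_eq_mul]; simp
  rcases le_total M N with h | h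
  · rw [min_eq_left h]
    refine h1.trans (le_of_eq ?_)
    ring
  · rw [min_eq_right h]
    refine h2.trans (le_of_eq ?_)
    ring

end Pool.Agent.H52AD
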