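import Mathlib
import Pool.Agent.H52AD.Ert
import Pool.Agent.Y882.KW.Alm

/-! Squares of medium primes. -/

set_option autoImplicit false

namespace Pool.Agent.H52AD

open Finset
open Pool.Agent.W23.DC (tt pr)
open Pool.Agent.Y882 (VV tt_lt)

open Classical in
/-- the number of `n ≤ N` for which `a n + 1` is divisible by the square of a medium prime -/
noncomputable def Sq (Y N : ℕ) (ζ υ : ℝ) (a : ℕ) : ℝ :=
  ((Icc 1 N).filter (fun n => ∃ q ∈ pr Y ζ υ, q ^ 2 ∣ a * n + 1)).card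

lemma div_count (M N d : ℕ) (hd : 1 ≤ d) :
    ∑ a ∈ Icc 1 M, ∑ n ∈ Icc 1 N, (if d ∣ a * n + 1 then (1 : ℝ) else 0) ≤
      2 * (M * N / d) + 2 * (min M N : ℕ) := by
  classical
  have hP0 : Ps 0 = ∅ := by
    ext p
    rw [mem_Ps]
    constructor
    · rintro ⟨h1, h2⟩
      have := h1.pos
      omega
    · intro h
      simp at h
  have hVV : ∀ g : ℕ → ℝ, VV (Ps 0) (fun T => if T = ∅ then 1 else 0) g = 1 := by
    intro g
    unfold VV
    rw [hP0, powerset_empty, sum_singleton]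
    simp
  have h := maj_all 0 M N d 1 0 0 (fun T => if T = ∅ then 1 else 0) hd
    (fun p hp _ => hp.pos) (by
      intro T
      split_ifs <;> norm_num) (by
      intro T _ hne
      by_cases hT : T = ∅
      · rw [hT, prod_empty]
      · rw [if_neg hT] at hne
        exact absurd rfl hne) (by
      intro g _
      rw [hVV]
      norm_num)
  simp only [hVV, one_mul, pow_zero, mul_one] at h
  refine h.trans (le_of_eq ?_)
  push_cast
  ring

lemma Sq_total (Y M N : ℕ) (hY : 2 ≤ Y) (ζ υ : ℝ) :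
    ∑ a ∈ Icc 1 M, Sq Y N ζ υ a ≤
      2 * (M * N) * ((1 + Real.log Y) / (Y : ℝ) ^ ζ) + 2 * (Y : ℝ) ^ υ * (min M N : ℕ) := by
  classical
  have hYr : (2 : ℝ) ≤ Y := by exact_mod_cast hY
  have hY0 : (0 : ℝ) < Y := by linarith
  have hq : ∀ q ∈ pr Y ζ υ, q.Prime ∧ q ≤ Y ∧ (Y : ℝ) ^ ζ ≤ q ∧ (q : ℝ) < (Y : ℝ) ^ υ := by
    intro q hq
    unfold pr at hq
    rw [mem_filter, mem_Icc] at hq
    obtain ⟨⟨h1, h2⟩, h3, h4, h5⟩ := hq
    refine ⟨h3, h2, ?_, (tt_lt Y q υ hY h3.pos).1 h5⟩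
    by_contra hlt
    push Not at hlt
    exact absurd h4 (not_le.2 ((tt_lt Y q ζ hY h3.pos).2 hlt))
  have h1 : ∀ a ∈ Icc 1 M, Sq Y N ζ υ a ≤
      ∑ q ∈ pr Y ζ υ, ∑ n ∈ Icc 1 N, (if q ^ 2 ∣ a * n + 1 then (1 : ℝ) else 0) := by
    intro a _
    unfold Sq
    rw [sum_comm, card_filter]
    push_cast
    refine sum_le_sum fun n _ => ?_
    have h0 : ∀ q ∈ pr Y ζ υ, 0 ≤ (if q ^ 2 ∣ a * n + 1 then (1 : ℝ) else 0) := by
      intro q _
      split_ifs <;> norm_num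
    split_ifs with h
    · obtain ⟨q, hq, hd⟩ := h
      have h2 := single_le_sum h0 hq
      rw [if_pos hd] at h2
      exact h2
    · exact sum_nonneg h0
  have hharm : ∑ q ∈ pr Y ζ υ, 1 / (q : ℝ) ≤ 1 + Real.log Y := by
    calc ∑ q ∈ pr Y ζ υ, 1 / (q : ℝ) ≤ ∑ q ∈ Icc 1 Y, 1 / (q : ℝ) := by
          apply sum_le_sum_of_subset_of_nonneg
          · intro q hq'
            rw [mem_Icc]
            exact ⟨(hq q hq').1.one_le, (hq q hq').2.1⟩
          · intro q _ _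
            positivity
      _ ≤ 1 + Real.log Y := by
          have h2 := harmonic_le_one_add_log Y
          rw [harmonic_eq_sum_Icc] at h2
          push_cast at h2
          simpa only [one_div] using h2
  have hcard : ((pr Y ζ υ).card : ℝ) ≤ (Y : ℝ) ^ υ := by
    have h2 : pr Y ζ υ ⊆ Icc 1 ⌊(Y : ℝ) ^ υ⌋₊ := by
      intro q hq'
      rw [mem_Icc]
      exact ⟨(hq q hq').1.one_le, Nat.le_floor (hq q hq').2.2.2.le⟩
    have h3 := card_le_card h2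
    rw [Nat.card_Icc, Nat.add_sub_cancel] at h3
    calc ((pr Y ζ υ).card : ℝ) ≤ (⌊(Y : ℝ) ^ υ⌋₊ : ℝ) := by exact_mod_cast h3
      _ ≤ _ := Nat.floor_le (by positivity)
  have hone : ∀ q ∈ pr Y ζ υ, ∑ a ∈ Icc 1 M, ∑ n ∈ Icc 1 N, (if q ^ 2 ∣ a * n + 1 then (1 : ℝ) else 0) ≤
      2 * (M * N) / (Y : ℝ) ^ ζ * (1 / (q : ℝ)) + 2 * (min M N : ℕ) := by
    intro q hq'
    obtain ⟨p1, p2, p3, p4⟩ := hq q hq'
    have h2 := div_count M N (q ^ 2) (Nat.one_le_pow _ _ p1.pos)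
    refine h2.trans (add_le_add ?_ le_rfl)
    have hq0 : (0 : ℝ) < q := by exact_mod_cast p1.pos
    have hYζ : (0 : ℝ) < (Y : ℝ) ^ ζ := by positivity
    push_cast
    have h3 : (Y : ℝ) ^ ζ * q ≤ q ^ 2 := by
      rw [sq]
      exact mul_le_mul_of_nonneg_right p3 hq0.le
    have h4 : (M : ℝ) * N / (q : ℝ) ^ 2 ≤ M * N / ((Y : ℝ) ^ ζ * q) :=
      div_le_div_of_nonneg_left (by positivity) (by positivity) h3
    calc 2 * ((M : ℝ) * N / (q : ℝ) ^ 2) ≤ 2 * (M * N / ((Y : ℝ) ^ ζ * q)) := by linarith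
      _ = _ := by field_simp
  calc ∑ a ∈ Icc 1 M, Sq Y N ζ υ a ≤
      ∑ a ∈ Icc 1 M, ∑ q ∈ pr Y ζ υ, ∑ n ∈ Icc 1 N, (if q ^ 2 ∣ a * n + 1 then (1 : ℝ) else 0) :=
        sum_le_sum h1
    _ = ∑ q ∈ pr Y ζ υ, ∑ a ∈ Icc 1 M, ∑ n ∈ Icc 1 N, (if q ^ 2 ∣ a * n + 1 then (1 : ℝ) else 0) :=
        sum_comm
    _ ≤ ∑ q ∈ pr Y ζ υ, (2 * (M * N) / (Y : ℝ) ^ ζ * (1 / (q : ℝ)) + 2 * (min M N : ℕ)) :=
        sum_le_sum hone
    _ = 2 * (M * N) / (Y : ℝ) ^ ζ * ∑ q ∈ pr Y ζ υ, 1 / (q : ℝ) +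
        (pr Y ζ υ).card * (2 * (min M N : ℕ)) := by
        rw [sum_add_distrib, ← mul_sum, sum_const, nsmul_eq_mul]
    _ ≤ 2 * (M * N) / (Y : ℝ) ^ ζ * (1 + Real.log Y) + (Y : ℝ) ^ υ * (2 * (min M N : ℕ)) := by
        apply add_le_add
        · exact mul_le_mul_of_nonneg_left hharm (by positivity)
        · exact mul_le_mul_of_nonneg_right hcard (by positivity)
    _ = _ := by ring

end Pool.Agent.H52AD
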