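import Mathlib
import Pool.Agent.H52AD.Ert

/-! The total error of the sieve over all multipliers: the bound. -/

set_option autoImplicit false

namespace Pool.Agent.H52AD

open Finset
open Pool.Agent.Y882 (VV)
open Pool.Agent.Y822 (Ro ro ro_nonneg ro_le_one)

/-- the decomposition of one term -/
lemma term_split (y a n d : ℕ) (cA : Finset ℕ → ℝ) :
    ro y (a * n + 1) * ((if d ∣ a * n + 1 then 1 else 0) -
      (if a.Coprime d then 1 / (Nat.totient d : ℝ) else 0)) =
    ∑ T1 ∈ (Ps y).powerset, cA T1 * DD (∏ p ∈ T1, p) d (a * n) +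
    (ro y (a * n + 1) - VV (Ps y) cA (dv (a * n + 1))) * ((if d ∣ a * n + 1 then 1 else 0) -
      (if (a * n).Coprime d then 1 / (Nat.totient d : ℝ) else 0)) +
    ro y (a * n + 1) * ((if (a * n).Coprime d then 1 / (Nat.totient d : ℝ) else 0) -
      (if a.Coprime d then 1 / (Nat.totient d : ℝ) else 0)) := by
  have h1 : ∑ T1 ∈ (Ps y).powerset, cA T1 * DD (∏ p ∈ T1, p) d (a * n) =
      VV (Ps y) cA (dv (a * n + 1)) * ((if d ∣ a * n + 1 then 1 else 0) -
      (if (a * n).Coprime d then 1 / (Nat.totient d : ℝ) else 0)) := by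
    unfold VV DD
    rw [sum_mul]
    refine sum_congr rfl fun T hT => ?_
    rw [mem_powerset] at hT
    rw [prod_dv (fun p hp => (mem_Ps.1 (hT hp)).1), mul_assoc]
  rw [h1]
  ring

lemma abs_sub_ite (P Q : Prop) [Decidable P] [Decidable Q] (t : ℝ) (ht : 0 ≤ t) :
    |(if P then (1 : ℝ) else 0) - (if Q then t else 0)| ≤ (if P then 1 else 0) + t := by
  split_ifs
  · rw [abs_le]; constructor <;> linarith
  · rw [sub_zero, abs_one]; linarith
  · rw [zero_sub, abs_neg, abs_of_nonneg ht]; linarith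
  · rw [sub_zero, abs_zero]; linarith

/-- **the total error** -/
theorem err_total : ∃ C k0 : ℕ, 1 ≤ C ∧ ∀ (b J y M N R : ℕ) (P : Finset ℕ) (c : Finset ℕ → ℝ)
    (Wc ℓ : ℝ) (α f : ℕ → ℝ), C ≤ b → C ≤ y → y ≤ 2 ^ 2 ^ J → 1 ≤ M → 1 ≤ N → 1 ≤ R →
    (∀ p ∈ P, p.Prime ∧ y < p) → (∀ T, |c T| ≤ Wc) → (∀ T ⊆ P, c T ≠ 0 → ∏ p ∈ T, p ≤ R) →
    (∀ n, |α n| ≤ 1) → (∀ n, |f n| ≤ 1) → (Nat.log 2 M : ℝ) + 1 ≤ ℓ → (Nat.log 2 N : ℝ) + 1 ≤ ℓ →
    |∑ a ∈ Icc 1 M, α a * E2 y N P c f a| ≤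
      (J + 1) * Wc * ((1 + Real.log ((C * (2 ^ 2 ^ J) ^ (C * b) * R : ℕ) : ℝ)) ^ k0 *
        (((Nat.log 2 (C * (2 ^ 2 ^ J) ^ (C * b) * R) : ℝ) + 1) *
        (12 * ℓ * (Real.sqrt M * Real.sqrt N) *
        (2 * (Real.sqrt M * Real.sqrt N) / y + Real.sqrt (2 * M) + Real.sqrt (2 * N) +
          2 * ((C * (2 ^ 2 ^ J) ^ (C * b) * R : ℕ) : ℝ))))) +
      Wc * (4 * M * N * (1 / 2 : ℝ) ^ b * (1 + Real.log R) ^ k0 +
        (J + 2) * ((C * (2 ^ 2 ^ J) ^ (C * b) : ℕ) : ℝ) * (min M N : ℕ) * (R + (1 + Real.log R) ^ k0)) +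
      Wc * (M * (N / y) * (Nat.log 2 R) * (1 + Real.log R) ^ k0) := by
  classical
  obtain ⟨C, hC1, H⟩ := apx
  obtain ⟨k1, hbil⟩ := bilin
  obtain ⟨k2, hk2⟩ := Pool.Agent.H398R2.BV.sum_pow_omega_div_totient 1 le_rfl
  refine ⟨C, max k1 (2 ^ k2), hC1, ?_⟩
  intro b J y M N R P c Wc ℓ α f hb hy hyJ hM hN hR1 hP hc hR hα hf hℓ1 hℓ2
  obtain ⟨cA, cD, h1, h2, h3, h4⟩ := H b J y hb hy hyJ
  obtain ⟨D1, hD1⟩ : ∃ D1 : ℕ, D1 = C * (2 ^ 2 ^ J) ^ (C * b) := ⟨_, rfl⟩
  rw [← hD1] at h2 ⊢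
  obtain ⟨k0, hk0⟩ : ∃ k0 : ℕ, k0 = max k1 (2 ^ k2) := ⟨_, rfl⟩
  rw [← hk0]
  have hWc : 0 ≤ Wc := (abs_nonneg _).trans (hc ∅)
  have hy1 : 1 ≤ y := hC1.trans hy
  have hD11 : 1 ≤ D1 := by
    rw [hD1]
    exact Nat.mul_pos hC1 (by positivity)
  have hPp : ∀ T ⊆ P, ∀ p ∈ T, p.Prime := fun T hT p hp => (hP p (hT hp)).1
  have hPd : ∀ T ⊆ P, ∀ p : ℕ, p.Prime → p ∣ ∏ p ∈ T, p → y < p := by
    intro T hT p hp hd
    rw [hp.prime.dvd_finsetProd_iff] at hd
    obtain ⟨q, hq, hd⟩ := hd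
    rw [(Nat.prime_dvd_prime_iff_eq hp (hPp T hT q hq)).1 hd]
    exact (hP q (hT hq)).2
  have hlogR : 0 ≤ Real.log R := Real.log_natCast_nonneg R
  have hS : ∑ T ∈ P.powerset.filter (fun T => c T ≠ 0), 1 / (Nat.totient (∏ p ∈ T, p) : ℝ) ≤
      (1 + Real.log R) ^ k0 := by
    have g1 := sum_sets_le P (fun p hp => (hP p hp).1) c R hR (fun d => 1 / (Nat.totient d : ℝ))
      (fun d => by positivity)
    have g2 := hk2 R
    simp only [one_pow] at g2
    refine g1.trans (g2.trans ?_)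
    exact pow_le_pow_right₀ (by linarith) (by rw [hk0]; exact le_max_right _ _)
  set S := (1 + Real.log R) ^ k0 with hSd
  have hS1 : 1 ≤ S := one_le_pow₀ (by linarith)
  -- decomposition
  set F := P.powerset.filter (fun T => c T ≠ 0) with hFd
  have hF : ∀ T ∈ F, T ⊆ P ∧ c T ≠ 0 := by
    intro T hT
    rw [hFd, mem_filter, mem_powerset] at hT
    exact hT
  set X1 : ℝ := ∑ T ∈ P.powerset, c T * ∑ T1 ∈ (Ps y).powerset, cA T1 *
    ∑ a ∈ Icc 1 M, ∑ n ∈ Icc 1 N, α a * f n * DD (∏ p ∈ T1, p) (∏ p ∈ T, p) (a * n) with hX1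
  set X2 : ℝ := ∑ T ∈ P.powerset, c T * ∑ a ∈ Icc 1 M, ∑ n ∈ Icc 1 N, α a * f n *
    ((ro y (a * n + 1) - VV (Ps y) cA (dv (a * n + 1))) * ((if (∏ p ∈ T, p) ∣ a * n + 1 then 1 else 0) -
      (if (a * n).Coprime (∏ p ∈ T, p) then 1 / (Nat.totient (∏ p ∈ T, p) : ℝ) else 0))) with hX2
  set X3 : ℝ := ∑ T ∈ P.powerset, c T * ∑ a ∈ Icc 1 M, ∑ n ∈ Icc 1 N, α a * f n *
    (ro y (a * n + 1) * ((if (a * n).Coprime (∏ p ∈ T, p) then 1 / (Nat.totient (∏ p ∈ T, p) : ℝ) else 0) -
      (if a.Coprime (∏ p ∈ T, p) then 1 / (Nat.totient (∏ p ∈ T, p) : ℝ) else 0))) with hX3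
  have hdec : ∑ a ∈ Icc 1 M, α a * E2 y N P c f a = X1 + X2 + X3 := by
    have e1 : ∑ a ∈ Icc 1 M, α a * E2 y N P c f a = ∑ T ∈ P.powerset, c T *
        ∑ a ∈ Icc 1 M, ∑ n ∈ Icc 1 N, α a * f n * (ro y (a * n + 1) *
        ((if (∏ p ∈ T, p) ∣ a * n + 1 then 1 else 0) -
        (if a.Coprime (∏ p ∈ T, p) then 1 / (Nat.totient (∏ p ∈ T, p) : ℝ) else 0))) := by
      unfold E2
      simp only [mul_sum]
      rw [sum_comm]
      refine sum_congr rfl fun T _ => sum_congr rfl fun a _ => sum_congr rfl fun n _ => ?_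
      ring
    rw [e1, hX1, hX2, hX3, ← sum_add_distrib, ← sum_add_distrib]
    refine sum_congr rfl fun T _ => ?_
    rw [← mul_add, ← mul_add]
    congr 1
    have e2 : ∑ T1 ∈ (Ps y).powerset, cA T1 *
        ∑ a ∈ Icc 1 M, ∑ n ∈ Icc 1 N, α a * f n * DD (∏ p ∈ T1, p) (∏ p ∈ T, p) (a * n) =
        ∑ a ∈ Icc 1 M, ∑ n ∈ Icc 1 N, α a * f n *
          ∑ T1 ∈ (Ps y).powerset, cA T1 * DD (∏ p ∈ T1, p) (∏ p ∈ T, p) (a * n) := by
      simp only [mul_sum]
      rw [sum_comm]
      refine sum_congr rfl fun a _ => ?_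
      rw [sum_comm]
      refine sum_congr rfl fun n _ => sum_congr rfl fun T1 _ => ?_
      ring
    rw [e2, ← sum_add_distrib, ← sum_add_distrib]
    refine sum_congr rfl fun a _ => ?_
    rw [← sum_add_distrib, ← sum_add_distrib]
    refine sum_congr rfl fun n _ => ?_
    rw [← mul_add, ← mul_add, ← term_split]
  -- first part
  have hb1 : |X1| ≤ (J + 1) * Wc * ((1 + Real.log ((D1 * R : ℕ) : ℝ)) ^ k0 *
        (((Nat.log 2 (D1 * R) : ℝ) + 1) * (12 * ℓ * (Real.sqrt M * Real.sqrt N) *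
        (2 * (Real.sqrt M * Real.sqrt N) / y + Real.sqrt (2 * M) + Real.sqrt (2 * N) +
          2 * ((D1 * R : ℕ) : ℝ))))) := by
    set I : Finset (Finset ℕ × Finset ℕ) :=
      ((Ps y).powerset ×ˢ P.powerset).filter (fun x => cA x.1 ≠ 0 ∧ c x.2 ≠ 0) with hI
    have hIm : ∀ x ∈ I, x.1 ⊆ Ps y ∧ x.2 ⊆ P ∧ cA x.1 ≠ 0 ∧ c x.2 ≠ 0 := by
      intro x hx
      rw [hI, mem_filter, mem_product, mem_powerset, mem_powerset] at hx
      exact ⟨hx.1.1, hx.1.2, hx.2.1, hx.2.2⟩
    have e1 : X1 = ∑ x ∈ I, (cA x.1 * c x.2) *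
        ∑ a ∈ Icc 1 M, ∑ n ∈ Icc 1 N, α a * f n * DD (∏ p ∈ x.1, p) (∏ p ∈ x.2, p) (a * n) := by
      rw [hI, sum_filter_of_ne, sum_product_right, hX1]
      · refine sum_congr rfl fun T _ => ?_
        rw [mul_sum]
        refine sum_congr rfl fun T1 _ => ?_
        ring
      · intro x _ hne
        constructor
        · intro h; rw [h] at hne; simp at hne
        · intro h; rw [h] at hne; simp at hne
    rw [e1]
    have hpr : ∀ x ∈ I, ∀ p ∈ x.1, p.Prime := fun x hx p hp => (mem_Ps.1 ((hIm x hx).1 hp)).1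
    have hpr2 : ∀ x ∈ I, ∀ p ∈ x.2, p.Prime := fun x hx p hp => hPp x.2 (hIm x hx).2.1 p hp
    have g1 := hbil M N (D1 * R) y α f I (fun x => ∏ p ∈ x.1, p) (fun x => ∏ p ∈ x.2, p)
      (fun x => cA x.1 * c x.2) ((J + 1) * Wc) ℓ hy1 hM hN hα hf hℓ1 hℓ2 (by positivity)
      (by
        intro x hx
        rw [abs_mul]
        exact mul_le_mul (h1 x.1).1 (hc x.2) (abs_nonneg _) (by positivity))
      (by
        intro x hx x' hx' h
        have p1 := hpr x hx
        have p2 := hpr2 x hx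
        have p3 := hpr x' hx'
        have p4 := hpr2 x' hx'
        have hdisj : ∀ z ∈ I, Disjoint z.1 z.2 := by
          intro z hz
          rw [disjoint_left]
          intro p hp hp2
          have := (mem_Ps.1 ((hIm z hz).1 hp)).2
          have := (hP p ((hIm z hz).2.1 hp2)).2
          omega
        have e2 : x.1 ∪ x.2 = x'.1 ∪ x'.2 := by
          apply prod_injOn
          · intro p hp
            rcases mem_union.1 hp with h | h
            · exact p1 p h
            · exact p2 p h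
          · intro p hp
            rcases mem_union.1 hp with h | h
            · exact p3 p h
            · exact p4 p h
          · rw [prod_union (hdisj x hx), prod_union (hdisj x' hx')]
            exact h
        have e3 : ∀ z ∈ I, z.1 = (z.1 ∪ z.2).filter (fun p => p ≤ y) := by
          intro z hz
          ext p
          rw [mem_filter, mem_union]
          constructor
          · intro hp
            exact ⟨Or.inl hp, (mem_Ps.1 ((hIm z hz).1 hp)).2⟩
          · rintro ⟨hp | hp, hle⟩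
            · exact hp
            · have := (hP p ((hIm z hz).2.1 hp)).2
              omega
        have e4 : ∀ z ∈ I, z.2 = (z.1 ∪ z.2).filter (fun p => y < p) := by
          intro z hz
          ext p
          rw [mem_filter, mem_union]
          constructor
          · intro hp
            exact ⟨Or.inr hp, (hP p ((hIm z hz).2.1 hp)).2⟩
          · rintro ⟨hp | hp, hle⟩
            · have := (mem_Ps.1 ((hIm z hz).1 hp)).2
              omega
            · exact hp
        apply Prod.ext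
        · rw [e3 x hx, e3 x' hx', e2]
        · rw [e4 x hx, e4 x' hx', e2])
      (by
        intro x hx
        refine Nat.Coprime.prod_left fun p hp => ?_
        rw [(hpr x hx p hp).coprime_iff_not_dvd]
        intro h
        have := hPd x.2 (hIm x hx).2.1 p (hpr x hx p hp) h
        have := (mem_Ps.1 ((hIm x hx).1 hp)).2
        omega)
      (fun x hx => ⟨prod_pos' (hpr x hx), prod_pos' (hpr2 x hx)⟩)
      (fun x hx => Nat.mul_le_mul (h2 x.1 (hIm x hx).1 (Or.inl (hIm x hx).2.2.1))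
        (hR x.2 (hIm x hx).2.1 (hIm x hx).2.2.2))
      (fun x hx => hPd x.2 (hIm x hx).2.1)
    refine g1.trans ?_
    apply mul_le_mul_of_nonneg_left _ (by positivity)
    have hℓ0 : 0 ≤ ℓ := by
      have : (0 : ℝ) ≤ (Nat.log 2 M : ℝ) := Nat.cast_nonneg _
      linarith
    apply mul_le_mul_of_nonneg_right _ (by positivity)
    have h5 : 0 ≤ Real.log ((D1 * R : ℕ) : ℝ) := Real.log_natCast_nonneg _
    exact pow_le_pow_right₀ (by linarith) (by rw [hk0]; exact le_max_left _ _)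
  -- the majorant is nonnegative
  have hmaj0 : ∀ m, 0 ≤ VV (Ps y) cD (dv m) := fun m => (abs_nonneg _).trans (h3 m)
  have hαf : ∀ a n, |α a * f n| ≤ 1 := by
    intro a n
    rw [abs_mul]
    calc |α a| * |f n| ≤ 1 * 1 := mul_le_mul (hα a) (hf n) (abs_nonneg _) zero_le_one
      _ = 1 := one_mul 1
  have hW2 : ∀ d : ℕ, 1 ≤ d → (∀ p : ℕ, p.Prime → p ∣ d → y < p) →
      ∑ a ∈ Icc 1 M, ∑ n ∈ Icc 1 N, VV (Ps y) cD (dv (a * n + 1)) * (if d ∣ a * n + 1 then 1 else 0) ≤
      M * N / d * (2 * (1 / 2 : ℝ) ^ b) + (J + 2) * D1 * (min M N : ℕ) := fun d hd hr =>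
    maj_all y M N d D1 b J cD hd hr (fun T => (h1 T).2) (fun T hT hne => h2 T hT (Or.inr hne)) h4
  obtain ⟨Z, hZ⟩ : ∃ Z : ℝ, Z = (J + 2) * D1 * (min M N : ℕ) := ⟨_, rfl⟩
  have hZ0 : 0 ≤ Z := by rw [hZ]; positivity
  have hb2 : |X2| ≤ Wc * (4 * M * N * (1 / 2 : ℝ) ^ b * S + Z * (R + S)) := by
    have e1 : X2 = ∑ T ∈ F, c T * ∑ a ∈ Icc 1 M, ∑ n ∈ Icc 1 N, α a * f n *
      ((ro y (a * n + 1) - VV (Ps y) cA (dv (a * n + 1))) * ((if (∏ p ∈ T, p) ∣ a * n + 1 then 1 else 0) -
      (if (a * n).Coprime (∏ p ∈ T, p) then 1 / (Nat.totient (∏ p ∈ T, p) : ℝ) else 0))) := by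
      rw [hX2, hFd, sum_filter_of_ne]
      intro T _ hne h
      rw [h, zero_mul] at hne
      exact hne rfl
    rw [e1]
    refine (abs_sum_le_sum_abs _ _).trans ?_
    have e2 : ∀ T ∈ F, |c T * ∑ a ∈ Icc 1 M, ∑ n ∈ Icc 1 N, α a * f n *
      ((ro y (a * n + 1) - VV (Ps y) cA (dv (a * n + 1))) * ((if (∏ p ∈ T, p) ∣ a * n + 1 then 1 else 0) -
      (if (a * n).Coprime (∏ p ∈ T, p) then 1 / (Nat.totient (∏ p ∈ T, p) : ℝ) else 0)))| ≤
      Wc * ((M * N * (4 * (1 / 2 : ℝ) ^ b)) * (1 / (Nat.totient (∏ p ∈ T, p) : ℝ)) +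
        (Z + Z * (1 / (Nat.totient (∏ p ∈ T, p) : ℝ)))) := by
      intro T hT
      obtain ⟨hTP, _⟩ := hF T hT
      set d := ∏ p ∈ T, p with hd
      have hd1 : 1 ≤ d := prod_pos' (hPp T hTP)
      have hd0 : (0 : ℝ) < d := by exact_mod_cast hd1
      have hφ0 : (0 : ℝ) < Nat.totient d := by exact_mod_cast Nat.totient_pos.2 hd1
      have hφ1 : (0 : ℝ) ≤ 1 / (Nat.totient d : ℝ) := by positivity
      rw [abs_mul]
      apply mul_le_mul (hc T) _ (abs_nonneg _) hWc
      refine (abs_sum_le_sum_abs _ _).trans ?_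
      have e3 : ∀ a ∈ Icc 1 M, |∑ n ∈ Icc 1 N, α a * f n *
          ((ro y (a * n + 1) - VV (Ps y) cA (dv (a * n + 1))) * ((if d ∣ a * n + 1 then 1 else 0) -
          (if (a * n).Coprime d then 1 / (Nat.totient d : ℝ) else 0)))| ≤
          ∑ n ∈ Icc 1 N, (VV (Ps y) cD (dv (a * n + 1)) * (if d ∣ a * n + 1 then 1 else 0) +
            VV (Ps y) cD (dv (a * n + 1)) * (if 1 ∣ a * n + 1 then 1 else 0) *
              (1 / (Nat.totient d : ℝ))) := by
        intro a _
        refine (abs_sum_le_sum_abs _ _).trans (sum_le_sum fun n _ => ?_)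
        rw [abs_mul, abs_mul (ro y (a * n + 1) - VV (Ps y) cA (dv (a * n + 1)))]
        have q1 := h3 (a * n + 1)
        have q2 := abs_sub_ite (d ∣ a * n + 1) ((a * n).Coprime d) (1 / (Nat.totient d : ℝ)) hφ1
        calc _ ≤ 1 * (VV (Ps y) cD (dv (a * n + 1)) * ((if d ∣ a * n + 1 then 1 else 0) +
              1 / (Nat.totient d : ℝ))) :=
              mul_le_mul (hαf a n) (mul_le_mul q1 q2 (abs_nonneg _) (hmaj0 _))
                (mul_nonneg (abs_nonneg _) (abs_nonneg _)) zero_le_one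
          _ = _ := by rw [if_pos (one_dvd _)]; ring
      refine (sum_le_sum e3).trans ?_
      have e4 : ∑ a ∈ Icc 1 M, ∑ n ∈ Icc 1 N, (VV (Ps y) cD (dv (a * n + 1)) * (if d ∣ a * n + 1 then 1 else 0) +
            VV (Ps y) cD (dv (a * n + 1)) * (if 1 ∣ a * n + 1 then 1 else 0) *
              (1 / (Nat.totient d : ℝ))) =
          ∑ a ∈ Icc 1 M, ∑ n ∈ Icc 1 N, VV (Ps y) cD (dv (a * n + 1)) * (if d ∣ a * n + 1 then 1 else 0) +
          (∑ a ∈ Icc 1 M, ∑ n ∈ Icc 1 N, VV (Ps y) cD (dv (a * n + 1)) * (if 1 ∣ a * n + 1 then 1 else 0)) *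
              (1 / (Nat.totient d : ℝ)) := by
        rw [sum_mul, ← sum_add_distrib]
        refine sum_congr rfl fun a _ => ?_
        rw [sum_mul, ← sum_add_distrib]
      rw [e4]
      have q3 := hW2 d hd1 (hPd T hTP)
      have q4 := hW2 1 le_rfl (fun p hp h => absurd (Nat.dvd_one.1 h) hp.one_lt.ne')
      have q5 := mul_le_mul_of_nonneg_right q4 hφ1
      have q6 : (M : ℝ) * N / d * (2 * (1 / 2 : ℝ) ^ b) ≤ M * N * (2 * (1 / 2 : ℝ) ^ b) *
          (1 / (Nat.totient d : ℝ)) := by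
        have q7 : (1 : ℝ) / d ≤ 1 / (Nat.totient d : ℝ) :=
          one_div_le_one_div_of_le hφ0 (by exact_mod_cast Nat.totient_le d)
        calc (M : ℝ) * N / d * (2 * (1 / 2 : ℝ) ^ b) = M * N * (2 * (1 / 2 : ℝ) ^ b) * (1 / d) := by ring
          _ ≤ _ := mul_le_mul_of_nonneg_left q7 (by positivity)
      rw [← hZ] at q3 q5
      have q8 : ((1 : ℕ) : ℝ) = 1 := by norm_num
      rw [q8, div_one] at q5
      have q9 : (M : ℝ) * N * (4 * (1 / 2 : ℝ) ^ b) * (1 / (Nat.totient d : ℝ)) =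
          M * N * (2 * (1 / 2 : ℝ) ^ b) * (1 / (Nat.totient d : ℝ)) +
          M * N * (2 * (1 / 2 : ℝ) ^ b) * (1 / (Nat.totient d : ℝ)) := by ring
      rw [add_mul] at q5
      linarith
    refine (sum_le_sum e2).trans ?_
    rw [← mul_sum]
    apply mul_le_mul_of_nonneg_left _ hWc
    rw [sum_add_distrib, sum_add_distrib, ← mul_sum, ← mul_sum]
    have e5 : ∑ _T ∈ F, Z ≤ Z * R := by
      have e6 := sum_sets_le P (fun p hp => (hP p hp).1) c R hR (fun _ => Z) (fun _ => hZ0)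
      refine e6.trans (le_of_eq ?_)
      rw [sum_const, Nat.card_Icc, nsmul_eq_mul]
      simp
      ring
    have e7 : (M : ℝ) * N * (4 * (1 / 2 : ℝ) ^ b) * ∑ T ∈ F, (1 / (Nat.totient (∏ p ∈ T, p) : ℝ)) ≤
        M * N * (4 * (1 / 2 : ℝ) ^ b) * S := mul_le_mul_of_nonneg_left hS (by positivity)
    have e8 : Z * ∑ T ∈ F, (1 / (Nat.totient (∏ p ∈ T, p) : ℝ)) ≤ Z * S :=
      mul_le_mul_of_nonneg_left hS hZ0
    have e9 : (4 : ℝ) * M * N * (1 / 2) ^ b * S = M * N * (4 * (1 / 2 : ℝ) ^ b) * S := by ring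
    rw [e9]
    linarith
  have hb3 : |X3| ≤ Wc * (M * (N / y) * (Nat.log 2 R) * S) := by
    have e1 : X3 = ∑ T ∈ F, c T * ∑ a ∈ Icc 1 M, ∑ n ∈ Icc 1 N, α a * f n *
      (ro y (a * n + 1) * ((if (a * n).Coprime (∏ p ∈ T, p) then 1 / (Nat.totient (∏ p ∈ T, p) : ℝ) else 0) -
      (if a.Coprime (∏ p ∈ T, p) then 1 / (Nat.totient (∏ p ∈ T, p) : ℝ) else 0))) := by
      rw [hX3, hFd, sum_filter_of_ne]
      intro T _ hne h
      rw [h, zero_mul] at hne
      exact hne rfl
    rw [e1]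
    refine (abs_sum_le_sum_abs _ _).trans ?_
    have e2 : ∀ T ∈ F, |c T * ∑ a ∈ Icc 1 M, ∑ n ∈ Icc 1 N, α a * f n *
      (ro y (a * n + 1) * ((if (a * n).Coprime (∏ p ∈ T, p) then 1 / (Nat.totient (∏ p ∈ T, p) : ℝ) else 0) -
      (if a.Coprime (∏ p ∈ T, p) then 1 / (Nat.totient (∏ p ∈ T, p) : ℝ) else 0)))| ≤
      Wc * ((M * (N / y) * (Nat.log 2 R)) * (1 / (Nat.totient (∏ p ∈ T, p) : ℝ))) := by
      intro T hT
      obtain ⟨hTP, hcT⟩ := hF T hT
      set d := ∏ p ∈ T, p with hd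
      have hd1 : 1 ≤ d := prod_pos' (hPp T hTP)
      have hφ1 : (0 : ℝ) ≤ 1 / (Nat.totient d : ℝ) := by positivity
      have hy0 : (0 : ℝ) < y := by exact_mod_cast hy1
      have hcardT : (T.card : ℝ) ≤ Nat.log 2 R := by
        have g1 : 2 ^ T.card ≤ R := by
          calc 2 ^ T.card = ∏ _p ∈ T, 2 := by rw [prod_const]
            _ ≤ ∏ p ∈ T, p := prod_le_prod' fun p hp => (hPp T hTP p hp).two_le
            _ ≤ R := hR T hTP hcT
        exact_mod_cast Nat.le_log_of_pow_le (by norm_num) g1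
      rw [abs_mul]
      apply mul_le_mul (hc T) _ (abs_nonneg _) hWc
      refine (abs_sum_le_sum_abs _ _).trans ?_
      have e3 : ∀ a ∈ Icc 1 M, |∑ n ∈ Icc 1 N, α a * f n *
          (ro y (a * n + 1) * ((if (a * n).Coprime d then 1 / (Nat.totient d : ℝ) else 0) -
          (if a.Coprime d then 1 / (Nat.totient d : ℝ) else 0)))| ≤
          (N / y) * (Nat.log 2 R) * (1 / (Nat.totient d : ℝ)) := by
        intro a _
        refine (abs_sum_le_sum_abs _ _).trans ?_
        have e4 : ∀ n ∈ Icc 1 N, |α a * f n *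
            (ro y (a * n + 1) * ((if (a * n).Coprime d then 1 / (Nat.totient d : ℝ) else 0) -
            (if a.Coprime d then 1 / (Nat.totient d : ℝ) else 0)))| ≤
            ∑ p ∈ T, (if p ∣ n then (1 : ℝ) else 0) * (1 / (Nat.totient d : ℝ)) := by
          intro n _
          rw [abs_mul, abs_mul (ro y (a * n + 1))]
          have q1 : |(if (a * n).Coprime d then 1 / (Nat.totient d : ℝ) else 0) -
            (if a.Coprime d then 1 / (Nat.totient d : ℝ) else 0)| ≤
            ∑ p ∈ T, (if p ∣ n then (1 : ℝ) else 0) * (1 / (Nat.totient d : ℝ)) := by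
            have q0 : ∀ p ∈ T, 0 ≤ (if p ∣ n then (1 : ℝ) else 0) * (1 / (Nat.totient d : ℝ)) := by
              intro p _
              split_ifs
              · rw [one_mul]; exact hφ1
              · rw [zero_mul]
            by_cases hn : n.Coprime d
            · have q2 : (a * n).Coprime d ↔ a.Coprime d := by
                constructor
                · intro h; exact Nat.Coprime.coprime_mul_right h
                · intro h; exact Nat.Coprime.mul_left h hn
              by_cases h5 : a.Coprime d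
              · rw [if_pos h5, if_pos (q2.2 h5), sub_self, abs_zero]
                exact sum_nonneg q0
              · rw [if_neg h5, if_neg (fun h => h5 (q2.1 h)), sub_self, abs_zero]
                exact sum_nonneg q0
            · have q3 : ∃ p ∈ T, p ∣ n := by
                by_contra hcon
                push Not at hcon
                apply hn
                rw [hd]
                refine Nat.Coprime.prod_right fun p hp => ?_
                rw [Nat.coprime_comm, (hPp T hTP p hp).coprime_iff_not_dvd]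
                exact hcon p hp
              obtain ⟨p, hp, hpn⟩ := q3
              have q4 : 1 / (Nat.totient d : ℝ) ≤
                  ∑ p ∈ T, (if p ∣ n then (1 : ℝ) else 0) * (1 / (Nat.totient d : ℝ)) := by
                have := single_le_sum q0 hp
                rw [if_pos hpn, one_mul] at this
                exact this
              refine le_trans ?_ q4
              split_ifs
              · rw [sub_self, abs_zero]; exact hφ1
              · rw [sub_zero, abs_of_nonneg hφ1]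
              · rw [zero_sub, abs_neg, abs_of_nonneg hφ1]
              · rw [sub_self, abs_zero]; exact hφ1
          have q5 : |ro y (a * n + 1)| ≤ 1 := by
            rw [abs_of_nonneg (ro_nonneg _ _)]
            exact ro_le_one _ _
          calc _ ≤ 1 * (1 * |(if (a * n).Coprime d then 1 / (Nat.totient d : ℝ) else 0) -
              (if a.Coprime d then 1 / (Nat.totient d : ℝ) else 0)|) :=
              mul_le_mul (hαf a n) (mul_le_mul_of_nonneg_right q5 (abs_nonneg _))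
                (mul_nonneg (abs_nonneg _) (abs_nonneg _)) zero_le_one
            _ = |(if (a * n).Coprime d then 1 / (Nat.totient d : ℝ) else 0) -
              (if a.Coprime d then 1 / (Nat.totient d : ℝ) else 0)| := by ring
            _ ≤ _ := q1
        refine (sum_le_sum e4).trans ?_
        rw [sum_comm]
        have e5 : ∀ p ∈ T, ∑ n ∈ Icc 1 N, (if p ∣ n then (1 : ℝ) else 0) * (1 / (Nat.totient d : ℝ)) ≤
            (N / y) * (1 / (Nat.totient d : ℝ)) := by
          intro p hp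
          rw [← sum_mul]
          apply mul_le_mul_of_nonneg_right _ hφ1
          have hp1 : y < p := (hP p (hTP hp)).2
          have q6 : (Icc 1 N).filter (fun n => p ∣ n) = (Ioc 0 N).filter (fun n => p ∣ n) := by
            ext n
            rw [mem_filter, mem_filter, mem_Icc, mem_Ioc]
            refine and_congr_left fun _ => ?_
            omega
          rw [← sum_filter, sum_const, nsmul_eq_mul, mul_one, q6, Nat.Ioc_filter_dvd_card_eq_div]
          have q7 : ((N / p : ℕ) : ℝ) ≤ N / p := Nat.cast_div_le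
          refine q7.trans ?_
          exact div_le_div_of_nonneg_left (Nat.cast_nonneg _) hy0 (by exact_mod_cast hp1.le)
        refine (sum_le_sum e5).trans ?_
        rw [sum_const, nsmul_eq_mul]
        calc (T.card : ℝ) * ((N / y) * (1 / (Nat.totient d : ℝ))) ≤
            (Nat.log 2 R : ℝ) * ((N / y) * (1 / (Nat.totient d : ℝ))) :=
              mul_le_mul_of_nonneg_right hcardT (by positivity)
          _ = _ := by ring
      refine (sum_le_sum e3).trans (le_of_eq ?_)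
      rw [sum_const, Nat.card_Icc, nsmul_eq_mul]
      simp
      ring
    refine (sum_le_sum e2).trans ?_
    rw [← mul_sum, ← mul_sum]
    apply mul_le_mul_of_nonneg_left _ hWc
    exact mul_le_mul_of_nonneg_left hS (by positivity)
  rw [hdec]
  calc |X1 + X2 + X3| ≤ |X1 + X2| + |X3| := abs_add_le _ _
    _ ≤ |X1| + |X2| + |X3| := by linarith [abs_add_le X1 X2]
    _ ≤ _ := by
        refine add_le_add (add_le_add hb1 ?_) hb3
        refine hb2.trans (le_of_eq ?_)
        rw [hZ]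

end Pool.Agent.H52AD
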