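import Mathlib
import Pool.Agent.H52AD.Tot
import Pool.Agent.H52AD.Sqq
import Pool.Agent.Y822.Par
import Pool.Agent.W41.Sieve

/-! Choice of the parameters: for few multipliers the error of the sieve is large. -/

set_option autoImplicit false

namespace Pool.Agent.H52AD

open Finset Filter
open Pool.Agent.Y822 (yN yN_facts ev_logN ev_pow_exp ev_log_pow)
open Pool.Agent.W41 (JJ JJ_lt JJ_le JJ_pow)

lemma natlog_le {n : ℕ} (hn : 1 ≤ n) : (Nat.log 2 n : ℝ) ≤ 2 * Real.log n := by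
  have h1 : 2 ^ Nat.log 2 n ≤ n := Nat.pow_log_le_self 2 (by omega)
  have h2 : (Nat.log 2 n : ℝ) * Real.log 2 ≤ Real.log n := by
    rw [← Real.log_pow]
    apply Real.log_le_log (by positivity)
    exact_mod_cast h1
  have g4 : (0.5 : ℝ) ≤ Real.log 2 := by linarith [Real.log_two_gt_d9]
  have g5 : (Nat.log 2 n : ℝ) * 0.5 ≤ Nat.log 2 n * Real.log 2 :=
    mul_le_mul_of_nonneg_left g4 (Nat.cast_nonneg _)
  linarith

/-- the parameters of the small sieve -/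
lemma par1 (C0 B : ℕ) (hC0 : 1 ≤ C0) (δ : ℝ) (hδ : 0 < δ) (hδ1 : δ ≤ 1) : ∃ κ : ℝ, 0 < κ ∧ κ ≤ 1 ∧
    ∀ᶠ N : ℕ in atTop, ∃ b : ℕ, C0 ≤ b ∧ (1 / 2 : ℝ) ^ b * Real.log N ^ B ≤ 1 ∧
      ((C0 * (2 ^ 2 ^ JJ (yN κ N)) ^ (C0 * b) : ℕ) : ℝ) ≤ (N : ℝ) ^ δ ∧
      (JJ (yN κ N) : ℝ) + 2 ≤ 4 * Real.log N := by
  obtain ⟨β, hβ⟩ : ∃ β : ℝ, β = 2 * B + 1 := ⟨_, rfl⟩
  have hC0r : (1 : ℝ) ≤ C0 := by exact_mod_cast hC0
  have hB0 : (0 : ℝ) ≤ B := Nat.cast_nonneg _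
  have hβ1 : 1 ≤ β := by rw [hβ]; linarith
  obtain ⟨κ, hκd⟩ : ∃ κ : ℝ, κ = δ / (8 * (C0 * β)) := ⟨_, rfl⟩
  have hCβ : 1 ≤ C0 * β := by nlinarith
  have hκ : 0 < κ := by rw [hκd]; positivity
  have hκ1 : κ ≤ 1 := by
    rw [hκd, div_le_one (by positivity)]
    linarith
  refine ⟨κ, hκ, hκ1, ?_⟩
  have e1 := ev_logN (Real.tendsto_log_atTop.eventually (eventually_ge_atTop ((C0 : ℝ) + 1)))
  have e2 := ev_logN (eventually_ge_atTop (1 : ℝ))
  have e3 := ev_logN (Real.tendsto_exp_atTop.eventually (eventually_ge_atTop (1 : ℝ)))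
  have e4 := ev_logN (ev_pow_exp 0 (δ / 2) C0 (by positivity))
  filter_upwards [yN_facts κ hκ hκ1 3 1, e1, e2, e4, eventually_ge_atTop 3] with N hyf h1 h2 h4 hN
  obtain ⟨y1, y2, y3, y4, y5⟩ := hyf
  set y := yN κ N with hy
  set L := Real.log N with hL
  set l := Real.log L with hl
  have hN0 : (0 : ℝ) < N := by positivity
  have hL0 : 0 < L := by linarith
  have hl1 : 1 ≤ l := by linarith
  have hl0 : 0 < l := by linarith
  have hlL : l ≤ L := by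
    have := Real.log_le_sub_one_of_pos hL0
    linarith
  have hyr : (3 : ℝ) ≤ y := by exact_mod_cast y5
  have hlog2 : (0.5 : ℝ) ≤ Real.log 2 := by linarith [Real.log_two_gt_d9]
  refine ⟨⌈β * l⌉₊, ?_, ?_, ?_, ?_⟩
  · have h5 : (C0 : ℝ) ≤ β * l := by nlinarith
    exact_mod_cast h5.trans (Nat.le_ceil _)
  · have h5 : β * l ≤ (⌈β * l⌉₊ : ℝ) := Nat.le_ceil _
    have h6 : L ^ B ≤ 2 ^ ⌈β * l⌉₊ := by
      have h7 : L ^ B = Real.exp (B * l) := by
        rw [Real.exp_nat_mul, hl, Real.exp_log hL0]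
      have h8 : (2 : ℝ) ^ ⌈β * l⌉₊ = Real.exp (⌈β * l⌉₊ * Real.log 2) := by
        rw [Real.exp_nat_mul, Real.exp_log (by norm_num)]
      rw [h7, h8]
      apply Real.exp_le_exp.2
      have h9 : (B : ℝ) * l ≤ β * l * 0.5 := by
        rw [hβ]
        nlinarith
      have h10 : β * l * 0.5 ≤ ⌈β * l⌉₊ * Real.log 2 :=
        mul_le_mul h5 hlog2 (by norm_num) (Nat.cast_nonneg _)
      linarith
    rw [one_div, inv_pow, inv_mul_le_iff₀ (by positivity), mul_one]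
    exact h6
  · have hb : (⌈β * l⌉₊ : ℝ) ≤ 2 * (β * l) := by
      have h5 := (Nat.ceil_lt_add_one (show 0 ≤ β * l by positivity)).le
      have h6 : 1 ≤ β * l := by nlinarith
      linarith
    have hJ : (((2 ^ 2 ^ JJ y : ℕ)) : ℝ) ≤ (y : ℝ) ^ 2 := by
      exact_mod_cast JJ_le y (by omega)
    have h6 : ((C0 * (2 ^ 2 ^ JJ y) ^ (C0 * ⌈β * l⌉₊) : ℕ) : ℝ) ≤
        C0 * ((y : ℝ) ^ 2) ^ (C0 * ⌈β * l⌉₊) := by
      push_cast
      push_cast at hJ
      apply mul_le_mul_of_nonneg_left _ (Nat.cast_nonneg _)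
      exact pow_le_pow_left₀ (by positivity) hJ _
    refine h6.trans ?_
    have h7 : ((y : ℝ) ^ 2) ^ (C0 * ⌈β * l⌉₊) ≤ Real.exp (δ / 2 * L) := by
      rw [← pow_mul]
      calc (y : ℝ) ^ (2 * (C0 * ⌈β * l⌉₊)) ≤ Real.exp (κ * L / l) ^ (2 * (C0 * ⌈β * l⌉₊)) :=
            pow_le_pow_left₀ (Nat.cast_nonneg _) y1 _
        _ = Real.exp (((2 * (C0 * ⌈β * l⌉₊) : ℕ) : ℝ) * (κ * L / l)) := by
            rw [← Real.exp_nat_mul]
        _ ≤ Real.exp (δ / 2 * L) := by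
            apply Real.exp_le_exp.2
            push_cast
            calc 2 * ((C0 : ℝ) * ⌈β * l⌉₊) * (κ * L / l) ≤ 2 * (C0 * (2 * (β * l))) * (κ * L / l) := by
                  gcongr
              _ = 4 * (C0 * β) * κ * L := by field_simp; ring
              _ = δ / 2 * L := by rw [hκd]; field_simp; ring
    have h8 : (C0 : ℝ) ≤ Real.exp (δ / 2 * L) := by
      rw [pow_zero, mul_one] at h4
      exact h4
    calc (C0 : ℝ) * ((y : ℝ) ^ 2) ^ (C0 * ⌈β * l⌉₊) ≤ Real.exp (δ / 2 * L) * Real.exp (δ / 2 * L) :=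
          mul_le_mul h8 h7 (by positivity) (Real.exp_pos _).le
      _ = (N : ℝ) ^ δ := by
          rw [← Real.exp_add, Real.rpow_def_of_pos hN0, ← hL]
          congr 1
          ring
  · have h5 : 2 ^ JJ y ≤ 2 * Nat.log 2 y := JJ_pow y (by omega)
    have h6 : JJ y < 2 ^ JJ y := Nat.lt_two_pow_self
    have h7 : (JJ y : ℝ) + 1 ≤ 2 * Nat.log 2 y := by exact_mod_cast (by omega : JJ y + 1 ≤ 2 * Nat.log 2 y)
    have h8 : (Nat.log 2 y : ℝ) * Real.log 2 ≤ Real.log y := by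
      rw [← Real.log_pow]
      apply Real.log_le_log (by positivity)
      exact_mod_cast Nat.pow_log_le_self 2 (by omega)
    have h9 : Real.log y ≤ L := by
      calc Real.log y ≤ Real.log (Real.exp (κ * L / l)) := Real.log_le_log (by linarith) y1
        _ = κ * L / l := Real.log_exp _
        _ ≤ L := by
            rw [div_le_iff₀ hl0]
            nlinarith
    have h10 : (0.69 : ℝ) ≤ Real.log 2 := by linarith [Real.log_two_gt_d9]
    have h11 : (Nat.log 2 y : ℝ) * 0.69 ≤ Nat.log 2 y * Real.log 2 :=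
      mul_le_mul_of_nonneg_left h10 (Nat.cast_nonneg _)
    linarith

end Pool.Agent.H52AD
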