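import Mathlib
import Pool.Agent.H52AD.Par

/-! For few multipliers the error of the sieve is large. -/

set_option autoImplicit false

namespace Pool.Agent.H52AD

open Finset Filter
open Pool.Agent.Y822 (yN yN_facts ev_logN ev_pow_exp ev_log_pow)
open Pool.Agent.W41 (JJ JJ_lt JJ_le JJ_pow)

/-- the bound of the total error, abstractly -/
lemma tot_num {m n g y nd nr Λ Wc J1 J2 ℓ lq lr l2r mn h sm sn T1 T2 T3 T4 : ℝ} {k : ℕ} {D R : ℝ}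
    (hm : 0 < m) (hn : 0 < n) (hg0 : 0 < g) (hg : g * g = m * n) (hy : 0 < y) (hnd : 1 ≤ nd) (hnr : 1 ≤ nr)
    (hΛ : 1 ≤ Λ) (hWc0 : 0 ≤ Wc) (hWc : Wc ≤ Λ) (hJ10 : 0 ≤ J1) (hJ1 : J1 ≤ Λ) (hJ20 : 0 ≤ J2) (hJ2 : J2 ≤ Λ)
    (hℓ0 : 0 ≤ ℓ) (hℓ : ℓ ≤ Λ) (hlq0 : 0 ≤ lq) (hlq : lq ≤ Λ) (hlr0 : 0 ≤ lr) (hlr : lr ≤ Λ)
    (hl2r0 : 0 ≤ l2r) (hl2r : l2r ≤ Λ) (hmn0 : 0 ≤ mn) (hmn : mn ≤ g) (hh0 : 0 ≤ h)
    (hD0 : 0 ≤ D) (hD : D ≤ nd) (hR0 : 0 ≤ R) (hR : R ≤ nr) (hDR : g * (nd * nr) ≤ 2 * (m * n) / nd)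
    (hsm0 : 0 ≤ sm) (hsn0 : 0 ≤ sn) (hsm : g * sm ≤ 2 * (m * n) / nd) (hsn : g * sn ≤ 2 * (m * n) / nd)
    (hT1 : T1 ≤ J1 * Wc * (lr ^ k * (lq * (12 * ℓ * g * (2 * g / y + sm + sn + 2 * (D * R))))))
    (hT2 : T2 ≤ Wc * (4 * m * n * h * lr ^ k + J2 * D * mn * (R + lr ^ k)))
    (hT3 : T3 ≤ Wc * (m * (n / y) * l2r * lr ^ k))
    (hT4 : T4 ≤ 2 * (m * n) * (Λ / nd) + 2 * nr * mn) :
    T1 + T2 + T3 + T4 ≤ m * n * (Λ ^ (k + 4) * (25 / y + 110 / nd + 4 * h)) := by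
  have hmn' : 0 < m * n := by positivity
  have hnd0 : 0 < nd := by linarith
  have hnr0 : 0 < nr := by linarith
  have hΛ0 : 0 < Λ := by linarith
  have hlrk : lr ^ k ≤ Λ ^ k := pow_le_pow_left₀ hlr0 hlr k
  have hlrk0 : 0 ≤ lr ^ k := by positivity
  have hΛk : 1 ≤ Λ ^ k := one_le_pow₀ hΛ
  have hDRle : D * R ≤ nd * nr := mul_le_mul hD hR hR0 hnd0.le
  -- first term
  have a1 : g * (2 * g / y + sm + sn + 2 * (D * R)) ≤ m * n * (2 / y + 8 / nd) := by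
    have b1 : g * (2 * g / y) = m * n * (2 / y) := by
      rw [← hg]; field_simp
    have b2 : g * (2 * (D * R)) ≤ 2 * (2 * (m * n) / nd) := by
      calc g * (2 * (D * R)) ≤ g * (2 * (nd * nr)) := by gcongr
        _ = 2 * (g * (nd * nr)) := by ring
        _ ≤ _ := by gcongr
    have b3 : m * n * (2 / y + 8 / nd) = m * n * (2 / y) + (2 * (m * n) / nd + 2 * (m * n) / nd +
        2 * (2 * (m * n) / nd)) := by field_simp; ring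
    rw [b3]
    have b4 : g * (2 * g / y + sm + sn + 2 * (D * R)) =
        g * (2 * g / y) + (g * sm + g * sn + g * (2 * (D * R))) := by ring
    rw [b4, b1]
    linarith
  have hE0 : 0 ≤ m * n * (2 / y + 8 / nd) := by positivity
  have c1 : T1 ≤ Λ ^ (k + 4) * (12 * (m * n * (2 / y + 8 / nd))) := by
    refine hT1.trans ?_
    calc J1 * Wc * (lr ^ k * (lq * (12 * ℓ * g * (2 * g / y + sm + sn + 2 * (D * R))))) =
        J1 * Wc * (lr ^ k * (lq * (ℓ * (12 * (g * (2 * g / y + sm + sn + 2 * (D * R))))))) := by ring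
      _ ≤ Λ * Λ * (Λ ^ k * (Λ * (Λ * (12 * (m * n * (2 / y + 8 / nd)))))) := by gcongr
      _ = _ := by ring
  have d1 : mn * (nd * nr) ≤ 2 * (m * n) / nd := by
    refine le_trans ?_ hDR
    gcongr
  have c2 : T2 ≤ Λ ^ (k + 4) * (4 * (m * n * h) + 4 * (m * n / nd)) := by
    refine hT2.trans ?_
    have b1 : J2 * D * mn * (R + lr ^ k) ≤ Λ ^ (k + 3) * (4 * (m * n / nd)) := by
      have b2 : D * mn * R ≤ 2 * (m * n) / nd := by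
        calc D * mn * R ≤ nd * mn * nr := by gcongr
          _ = mn * (nd * nr) := by ring
          _ ≤ _ := d1
      have b3 : D * mn ≤ 2 * (m * n) / nd := by
        calc D * mn ≤ nd * mn := by gcongr
          _ = mn * (nd * 1) := by ring
          _ ≤ mn * (nd * nr) := by gcongr
          _ ≤ _ := d1
      have b4 : D * mn * (R + lr ^ k) ≤ Λ ^ k * (4 * (m * n / nd)) := by
        have b5 : D * mn * lr ^ k ≤ 2 * (m * n) / nd * Λ ^ k := by gcongr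
        have b6 : 2 * (m * n) / nd ≤ 2 * (m * n) / nd * Λ ^ k := le_mul_of_one_le_right (by positivity) hΛk
        calc D * mn * (R + lr ^ k) = D * mn * R + D * mn * lr ^ k := by ring
          _ ≤ 2 * (m * n) / nd * Λ ^ k + 2 * (m * n) / nd * Λ ^ k := by linarith
          _ = _ := by ring
      calc J2 * D * mn * (R + lr ^ k) = J2 * (D * mn * (R + lr ^ k)) := by ring
        _ ≤ Λ * (Λ ^ k * (4 * (m * n / nd))) := by gcongr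
        _ = Λ ^ (k + 1) * (4 * (m * n / nd)) := by ring
        _ ≤ Λ ^ (k + 3) * (4 * (m * n / nd)) := by
            apply mul_le_mul_of_nonneg_right _ (by positivity)
            exact pow_le_pow_right₀ hΛ (by omega)
    have b2 : 4 * m * n * h * lr ^ k ≤ Λ ^ (k + 3) * (4 * (m * n * h)) := by
      calc 4 * m * n * h * lr ^ k ≤ 4 * m * n * h * Λ ^ (k + 3) := by
            apply mul_le_mul_of_nonneg_left _ (by positivity)
            exact hlrk.trans (pow_le_pow_right₀ hΛ (by omega))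
        _ = _ := by ring
    calc Wc * (4 * m * n * h * lr ^ k + J2 * D * mn * (R + lr ^ k)) ≤
        Λ * (Λ ^ (k + 3) * (4 * (m * n * h)) + Λ ^ (k + 3) * (4 * (m * n / nd))) := by
          apply mul_le_mul hWc (by linarith) (by positivity) hΛ0.le
      _ = _ := by ring
  have c3 : T3 ≤ Λ ^ (k + 4) * (m * n / y) := by
    refine hT3.trans ?_
    calc Wc * (m * (n / y) * l2r * lr ^ k) ≤ Λ * (m * (n / y) * Λ * Λ ^ k) := by gcongr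
      _ = Λ ^ (k + 2) * (m * n / y) := by ring
      _ ≤ _ := by
          apply mul_le_mul_of_nonneg_right _ (by positivity)
          exact pow_le_pow_right₀ hΛ (by omega)
  have c4 : T4 ≤ Λ ^ (k + 4) * (6 * (m * n / nd)) := by
    refine hT4.trans ?_
    have b1 : nr * mn ≤ 2 * (m * n) / nd := by
      calc nr * mn = mn * (1 * nr) := by ring
        _ ≤ mn * (nd * nr) := by gcongr
        _ ≤ _ := d1
    have b2 : 2 * (m * n) * (Λ / nd) = Λ * (2 * (m * n / nd)) := by field_simp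
    have b3 : Λ ≤ Λ ^ (k + 4) := by
      calc Λ = Λ ^ 1 := (pow_one _).symm
        _ ≤ _ := pow_le_pow_right₀ hΛ (by omega)
    have b4 : (1 : ℝ) ≤ Λ ^ (k + 4) := one_le_pow₀ hΛ
    have b5 : Λ * (2 * (m * n / nd)) ≤ Λ ^ (k + 4) * (2 * (m * n / nd)) :=
      mul_le_mul_of_nonneg_right b3 (by positivity)
    have b6 : 4 * (m * n / nd) ≤ Λ ^ (k + 4) * (4 * (m * n / nd)) :=
      le_mul_of_one_le_left (by positivity) b4
    rw [b2]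
    calc Λ * (2 * (m * n / nd)) + 2 * nr * mn ≤ Λ ^ (k + 4) * (2 * (m * n / nd)) + 4 * (m * n / nd) := by
          have : 2 * nr * mn = 2 * (nr * mn) := by ring
          rw [this]
          have e : 2 * (2 * (m * n) / nd) = 4 * (m * n / nd) := by ring
          linarith
      _ ≤ Λ ^ (k + 4) * (2 * (m * n / nd)) + Λ ^ (k + 4) * (4 * (m * n / nd)) := by linarith
      _ = _ := by ring
  calc T1 + T2 + T3 + T4 ≤ Λ ^ (k + 4) * (12 * (m * n * (2 / y + 8 / nd))) +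
      Λ ^ (k + 4) * (4 * (m * n * h) + 4 * (m * n / nd)) + Λ ^ (k + 4) * (m * n / y) +
      Λ ^ (k + 4) * (6 * (m * n / nd)) := by linarith
    _ = m * n * (Λ ^ (k + 4) * (25 / y + 106 / nd + 4 * h)) := by ring
    _ ≤ _ := by gcongr; norm_num

lemma ev_rpow_log (δ : ℝ) (hδ : 0 < δ) (B : ℕ) : ∀ᶠ N : ℕ in atTop, Real.log N ^ B ≤ (N : ℝ) ^ δ := by
  have e := ev_logN (ev_pow_exp B δ 1 hδ)
  filter_upwards [e, eventually_ge_atTop 1] with N h hN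
  have hN0 : (0 : ℝ) < N := by exact_mod_cast hN
  rw [Real.rpow_def_of_pos hN0, mul_comm (Real.log N)]
  rwa [one_mul] at h

/-- the square roots -/
lemma gg_facts {M N C δ ρ : ℝ} (hM0 : 0 < M) (hN1 : 1 ≤ N) (hM : N ^ C ≤ 2 * M)
    (hδC : δ ≤ C / 2) (hδ2 : δ ≤ 1 / 2) (hρ : ρ + 2 * δ ≤ (1 + C) / 2) :
    0 < Real.sqrt M * Real.sqrt N ∧ (Real.sqrt M * Real.sqrt N) * (Real.sqrt M * Real.sqrt N) = M * N ∧
    (Real.sqrt M * Real.sqrt N) * Real.sqrt (2 * M) ≤ 2 * (M * N) / N ^ δ ∧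
    (Real.sqrt M * Real.sqrt N) * Real.sqrt (2 * N) ≤ 2 * (M * N) / N ^ δ ∧
    (Real.sqrt M * Real.sqrt N) * (N ^ δ * N ^ ρ) ≤ 2 * (M * N) / N ^ δ ∧
    min M N ≤ Real.sqrt M * Real.sqrt N := by
  have hN0 : 0 < N := by linarith
  have hsM : 0 < Real.sqrt M := Real.sqrt_pos.2 hM0
  have hsN : 0 < Real.sqrt N := Real.sqrt_pos.2 hN0
  have hMM : Real.sqrt M * Real.sqrt M = M := Real.mul_self_sqrt hM0.le
  have hNN : Real.sqrt N * Real.sqrt N = N := Real.mul_self_sqrt hN0.le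
  have hs2 : Real.sqrt 2 ≤ 3 / 2 := by
    rw [Real.sqrt_le_left (by norm_num)]
    norm_num
  have hs2' : Real.sqrt 2 * Real.sqrt 2 = 2 := Real.mul_self_sqrt (by norm_num)
  have hs20 : 0 < Real.sqrt 2 := Real.sqrt_pos.2 (by norm_num)
  have hsMlow : N ^ (C / 2) ≤ Real.sqrt 2 * Real.sqrt M := by
    rw [← Real.sqrt_mul (by norm_num)]
    apply Real.le_sqrt_of_sq_le
    rw [← Real.rpow_natCast, ← Real.rpow_mul hN0.le]
    push_cast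
    rw [div_mul_cancel₀ _ (by norm_num)]
    exact hM
  have hNδ0 : 0 < N ^ δ := by positivity
  have hsNδ : N ^ δ ≤ Real.sqrt N := by
    rw [Real.sqrt_eq_rpow]
    exact Real.rpow_le_rpow_of_exponent_le hN1 hδ2
  have hsMδ : N ^ δ ≤ Real.sqrt 2 * Real.sqrt M :=
    (Real.rpow_le_rpow_of_exponent_le hN1 hδC).trans hsMlow
  have hMN : 0 < M * N := by positivity
  have hgg : (Real.sqrt M * Real.sqrt N) * (Real.sqrt M * Real.sqrt N) = M * N := by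
    calc Real.sqrt M * Real.sqrt N * (Real.sqrt M * Real.sqrt N) =
        (Real.sqrt M * Real.sqrt M) * (Real.sqrt N * Real.sqrt N) := by ring
      _ = _ := by rw [hMM, hNN]
  have hg0 : 0 < Real.sqrt M * Real.sqrt N := by positivity
  refine ⟨hg0, hgg, ?_, ?_, ?_, ?_⟩
  · rw [le_div_iff₀ hNδ0, Real.sqrt_mul (by norm_num)]
    have e : Real.sqrt M * Real.sqrt N * (Real.sqrt 2 * Real.sqrt M) * N ^ δ =
        (Real.sqrt M * Real.sqrt M) * Real.sqrt 2 * (Real.sqrt N * N ^ δ) := by ring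
    rw [e, hMM]
    have h6 : Real.sqrt N * N ^ δ ≤ N := by
      calc Real.sqrt N * N ^ δ ≤ Real.sqrt N * Real.sqrt N := mul_le_mul_of_nonneg_left hsNδ hsN.le
        _ = N := hNN
    calc M * Real.sqrt 2 * (Real.sqrt N * N ^ δ) ≤ M * (3 / 2) * N :=
          mul_le_mul (mul_le_mul_of_nonneg_left hs2 hM0.le) h6 (by positivity) (by positivity)
      _ ≤ _ := by linarith
  · rw [le_div_iff₀ hNδ0, Real.sqrt_mul (by norm_num)]
    have e : Real.sqrt M * Real.sqrt N * (Real.sqrt 2 * Real.sqrt N) * N ^ δ =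
        (Real.sqrt N * Real.sqrt N) * Real.sqrt 2 * (Real.sqrt M * N ^ δ) := by ring
    rw [e, hNN]
    calc N * Real.sqrt 2 * (Real.sqrt M * N ^ δ) ≤
        N * Real.sqrt 2 * (Real.sqrt M * (Real.sqrt 2 * Real.sqrt M)) :=
          mul_le_mul_of_nonneg_left (mul_le_mul_of_nonneg_left hsMδ hsM.le) (by positivity)
      _ = N * (Real.sqrt 2 * Real.sqrt 2) * (Real.sqrt M * Real.sqrt M) := by ring
      _ = N * 2 * M := by rw [hs2', hMM]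
      _ = _ := by ring
  · rw [le_div_iff₀ hNδ0]
    have h6 : N ^ δ * N ^ ρ * N ^ δ ≤ Real.sqrt 2 * (Real.sqrt M * Real.sqrt N) := by
      calc N ^ δ * N ^ ρ * N ^ δ = N ^ (δ + ρ + δ) := by
            rw [← Real.rpow_add hN0, ← Real.rpow_add hN0]
        _ ≤ N ^ (C / 2 + 1 / 2) := Real.rpow_le_rpow_of_exponent_le hN1 (by linarith)
        _ = N ^ (C / 2) * Real.sqrt N := by rw [Real.rpow_add hN0, Real.sqrt_eq_rpow]
        _ ≤ Real.sqrt 2 * Real.sqrt M * Real.sqrt N := mul_le_mul_of_nonneg_right hsMlow hsN.le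
        _ = Real.sqrt 2 * (Real.sqrt M * Real.sqrt N) := by ring
    calc (Real.sqrt M * Real.sqrt N) * (N ^ δ * N ^ ρ) * N ^ δ =
        (Real.sqrt M * Real.sqrt N) * (N ^ δ * N ^ ρ * N ^ δ) := by ring
      _ ≤ (Real.sqrt M * Real.sqrt N) * (Real.sqrt 2 * (Real.sqrt M * Real.sqrt N)) :=
          mul_le_mul_of_nonneg_left h6 hg0.le
      _ = Real.sqrt 2 * ((Real.sqrt M * Real.sqrt N) * (Real.sqrt M * Real.sqrt N)) := by ring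
      _ = Real.sqrt 2 * (M * N) := by rw [hgg]
      _ ≤ 3 / 2 * (M * N) := mul_le_mul_of_nonneg_right hs2 hMN.le
      _ ≤ _ := by linarith
  · calc min M N = Real.sqrt (min M N) * Real.sqrt (min M N) :=
          (Real.mul_self_sqrt (le_min hM0.le hN0.le)).symm
      _ ≤ Real.sqrt M * Real.sqrt N :=
          mul_le_mul (Real.sqrt_le_sqrt (min_le_left _ _)) (Real.sqrt_le_sqrt (min_le_right _ _))
            (Real.sqrt_nonneg _) (Real.sqrt_nonneg _)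

/-- the last step -/
lemma last_step {s m n L y nd h c1 Λ T : ℝ} {k U B1 : ℕ} (hm : 0 < m) (hn : 0 < n) (hL : 1 ≤ L) (hy0 : 0 < y)
    (hc1 : 0 < c1) (hB1 : B1 = k + 4 + 2 * U + 1) (hΛ : Λ = c1 * L) (hy : L ^ B1 ≤ y) (hnd : L ^ B1 ≤ nd)
    (hh : h * L ^ B1 ≤ 1) (hbig : 139 * c1 ^ (k + 4) ≤ L) (hT : s * (n / L ^ U) ≤ T)
    (hT2 : T ≤ m * n * (Λ ^ (k + 4) * (25 / y + 110 / nd + 4 * h))) : s ≤ m / L ^ U := by
  have hL0 : 0 < L := by linarith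
  have hmn : 0 < m * n := by positivity
  have hLB : 0 < L ^ B1 := by positivity
  have hΛ0 : 0 < Λ := by rw [hΛ]; positivity
  have hfac : Λ ^ (k + 4) * (25 / y + 110 / nd + 4 * h) ≤ 1 / L ^ (2 * U) := by
    have f1 : 25 / y ≤ 25 / L ^ B1 := div_le_div_of_nonneg_left (by norm_num) hLB hy
    have f2 : 110 / nd ≤ 110 / L ^ B1 := div_le_div_of_nonneg_left (by norm_num) hLB hnd
    have f3 : 4 * h ≤ 4 / L ^ B1 := by
      rw [le_div_iff₀ hLB]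
      linarith
    have f4 : Λ ^ (k + 4) * (25 / y + 110 / nd + 4 * h) ≤ Λ ^ (k + 4) * (139 / L ^ B1) := by
      apply mul_le_mul_of_nonneg_left _ (by positivity)
      calc 25 / y + 110 / nd + 4 * h ≤ 25 / L ^ B1 + 110 / L ^ B1 + 4 / L ^ B1 := by linarith
        _ = _ := by ring
    refine f4.trans ?_
    have e : L ^ (k + 4 + 2 * U + 1) = L ^ (k + 4) * L ^ (2 * U) * L := by ring
    rw [hΛ, mul_pow, hB1, e, mul_div_assoc', div_le_div_iff₀ (by positivity) (by positivity)]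
    calc c1 ^ (k + 4) * L ^ (k + 4) * 139 * L ^ (2 * U) =
        (139 * c1 ^ (k + 4)) * (L ^ (k + 4) * L ^ (2 * U)) := by ring
      _ ≤ L * (L ^ (k + 4) * L ^ (2 * U)) := mul_le_mul_of_nonneg_right hbig (by positivity)
      _ = _ := by ring
  have h9 : s * (n / L ^ U) ≤ m * n * (1 / L ^ (2 * U)) :=
    hT.trans (hT2.trans (mul_le_mul_of_nonneg_left hfac hmn.le))
  have hLU : 0 < L ^ U := by positivity
  rw [le_div_iff₀ hLU]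
  have h10 : s * (n / L ^ U) * (L ^ (2 * U) / n) ≤ m * n * (1 / L ^ (2 * U)) * (L ^ (2 * U) / n) :=
    mul_le_mul_of_nonneg_right h9 (by positivity)
  have e1 : s * (n / L ^ U) * (L ^ (2 * U) / n) = s * L ^ U := by
    rw [show 2 * U = U + U by ring, pow_add]
    field_simp
  have e2 : m * n * (1 / L ^ (2 * U)) * (L ^ (2 * U) / n) = m := by field_simp
  rw [e1, e2] at h10
  exact h10

/-- the signs -/
lemma sign_sum (M : ℕ) (S : Finset ℕ) (hS : S ⊆ Icc 1 M) (E : ℕ → ℝ) :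
    ∃ α : ℕ → ℝ, (∀ a, |α a| ≤ 1) ∧ ∑ a ∈ Icc 1 M, α a * E a = ∑ a ∈ S, |E a| := by
  classical
  refine ⟨fun a => if a ∈ S then (if 0 ≤ E a then 1 else -1) else 0, ?_, ?_⟩
  · intro a
    dsimp only
    split_ifs <;> norm_num
  · rw [← sum_subset hS]
    · refine sum_congr rfl fun a ha => ?_
      dsimp only
      rw [if_pos ha]
      split_ifs with h
      · rw [one_mul, abs_of_nonneg h]
      · rw [abs_of_neg (by linarith)]; ring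
    · intro a _ ha
      dsimp only
      rw [if_neg ha, zero_mul]

/-- logarithms of small numbers -/
lemma log_small {N : ℕ} (hN : 1 ≤ N) {m : ℕ} {t : ℝ} (hm1 : 1 ≤ m) (hm2 : (m : ℝ) ≤ (N : ℝ) ^ t) :
    Real.log m ≤ t * Real.log N ∧ (Nat.log 2 m : ℝ) ≤ 2 * (t * Real.log N) := by
  have hN0 : (0 : ℝ) < N := by exact_mod_cast hN
  have h1 : Real.log m ≤ t * Real.log N := by
    calc Real.log m ≤ Real.log ((N : ℝ) ^ t) := Real.log_le_log (by exact_mod_cast hm1) hm2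
      _ = t * Real.log N := Real.log_rpow hN0 t
  refine ⟨h1, ?_⟩
  have h2 := natlog_le hm1
  linarith

/-- one value of `N` -/
lemma few_one {N M K b J y D1 R k0 U B1 : ℕ} {C ρ δ c1 L ℓ Λ : ℝ} {S : Finset ℕ} {E Q : ℕ → ℝ}
    (hC : 0 < C) (hK : 1 ≤ K) (hN : 3 ≤ N) (hρ0 : 0 ≤ ρ) (hδ : 0 < δ) (hδC : δ ≤ C / 2) (hδ2 : δ ≤ 1 / 2)
    (hρ : ρ + 2 * δ ≤ (1 + C) / 2) (hc1 : c1 = 5 * K + 2 * C + 4) (hL : L = Real.log N) (hL1 : 1 ≤ L)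
    (hℓ : ℓ = (2 * C + 3) * L) (hΛ : Λ = c1 * L)
    (hy0 : (0 : ℝ) < y) (hB1 : B1 = k0 + 4 + 2 * U + 1) (hyB : L ^ B1 ≤ y) (hNδ : L ^ B1 ≤ (N : ℝ) ^ δ)
    (hb : (1 / 2 : ℝ) ^ b * L ^ B1 ≤ 1) (hbig : 139 * c1 ^ (k0 + 4) ≤ L)
    (hJ : (J : ℝ) + 2 ≤ 4 * L) (hD1 : 1 ≤ D1) (hD1le : (D1 : ℝ) ≤ (N : ℝ) ^ δ) (hR1 : 1 ≤ R)
    (hRle : (R : ℝ) ≤ (N : ℝ) ^ ρ) (hM1 : (N : ℝ) ^ C ≤ 2 * M)
    (hS : S ⊆ Icc 1 M) (hQ : ∀ a, 0 ≤ Q a)
    (hT : ∑ a ∈ S, |E a| ≤ (J + 1) * (5 * K * L) * ((1 + Real.log ((D1 * R : ℕ) : ℝ)) ^ k0 *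
        (((Nat.log 2 (D1 * R) : ℝ) + 1) *
        (12 * ℓ * (Real.sqrt M * Real.sqrt N) *
        (2 * (Real.sqrt M * Real.sqrt N) / y + Real.sqrt (2 * M) + Real.sqrt (2 * N) +
          2 * ((D1 * R : ℕ) : ℝ))))) +
      (5 * K * L) * (4 * M * N * (1 / 2 : ℝ) ^ b * (1 + Real.log R) ^ k0 +
        (J + 2) * (D1 : ℝ) * (min M N : ℕ) * (R + (1 + Real.log R) ^ k0)) +
      (5 * K * L) * (M * (N / y) * (Nat.log 2 R) * (1 + Real.log R) ^ k0))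
    (hT4 : ∑ a ∈ Icc 1 M, Q a ≤ 2 * ((M : ℝ) * N) * (Λ / (N : ℝ) ^ δ) + 2 * (N : ℝ) ^ ρ * (min M N : ℕ))
    (hSx : ∀ a ∈ S, N / L ^ U < |E a| + Q a) : (S.card : ℝ) ≤ M / L ^ U := by
  have hN0 : (0 : ℝ) < N := by positivity
  have hN1r : (1 : ℝ) ≤ N := by exact_mod_cast (by omega : 1 ≤ N)
  have hL0 : 0 < L := by linarith
  have hKr : (1 : ℝ) ≤ K := by exact_mod_cast hK
  have hM0 : (0 : ℝ) < M := by
    have : 0 < (N : ℝ) ^ C := by positivity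
    linarith
  have hNδ1 : 1 ≤ (N : ℝ) ^ δ := Real.one_le_rpow hN1r hδ.le
  have hNρ1 : 1 ≤ (N : ℝ) ^ ρ := Real.one_le_rpow hN1r hρ0
  have hNδ0 : (0 : ℝ) < (N : ℝ) ^ δ := by positivity
  have hD1R : ((D1 * R : ℕ) : ℝ) ≤ (N : ℝ) ^ (C + 1) := by
    rw [Nat.cast_mul]
    calc (D1 : ℝ) * R ≤ (N : ℝ) ^ δ * (N : ℝ) ^ ρ :=
          mul_le_mul hD1le hRle (Nat.cast_nonneg _) hNδ0.le
      _ = (N : ℝ) ^ (δ + ρ) := by rw [← Real.rpow_add hN0]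
      _ ≤ (N : ℝ) ^ (C + 1) := Real.rpow_le_rpow_of_exponent_le hN1r (by linarith)
  obtain ⟨q1, q2⟩ := log_small (N := N) (by omega) (Nat.mul_pos hD1 hR1) hD1R
  obtain ⟨r1, r2⟩ := log_small (N := N) (t := C + 1) (by omega) hR1 (hRle.trans
    (Real.rpow_le_rpow_of_exponent_le hN1r (by linarith)))
  rw [← hL] at q1 q2 r1 r2
  have r3 : 0 ≤ Real.log R := Real.log_natCast_nonneg R
  have r4 : 0 ≤ Real.log ((D1 * R : ℕ) : ℝ) := Real.log_natCast_nonneg _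
  obtain ⟨v1, hv1⟩ : ∃ v1 : ℝ, v1 = Real.log ((D1 * R : ℕ) : ℝ) := ⟨_, rfl⟩
  obtain ⟨v2, hv2⟩ : ∃ v2 : ℝ, v2 = (Nat.log 2 (D1 * R) : ℝ) := ⟨_, rfl⟩
  obtain ⟨v3, hv3⟩ : ∃ v3 : ℝ, v3 = Real.log R := ⟨_, rfl⟩
  obtain ⟨v4, hv4⟩ : ∃ v4 : ℝ, v4 = (Nat.log 2 R : ℝ) := ⟨_, rfl⟩
  have hv20 : 0 ≤ v2 := by rw [hv2]; exact Nat.cast_nonneg _
  have hv40 : 0 ≤ v4 := by rw [hv4]; exact Nat.cast_nonneg _
  have hcast : ((D1 * R : ℕ) : ℝ) = (D1 : ℝ) * R := Nat.cast_mul _ _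
  rw [← hv1, ← hv2, ← hv3, ← hv4, hcast] at hT
  rw [← hv1] at q1 r4
  rw [← hv2] at q2
  rw [← hv3] at r1 r3
  rw [← hv4] at r2
  obtain ⟨g1, g2, g3, g4, g5, g6⟩ := gg_facts hM0 hN1r hM1 hδC hδ2 hρ
  have hmin0 : (0 : ℝ) ≤ ((min M N : ℕ) : ℝ) := Nat.cast_nonneg _
  have hmin : ((min M N : ℕ) : ℝ) ≤ Real.sqrt M * Real.sqrt N := by
    rw [Nat.cast_min]
    exact g6
  obtain ⟨mn, hmn⟩ : ∃ mn : ℝ, mn = ((min M N : ℕ) : ℝ) := ⟨_, rfl⟩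
  rw [← hmn] at hmin0 hmin hT hT4
  obtain ⟨g, hg⟩ : ∃ g : ℝ, g = Real.sqrt M * Real.sqrt N := ⟨_, rfl⟩
  rw [← hg] at hT hmin g1 g2 g3 g4 g5
  obtain ⟨sm, hsm⟩ : ∃ sm : ℝ, sm = Real.sqrt (2 * M) := ⟨_, rfl⟩
  obtain ⟨sn, hsn⟩ : ∃ sn : ℝ, sn = Real.sqrt (2 * N) := ⟨_, rfl⟩
  have hsm0 : 0 ≤ sm := by rw [hsm]; exact Real.sqrt_nonneg _
  have hsn0 : 0 ≤ sn := by rw [hsn]; exact Real.sqrt_nonneg _
  rw [← hsm] at hT g3
  rw [← hsn] at hT g4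
  obtain ⟨h, hh⟩ : ∃ h : ℝ, h = (1 / 2 : ℝ) ^ b := ⟨_, rfl⟩
  have hh0 : 0 ≤ h := by rw [hh]; positivity
  rw [← hh] at hT hb
  have hc19 : 9 ≤ c1 := by rw [hc1]; linarith
  have hΛ1 : 1 ≤ Λ := by rw [hΛ]; exact one_le_mul_of_one_le_of_one_le (by linarith only [hc19]) hL1
  have hΛ0 : 0 < Λ := by linarith
  have hKL : 0 ≤ 5 * (K : ℝ) * L := by positivity
  have hKLΛ : 5 * (K : ℝ) * L ≤ Λ := by
    rw [hΛ, hc1]
    exact mul_le_mul_of_nonneg_right (by linarith) hL0.le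
  have hℓΛ : ℓ ≤ Λ := by
    rw [hℓ, hΛ, hc1]
    exact mul_le_mul_of_nonneg_right (by linarith) hL0.le
  have hℓ0 : 0 ≤ ℓ := by rw [hℓ]; positivity
  have h4L : 4 * L ≤ Λ := by
    rw [hΛ]
    exact mul_le_mul_of_nonneg_right (by linarith) hL0.le
  have hJ0 : (0 : ℝ) ≤ J := Nat.cast_nonneg _
  have hclr2 : 2 * ((C + 1) * L) + 1 ≤ Λ := by
    have h6 : (2 * C + 3) * L ≤ c1 * L :=
      mul_le_mul_of_nonneg_right (by rw [hc1]; linarith only [hKr]) hL0.le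
    rw [hΛ]
    linarith only [h6, hL1]
  have hclr : (C + 1) * L + 1 ≤ Λ := by
    have h6 : 0 ≤ (C + 1) * L := by positivity
    linarith only [h6, hclr2]
  have hv1' : (1 + v1) ^ k0 ≤ Λ ^ k0 := pow_le_pow_left₀ (by linarith) (by linarith) _
  have hv3' : (1 + v3) ^ k0 ≤ Λ ^ k0 := pow_le_pow_left₀ (by linarith) (by linarith) _
  obtain ⟨T1, hT1⟩ : ∃ T1 : ℝ, T1 = ((J : ℝ) + 1) * (5 * K * L) * ((1 + v1) ^ k0 * ((v2 + 1) *
        (12 * ℓ * g * (2 * g / y + sm + sn + 2 * ((D1 : ℝ) * R))))) := ⟨_, rfl⟩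
  obtain ⟨T2, hT2⟩ : ∃ T2 : ℝ, T2 = (5 * K * L) * (4 * M * N * h * (1 + v3) ^ k0 +
        ((J : ℝ) + 2) * (D1 : ℝ) * mn * (R + (1 + v3) ^ k0)) := ⟨_, rfl⟩
  obtain ⟨T3, hT3⟩ : ∃ T3 : ℝ, T3 = (5 * K * L) * (M * (N / y) * v4 * (1 + v3) ^ k0) := ⟨_, rfl⟩
  rw [← hT1, ← hT2, ← hT3] at hT
  have hA1 : T1 ≤ ((J : ℝ) + 1) * (5 * K * L) * (Λ ^ k0 * ((v2 + 1) *
        (12 * ℓ * g * (2 * g / y + sm + sn + 2 * ((D1 : ℝ) * R))))) := by
    rw [hT1]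
    apply mul_le_mul_of_nonneg_left _ (by positivity)
    exact mul_le_mul_of_nonneg_right hv1' (by positivity)
  have hA2 : T2 ≤ (5 * K * L) * (4 * M * N * h * Λ ^ k0 +
        ((J : ℝ) + 2) * (D1 : ℝ) * mn * (R + Λ ^ k0)) := by
    rw [hT2]
    apply mul_le_mul_of_nonneg_left _ hKL
    apply add_le_add
    · exact mul_le_mul_of_nonneg_left hv3' (by positivity)
    · apply mul_le_mul_of_nonneg_left _ (by positivity)
      linarith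
  have hA3 : T3 ≤ (5 * K * L) * (M * (N / y) * v4 * Λ ^ k0) := by
    rw [hT3]
    apply mul_le_mul_of_nonneg_left _ hKL
    exact mul_le_mul_of_nonneg_left hv3' (by positivity)
  have hnum := tot_num (m := M) (n := N) (g := g) (y := y) (nd := (N : ℝ) ^ δ) (nr := (N : ℝ) ^ ρ) (Λ := Λ)
    (Wc := 5 * K * L) (J1 := (J : ℝ) + 1) (J2 := (J : ℝ) + 2) (ℓ := ℓ) (lq := v2 + 1)
    (lr := Λ) (l2r := v4) (mn := mn) (h := h)
    (sm := sm) (sn := sn) (T1 := T1) (T2 := T2) (T3 := T3)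
    (T4 := ∑ a ∈ Icc 1 M, Q a) (k := k0) (D := D1) (R := R)
    hM0 hN0 g1 g2 hy0 hNδ1 hNρ1 hΛ1 hKL hKLΛ (by linarith) (by linarith)
    (by linarith) (by linarith) hℓ0 hℓΛ (by linarith)
    (by linarith) hΛ0.le le_rfl hv40 (by linarith)
    hmin0 hmin hh0 (Nat.cast_nonneg _) hD1le (Nat.cast_nonneg _) hRle g5
    hsm0 hsn0 g3 g4 hA1 hA2 hA3 hT4
  -- conclusion
  have hsum : (S.card : ℝ) * (N / L ^ U) ≤ T1 + T2 + T3 + ∑ a ∈ Icc 1 M, Q a := by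
    calc (S.card : ℝ) * (N / L ^ U) = ∑ _a ∈ S, (N : ℝ) / L ^ U := by rw [sum_const, nsmul_eq_mul]
      _ ≤ ∑ a ∈ S, (|E a| + Q a) := sum_le_sum fun a ha => (hSx a ha).le
      _ = ∑ a ∈ S, |E a| + ∑ a ∈ S, Q a := sum_add_distrib
      _ ≤ (T1 + T2 + T3) + ∑ a ∈ Icc 1 M, Q a := by
          refine add_le_add hT ?_
          exact sum_le_sum_of_subset_of_nonneg hS fun a _ _ => hQ a
  exact last_step hM0 hN0 hL1 hy0 (by linarith) hB1 hΛ hyB hNδ hb hbig hsum hnum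

/-- **for few multipliers the error is large** -/
theorem few_par (C : ℝ) (hC : 0 < C) (K : ℕ) (hK : 1 ≤ K) (ρ δ ζ υ : ℝ) (hρ0 : 0 ≤ ρ) (hδ : 0 < δ)
    (hδC : δ ≤ C / 2) (hδ2 : δ ≤ 1 / 2) (hρ : ρ + 2 * δ ≤ (1 + C) / 2) (hζ : δ ≤ K * ζ) (hυ : K * υ ≤ ρ)
    (U : ℕ) : ∃ κ : ℝ, 0 < κ ∧ κ ≤ 1 ∧ ∀ᶠ N : ℕ in atTop, ∀ M : ℕ, (N : ℝ) ^ C ≤ 2 * M →
      (M : ℝ) ≤ (N : ℝ) ^ (C + 1) → ∀ (P : Finset ℕ) (c : Finset ℕ → ℝ),
      (∀ p ∈ P, p.Prime ∧ yN κ N < p) → (∀ T, |c T| ≤ 5 * Real.log ((N ^ K : ℕ) : ℝ)) →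
      (∀ T ⊆ P, c T ≠ 0 → ((∏ p ∈ T, p : ℕ) : ℝ) ≤ (N : ℝ) ^ ρ) →
      ∀ f : ℕ → ℝ, (∀ n, |f n| ≤ 1) → ∀ S : Finset ℕ, S ⊆ Icc 1 M →
      (∀ a ∈ S, N / Real.log N ^ U < |E2 (yN κ N) N P c f a| + Sq (N ^ K) N ζ υ a) →
      (S.card : ℝ) ≤ M / Real.log N ^ U := by
  obtain ⟨C0, k0, hC0, HT⟩ := err_total
  obtain ⟨c1, hc1⟩ : ∃ c1 : ℝ, c1 = 5 * K + 2 * C + 4 := ⟨_, rfl⟩
  obtain ⟨B1, hB1⟩ : ∃ B1 : ℕ, B1 = k0 + 4 + 2 * U + 1 := ⟨_, rfl⟩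
  obtain ⟨κ, hκ, hκ1, HP⟩ := par1 C0 B1 hC0 δ hδ (by linarith)
  refine ⟨κ, hκ, hκ1, ?_⟩
  filter_upwards [HP, yN_facts κ hκ hκ1 (max B1 (max C0 3)) 1, ev_rpow_log δ hδ B1,
    ev_logN (eventually_ge_atTop (139 * c1 ^ (k0 + 4))), ev_logN (eventually_ge_atTop (1 : ℝ)),
    eventually_ge_atTop 3] with N hP hyf hNδ hLbig hL1 hN M hM1 hM2 P c hPp hc hR f hf S hS hSx
  obtain ⟨b, hb1, hb2, hb3, hb4⟩ := hP
  obtain ⟨y1, y2, y3, y4, y5⟩ := hyf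
  clear y1 y2 y4 HP
  obtain ⟨y, hy⟩ : ∃ y : ℕ, y = yN κ N := ⟨_, rfl⟩
  rw [← hy] at hb3 hb4 y3 y5 hPp hSx
  obtain ⟨L, hL⟩ : ∃ L : ℝ, L = Real.log N := ⟨_, rfl⟩
  rw [← hL] at hb2 hb4 y3 hNδ hLbig hL1 hSx ⊢
  have hN0 : (0 : ℝ) < N := by positivity
  have hN1r : (1 : ℝ) ≤ N := by exact_mod_cast (by omega : 1 ≤ N)
  have hL0 : 0 < L := by linarith
  have hyC0 : C0 ≤ y := ((le_max_left _ _).trans (le_max_right _ _)).trans y5
  have hy3 : 3 ≤ y := ((le_max_right _ _).trans (le_max_right _ _)).trans y5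
  have hy0 : (0 : ℝ) < y := by exact_mod_cast (by omega : 0 < y)
  have hyB : L ^ B1 ≤ y := by
    refine le_trans ?_ y3
    exact pow_le_pow_right₀ hL1 (le_max_left _ _)
  have hM0 : (0 : ℝ) < M := by
    have : 0 < (N : ℝ) ^ C := by positivity
    linarith
  have hM1n : 1 ≤ M := by exact_mod_cast hM0
  have hYK : 2 ≤ N ^ K := le_trans (by omega : 2 ≤ N) (Nat.le_self_pow (by omega) N)
  have hN1n : 1 ≤ N := by omega
  have hJlt := (JJ_lt y).le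
  obtain ⟨J, hJ⟩ : ∃ J : ℕ, J = JJ y := ⟨_, rfl⟩
  rw [← hJ] at hb3 hb4 hJlt
  obtain ⟨R, hRd⟩ : ∃ R : ℕ, R = ⌊(N : ℝ) ^ ρ⌋₊ := ⟨_, rfl⟩
  have hNρ1 : 1 ≤ (N : ℝ) ^ ρ := Real.one_le_rpow hN1r hρ0
  have hR1 : 1 ≤ R := by rw [hRd]; exact Nat.le_floor (by exact_mod_cast hNρ1)
  have hRle : (R : ℝ) ≤ (N : ℝ) ^ ρ := by rw [hRd]; exact Nat.floor_le (by positivity)
  have hR' : ∀ T ⊆ P, c T ≠ 0 → ∏ p ∈ T, p ≤ R := by
    intro T hT hne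
    rw [hRd]
    exact Nat.le_floor (hR T hT hne)
  obtain ⟨m1, m2⟩ := log_small (N := N) (t := C + 1) hN1n hM1n hM2
  obtain ⟨n1, n2⟩ := log_small (N := N) (t := 1) (m := N) hN1n hN1n (by rw [Real.rpow_one])
  rw [← hL] at m1 m2 n1 n2
  obtain ⟨α, hα1, hα2⟩ := sign_sum M S hS (E2 y N P c f)
  have hWc : ∀ T, |c T| ≤ 5 * K * L := by
    intro T
    refine (hc T).trans (le_of_eq ?_)
    rw [Nat.cast_pow, Real.log_pow, ← hL]
    ring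
  have hT := HT b J y M N R P c (5 * K * L) ((2 * C + 3) * L) α f hb1 hyC0 hJlt hM1n hN1n hR1 hPp hWc hR'
    hα1 hf (by linarith) (by linarith [mul_pos hC hL0])
  rw [hα2, abs_of_nonneg (sum_nonneg fun a _ => abs_nonneg _)] at hT
  have hD11 : 1 ≤ C0 * (2 ^ 2 ^ J) ^ (C0 * b) := Nat.mul_pos hC0 (pow_pos (pow_pos (by norm_num) _) _)
  obtain ⟨D1, hD1⟩ : ∃ D1 : ℕ, D1 = C0 * (2 ^ 2 ^ J) ^ (C0 * b) := ⟨_, rfl⟩
  rw [← hD1] at hT hb3 hD11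
  have hSqT := Sq_total (N ^ K) M N hYK ζ υ
  have hYpow : ∀ t : ℝ, (((N ^ K : ℕ)) : ℝ) ^ t = (N : ℝ) ^ (K * t) := by
    intro t
    rw [Nat.cast_pow, ← Real.rpow_natCast, ← Real.rpow_mul hN0.le]
  have hNδ0 : (0 : ℝ) < (N : ℝ) ^ δ := by positivity
  have hKr : (1 : ℝ) ≤ K := by exact_mod_cast hK
  have hT4 : ∑ a ∈ Icc 1 M, Sq (N ^ K) N ζ υ a ≤
      2 * ((M : ℝ) * N) * (c1 * L / (N : ℝ) ^ δ) + 2 * (N : ℝ) ^ ρ * (min M N : ℕ) := by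
    refine hSqT.trans (add_le_add ?_ ?_)
    · apply mul_le_mul_of_nonneg_left _ (by positivity)
      rw [hYpow]
      have h6 : 1 + Real.log ((N ^ K : ℕ) : ℝ) ≤ c1 * L := by
        rw [Nat.cast_pow, Real.log_pow, ← hL]
        have h6 : (K + 1) * L ≤ c1 * L :=
          mul_le_mul_of_nonneg_right (by rw [hc1]; linarith only [hKr, hC]) hL0.le
        linarith only [h6, hL1]
      have h7 : (N : ℝ) ^ δ ≤ (N : ℝ) ^ (K * ζ) := Real.rpow_le_rpow_of_exponent_le hN1r hζ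
      exact div_le_div₀ (by rw [hc1]; positivity) h6 hNδ0 h7
    · apply mul_le_mul_of_nonneg_right _ (Nat.cast_nonneg _)
      rw [hYpow]
      have h7 : (N : ℝ) ^ (K * υ) ≤ (N : ℝ) ^ ρ := Real.rpow_le_rpow_of_exponent_le hN1r hυ
      linarith
  exact few_one hC hK hN hρ0 hδ hδC hδ2 hρ hc1 hL hL1 rfl rfl hy0 hB1 hyB hNδ hb2 hLbig hb4 hD11 hb3 hR1 hRle
    hM1 hS (fun a => Nat.cast_nonneg _) hT hT4 hSx

end Pool.Agent.H52AD
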