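import Mathlib
import Pool.Agent.H52AD.Sqq
import Pool.Agent.Y822.Corr
import Pool.Agent.W378.DC.MP
import Pool.Agent.W23.DC.Fin5

/-! One step: from rough values to almost primes. -/

set_option autoImplicit false

namespace Pool.Agent.H52AD

open Finset Filter
open Pool.Agent.W23.DC (tt pr Mer pr_sub)
open Pool.Agent.Y882 (VV tt_lt PZ VV_mu)
open Pool.Agent.Y882.KW (WW core3 WW_le_one)
open Pool.Agent.Y822 (Ro ro ro_nonneg ro_le_one)

/-- the density -/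
noncomputable def ha (y a p : ℕ) : ℝ := if y < p ∧ ¬ p ∣ a then 1 / ((p : ℝ) - 1) else 0

lemma ha_nonneg {y a p : ℕ} (hp : 1 ≤ p) : 0 ≤ ha y a p := by
  have h : (1 : ℝ) ≤ p := by exact_mod_cast hp
  unfold ha
  split_ifs
  · exact div_nonneg zero_le_one (by linarith)
  · exact le_rfl

lemma ha_le {y a p : ℕ} (hp : 1 ≤ p) : ha y a p ≤ 1 / ((p : ℝ) - 1) := by
  have h : (1 : ℝ) ≤ p := by exact_mod_cast hp
  unfold ha
  split_ifs
  · exact le_rfl
  · exact div_nonneg zero_le_one (by linarith)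

lemma totient_prod {T : Finset ℕ} (hT : ∀ p ∈ T, p.Prime) :
    (Nat.totient (∏ p ∈ T, p) : ℝ) = ∏ p ∈ T, ((p : ℝ) - 1) := by
  classical
  induction T using Finset.induction_on with
  | empty => simp
  | insert p T hp ih =>
    have hpp := hT p (mem_insert_self _ _)
    have hT' : ∀ q ∈ T, q.Prime := fun q hq => hT q (mem_insert_of_mem hq)
    rw [prod_insert hp, prod_insert hp, Nat.totient_mul, Nat.cast_mul, ih hT', Nat.totient_prime hpp,
      Nat.cast_pred hpp.pos]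
    refine Nat.Coprime.prod_right fun q hq => ?_
    rw [Nat.coprime_primes hpp (hT' q hq)]
    rintro rfl
    exact hp hq

/-- the density at a set of primes -/
lemma prod_ha {y a : ℕ} {T : Finset ℕ} (hT : ∀ p ∈ T, p.Prime ∧ y < p) :
    ∏ p ∈ T, ha y a p = if a.Coprime (∏ p ∈ T, p) then 1 / (Nat.totient (∏ p ∈ T, p) : ℝ) else 0 := by
  classical
  split_ifs with h
  · rw [totient_prod fun p hp => (hT p hp).1, one_div, ← prod_inv_distrib]
    refine prod_congr rfl fun p hp => ?_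
    unfold ha
    rw [if_pos, one_div]
    refine ⟨(hT p hp).2, fun hd => ?_⟩
    have h1 : p ∣ Nat.gcd a (∏ p ∈ T, p) := Nat.dvd_gcd hd (dvd_prod_of_mem _ hp)
    rw [h] at h1
    exact (hT p hp).1.one_lt.ne' (Nat.dvd_one.1 h1)
  · have h1 : ∃ p ∈ T, p ∣ a := by
      by_contra hcon
      push Not at hcon
      apply h
      refine Nat.Coprime.prod_right fun p hp => ?_
      rw [Nat.coprime_comm, (hT p hp).1.coprime_iff_not_dvd]
      exact hcon p hp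
    obtain ⟨p, hp, hpa⟩ := h1
    apply prod_eq_zero hp
    unfold ha
    rw [if_neg]
    rintro ⟨_, h2⟩
    exact h2 hpa

lemma prod_ha_zero {y a : ℕ} {T : Finset ℕ} (h : ∃ p ∈ T, p ≤ y) : ∏ p ∈ T, ha y a p = 0 := by
  obtain ⟨p, hp, hpy⟩ := h
  apply prod_eq_zero hp
  unfold ha
  rw [if_neg]
  rintro ⟨h1, _⟩
  omega

/-- Mertens' formula for the densities -/
lemma mer_a (ε₁ υ η : ℝ) (hε : 0 < ε₁) (hυ : υ ≤ 1) (hη : 0 < η) : ∃ Y0 : ℕ, ∀ Y : ℕ, Y0 ≤ Y →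
    ∀ y a : ℕ, 1 ≤ a → a ≤ Y → (y : ℝ) < (Y : ℝ) ^ ε₁ → Mer (pr Y ε₁ υ) (tt Y) (ha y a) ε₁ υ η := by
  classical
  obtain ⟨N₀, H⟩ := Pool.Agent.W378.DC.MP ε₁ (η / 2) hε (by positivity)
  have ev : ∀ᶠ Y : ℕ in atTop, (8 / η) * Real.log Y ≤ (Y : ℝ) ^ ε₁ := by
    have h1 : Tendsto (fun x : ℝ => Real.log x / x ^ ε₁) atTop (nhds 0) :=
      (isLittleO_log_rpow_atTop hε).tendsto_div_nhds_zero
    have h2 := h1.eventually_le_const (show (0 : ℝ) < η / 8 by positivity)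
    have h3 := tendsto_natCast_atTop_atTop.eventually (h2.and (eventually_gt_atTop (0 : ℝ)))
    filter_upwards [h3] with X hX
    obtain ⟨h4, h5⟩ := hX
    have h6 : (0 : ℝ) < (X : ℝ) ^ ε₁ := by positivity
    rw [div_le_iff₀ h6] at h4
    calc (8 / η) * Real.log X ≤ (8 / η) * (η / 8 * (X : ℝ) ^ ε₁) :=
          mul_le_mul_of_nonneg_left h4 (by positivity)
      _ = _ := by field_simp
  have ev2 : ∀ᶠ Y : ℕ in atTop, (2 : ℝ) ≤ (Y : ℝ) ^ ε₁ :=
    tendsto_natCast_atTop_atTop.eventually ((tendsto_rpow_atTop hε).eventually_ge_atTop 2)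
  obtain ⟨N₁, hN₁⟩ := eventually_atTop.1 (ev.and ev2)
  refine ⟨max (max N₀ N₁) 2, fun Y hY y a ha1 haY hyY => ?_⟩
  intro u v hu huv hv
  have hY2 : 2 ≤ Y := (le_max_right _ _).trans hY
  obtain ⟨e1, e2⟩ := hN₁ Y (((le_max_right _ _).trans (le_max_left _ _)).trans hY)
  have h1 := H Y (((le_max_left _ _).trans (le_max_left _ _)).trans hY) u v hu huv (hv.trans hυ)
  rw [pr_sub Y ε₁ υ u v hu hv]
  have hY0 : (0 : ℝ) < Y := by exact_mod_cast (by omega : 0 < Y)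
  have hprop : ∀ p ∈ pr Y u v, p.Prime ∧ (Y : ℝ) ^ ε₁ ≤ p := by
    intro p hp
    unfold pr at hp
    rw [mem_filter, mem_Icc] at hp
    obtain ⟨⟨h1, h2⟩, h3, h4, h5⟩ := hp
    refine ⟨h3, ?_⟩
    by_contra hlt
    push Not at hlt
    exact absurd (hu.trans h4) (not_le.2 ((tt_lt Y p ε₁ hY2 h3.pos).2 hlt))
  have hdiff : ∑ p ∈ pr Y u v, 1 / ((p : ℝ) - 1) - ∑ p ∈ pr Y u v, ha y a p =
      ∑ p ∈ (pr Y u v).filter (fun p => p ∣ a), 1 / ((p : ℝ) - 1) := by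
    rw [← sum_sub_distrib, sum_filter]
    refine sum_congr rfl fun p hp => ?_
    have h3 : y < p := by exact_mod_cast hyY.trans_le (hprop p hp).2
    unfold ha
    by_cases h4 : p ∣ a
    · rw [if_neg (fun h => h.2 h4), if_pos h4, sub_zero]
    · rw [if_pos ⟨h3, h4⟩, if_neg h4, sub_self]
  have hcard : (((pr Y u v).filter (fun p => p ∣ a)).card : ℝ) ≤ 2 * Real.log Y := by
    set F := (pr Y u v).filter (fun p => p ∣ a) with hF
    have g1 : ∏ p ∈ F, p ∣ a := by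
      apply Finset.prod_primes_dvd
      · intro p hp
        exact (hprop p (mem_filter.1 hp).1).1.prime
      · intro p hp
        exact (mem_filter.1 hp).2
    have g2 : 2 ^ F.card ≤ Y := by
      calc 2 ^ F.card = ∏ _p ∈ F, 2 := by rw [prod_const]
        _ ≤ ∏ p ∈ F, p := prod_le_prod' fun p hp => (hprop p (mem_filter.1 hp).1).1.two_le
        _ ≤ a := Nat.le_of_dvd ha1 g1
        _ ≤ Y := haY
    have g3 : (F.card : ℝ) * Real.log 2 ≤ Real.log Y := by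
      rw [← Real.log_pow]
      apply Real.log_le_log (by positivity)
      exact_mod_cast g2
    have g4 : (0.5 : ℝ) ≤ Real.log 2 := by linarith [Real.log_two_gt_d9]
    have g5 : (F.card : ℝ) * 0.5 ≤ F.card * Real.log 2 := mul_le_mul_of_nonneg_left g4 (Nat.cast_nonneg _)
    linarith
  have hsmall : ∑ p ∈ (pr Y u v).filter (fun p => p ∣ a), 1 / ((p : ℝ) - 1) ≤ η / 2 := by
    have g0 : ∀ p ∈ (pr Y u v).filter (fun p => p ∣ a), 1 / ((p : ℝ) - 1) ≤ 2 / (Y : ℝ) ^ ε₁ := by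
      intro p hp
      have g6 := (hprop p (mem_filter.1 hp).1).2
      rw [div_le_div_iff₀ (by linarith) (by linarith)]
      linarith
    calc _ ≤ ∑ _p ∈ (pr Y u v).filter (fun p => p ∣ a), 2 / (Y : ℝ) ^ ε₁ := sum_le_sum g0
      _ = ((pr Y u v).filter (fun p => p ∣ a)).card * (2 / (Y : ℝ) ^ ε₁) := by
          rw [sum_const, nsmul_eq_mul]
      _ ≤ 2 * Real.log Y * (2 / (Y : ℝ) ^ ε₁) := mul_le_mul_of_nonneg_right hcard (by positivity)
      _ ≤ η / 2 := by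
          have h6 : (0 : ℝ) < (Y : ℝ) ^ ε₁ := by positivity
          rw [mul_div_assoc', div_le_iff₀ h6]
          have h7 : η / 8 * (8 / η * Real.log Y) ≤ η / 8 * (Y : ℝ) ^ ε₁ :=
            mul_le_mul_of_nonneg_left e1 (by positivity)
          have h8 : η / 8 * (8 / η * Real.log Y) = Real.log Y := by field_simp
          rw [h8] at h7
          linarith
  have hpos : 0 ≤ ∑ p ∈ (pr Y u v).filter (fun p => p ∣ a), 1 / ((p : ℝ) - 1) := by
    apply sum_nonneg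
    intro p hp
    have g6 := (hprop p (mem_filter.1 hp).1).2
    exact div_nonneg zero_le_one (by linarith)
  rw [abs_le] at h1 ⊢
  constructor <;> linarith

lemma one_sub_sum_le {S : Finset ℕ} {t : ℕ → ℝ} (h : ∀ p ∈ S, 0 ≤ t p ∧ t p ≤ 1) :
    1 - ∑ p ∈ S, t p ≤ ∏ p ∈ S, (1 - t p) := by
  classical
  induction S using Finset.induction_on with
  | empty => simp
  | insert p S hp ih =>
    have h1 := h p (mem_insert_self _ _)
    have h2 : ∀ q ∈ S, 0 ≤ t q ∧ t q ≤ 1 := fun q hq => h q (mem_insert_of_mem hq)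
    have h3 := ih h2
    have h4 : ∏ q ∈ S, (1 - t q) ≤ 1 :=
      prod_le_one (fun q hq => by linarith [(h2 q hq).2]) (fun q hq => by linarith [(h2 q hq).1])
    rw [prod_insert hp, sum_insert hp]
    have h5 : t p * ∏ q ∈ S, (1 - t q) ≤ t p * 1 := mul_le_mul_of_nonneg_left h4 h1.1
    nlinarith

/-- the product of the densities -/
lemma prod_low (Y y a : ℕ) (ε₁ : ℝ) (hy : 8 ≤ y) :
    1 / 2 * ∏ p ∈ (PZ Y ε₁).filter (fun p => y < p), (1 - 1 / (p : ℝ)) ≤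
      ∏ p ∈ PZ Y ε₁, (1 - ha y a p) := by
  classical
  set S := (PZ Y ε₁).filter (fun p => y < p) with hS
  have hSm : ∀ p ∈ S, p.Prime ∧ y < p := by
    intro p hp
    rw [hS, mem_filter] at hp
    unfold PZ at hp
    rw [mem_filter] at hp
    exact ⟨hp.1.2.1, hp.2⟩
  have e1 : ∏ p ∈ PZ Y ε₁, (1 - ha y a p) = ∏ p ∈ S, (1 - ha y a p) := by
    rw [hS, prod_filter_of_ne]
    intro p _ hne
    by_contra hlt
    apply hne
    unfold ha
    rw [if_neg (fun h => hlt h.1), sub_zero]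
  rw [e1]
  have h1 : ∀ p ∈ S, (0 : ℝ) ≤ 1 / ((p : ℝ) - 1) ^ 2 ∧ 1 / ((p : ℝ) - 1) ^ 2 ≤ 1 := by
    intro p hp
    have h2 : (8 : ℝ) < p := by exact_mod_cast hy.trans_lt (hSm p hp).2
    refine ⟨by positivity, ?_⟩
    rw [div_le_one (by nlinarith)]
    nlinarith
  have h2 : (1 : ℝ) / 2 ≤ ∏ p ∈ S, (1 - 1 / ((p : ℝ) - 1) ^ 2) := by
    refine le_trans ?_ (one_sub_sum_le h1)
    have h3 := Pool.Agent.Y822.inv_sq_gt (y := y) (by omega) S (fun p hp => (hSm p hp).2)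
    have h4 : ∑ p ∈ S, 1 / ((p : ℝ) - 1) ^ 2 ≤ ∑ p ∈ S, 4 * (1 / (p : ℝ) ^ 2) := by
      refine sum_le_sum fun p hp => ?_
      have h5 : (8 : ℝ) < p := by exact_mod_cast hy.trans_lt (hSm p hp).2
      rw [← mul_div_assoc, mul_one, div_le_div_iff₀ (by nlinarith) (by positivity)]
      nlinarith
    rw [← mul_sum] at h4
    have h6 : (1 : ℝ) / y ≤ 1 / 8 := one_div_le_one_div_of_le (by norm_num) (by exact_mod_cast hy)
    linarith
  have h3 : ∀ p ∈ S, (1 - 1 / (p : ℝ)) * (1 - 1 / ((p : ℝ) - 1) ^ 2) ≤ 1 - ha y a p := by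
    intro p hp
    have h5 : (8 : ℝ) < p := by exact_mod_cast hy.trans_lt (hSm p hp).2
    have h6 := ha_le (y := y) (a := a) (p := p) (hSm p hp).1.one_le
    have h7 : (1 - 1 / (p : ℝ)) * (1 - 1 / ((p : ℝ) - 1) ^ 2) = 1 - 1 / ((p : ℝ) - 1) := by
      have h8 : (p : ℝ) ≠ 0 := by linarith
      have h9 : (p : ℝ) - 1 ≠ 0 := by linarith
      field_simp
      ring
    rw [h7]
    linarith
  have h4 : ∀ p ∈ S, (0 : ℝ) ≤ 1 - 1 / (p : ℝ) := by
    intro p hp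
    have h5 : (8 : ℝ) < p := by exact_mod_cast hy.trans_lt (hSm p hp).2
    rw [sub_nonneg, div_le_one (by linarith)]
    linarith
  calc 1 / 2 * ∏ p ∈ S, (1 - 1 / (p : ℝ)) ≤
      (∏ p ∈ S, (1 - 1 / ((p : ℝ) - 1) ^ 2)) * ∏ p ∈ S, (1 - 1 / (p : ℝ)) :=
        mul_le_mul_of_nonneg_right h2 (prod_nonneg h4)
    _ = ∏ p ∈ S, (1 - 1 / (p : ℝ)) * (1 - 1 / ((p : ℝ) - 1) ^ 2) := by
        rw [← prod_mul_distrib]
        exact prod_congr rfl fun p _ => by ring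
    _ ≤ _ := prod_le_prod (fun p hp => mul_nonneg (h4 p hp) (by linarith [(h1 p hp).2])) h3

open Classical in
/-- the indicator function of the almost primes which are detected by the sieve -/
noncomputable def ga (Y : ℕ) (ζ υ lam : ℝ) (m : ℕ) : ℝ :=
  if 0 < WW Y ζ υ lam (lam / υ) m ∧ ∀ q ∈ pr Y ζ υ, ¬ q ^ 2 ∣ m then 1 else 0

lemma ga_bd (Y : ℕ) (ζ υ lam : ℝ) (m : ℕ) : 0 ≤ ga Y ζ υ lam m ∧ ga Y ζ υ lam m ≤ 1 := by
  unfold ga; split_ifs <;> norm_num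

/-- **one step** -/
theorem step (τ ζ υ lam τ' β : ℝ) (hζ : 0 < ζ) (h2 : 2 * ζ < τ) (h4 : τ ≤ 4 * ζ) (hτ : τ ≤ 1)
    (hζυ : ζ ≤ υ) (hυτ : υ < τ) (hlam : 0 < lam)
    (hJ0 : ∫ x in ζ..υ, (lam - lam / υ * x) / (τ - x) / x < Real.log (τ / ζ - 1) / τ)
    (h5 : τ < τ') (hβ : 0 < β) : ∃ ε₁ f0 : ℝ, 0 < ε₁ ∧ ε₁ ≤ β ∧ 0 < f0 ∧ ∃ Y0 : ℕ, ∀ Y : ℕ, Y0 ≤ Y →
      ∃ c : Finset ℕ → ℝ, (∀ T, |c T| ≤ 5 * Real.log Y) ∧
      (∀ T ⊆ PZ Y υ, c T ≠ 0 → ((∏ p ∈ T, p : ℕ) : ℝ) ≤ (Y : ℝ) ^ τ') ∧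
      ∀ y N a : ℕ, 8 ≤ y → (y : ℝ) < (Y : ℝ) ^ ε₁ → 1 ≤ a → a ≤ Y → ∀ f : ℕ → ℝ, (∀ n, 0 ≤ f n ∧ f n ≤ 1) →
        f0 * (∏ p ∈ (PZ Y ε₁).filter (fun p => y < p), (1 - 1 / (p : ℝ))) *
          ∑ n ∈ Icc 1 N, f n * ro y (a * n + 1) -
          (|E2 y N ((PZ Y υ).filter (fun p => y < p)) c f a| + Sq Y N ζ υ a) ≤
        ∑ n ∈ Icc 1 N, f n * ga Y ζ υ lam (a * n + 1) := by
  classical
  have hυ0 : 0 < υ := lt_of_lt_of_le hζ hζυ
  have hυ1 : υ ≤ 1 := by linarith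
  have hab : lam / υ * υ ≤ lam := le_of_eq (by field_simp)
  obtain ⟨ε₁, η, f0, hε₁, hε₁ζ, hε₁β, hη, hf0, Y1, HC⟩ :=
    core3 1 τ ζ υ lam (lam / υ) τ' β hζ h2 h4 hτ hζυ hυτ hlam.le (by positivity) hab hJ0 h5 hβ
  obtain ⟨Y2, HM⟩ := mer_a ε₁ υ η hε₁ hυ1 hη
  refine ⟨ε₁, f0 / 2, hε₁, hε₁β, by positivity, max (max Y1 Y2) 2, ?_⟩
  intro Y hY
  have hYY1 : Y1 ≤ Y := ((le_max_left _ _).trans (le_max_left _ _)).trans hY
  have hYY2 : Y2 ≤ Y := ((le_max_right _ _).trans (le_max_left _ _)).trans hY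
  have hY2 : 2 ≤ Y := (le_max_right _ _).trans hY
  obtain ⟨c, hcL, hcD, hcN, hcV⟩ := HC Y hYY1
  refine ⟨c, hcL, hcD, ?_⟩
  intro y N a hy hyY ha1 haY f hf
  have hPZ : ∀ w : ℝ, ∀ p ∈ PZ Y w, p.Prime := by
    intro w p hp
    unfold PZ at hp
    rw [mem_filter] at hp
    exact hp.2.1
  set P := (PZ Y υ).filter (fun p => y < p) with hP
  have hPm : ∀ p ∈ P, p.Prime ∧ y < p := by
    intro p hp
    rw [hP, mem_filter] at hp
    exact ⟨hPZ υ p hp.1, hp.2⟩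
  have hPsub : P ⊆ PZ Y υ := filter_subset _ _
  set V0 := ∏ p ∈ (PZ Y ε₁).filter (fun p => y < p), (1 - 1 / (p : ℝ)) with hV0
  set W0 := ∑ n ∈ Icc 1 N, f n * ro y (a * n + 1) with hW0
  have hW00 : 0 ≤ W0 := sum_nonneg fun n _ => mul_nonneg (hf n).1 (ro_nonneg _ _)
  -- main term
  have hmain : f0 * ∏ p ∈ PZ Y ε₁, (1 - ha y a p) ≤ VV (PZ Y υ) c (ha y a) := by
    apply hcV (ha y a)
    · intro p hp
      exact ha_nonneg (hPZ _ p hp).one_le
    · intro p hp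
      have hp2 : (2 : ℝ) ≤ p := by exact_mod_cast (hPZ _ p hp).two_le
      refine (ha_le (hPZ _ p hp).one_le).trans ?_
      rw [div_le_one (by linarith)]
      linarith
    · intro p hp _
      refine (ha_le (hPZ _ p hp).one_le).trans (le_of_eq ?_)
      push_cast
      rfl
    · exact HM Y hYY2 y a ha1 haY hyY
  have hprod := prod_low Y y a ε₁ hy
  rw [← hV0] at hprod
  have hmain2 : f0 / 2 * V0 ≤ VV (PZ Y υ) c (ha y a) := by
    refine le_trans ?_ hmain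
    calc f0 / 2 * V0 = f0 * (1 / 2 * V0) := by ring
      _ ≤ _ := mul_le_mul_of_nonneg_left hprod hf0.le
  -- the sum of the weights
  have hVVP : VV (PZ Y υ) c (ha y a) = ∑ T ∈ P.powerset, c T *
      (if a.Coprime (∏ p ∈ T, p) then 1 / (Nat.totient (∏ p ∈ T, p) : ℝ) else 0) := by
    unfold VV
    rw [← sum_subset (powerset_mono.2 hPsub)]
    · refine sum_congr rfl fun T hT => ?_
      rw [prod_ha fun p hp => hPm p (mem_powerset.1 hT hp)]
    · intro T hT hT2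
      rw [prod_ha_zero, mul_zero]
      by_contra hcon
      push Not at hcon
      apply hT2
      rw [mem_powerset]
      intro p hp
      rw [hP, mem_filter]
      exact ⟨mem_powerset.1 hT hp, hcon p hp⟩
  have hVVn : ∀ n : ℕ, ro y (a * n + 1) * VV (PZ Y υ) c (fun p => if p ∣ a * n + 1 then 1 else 0) =
      ∑ T ∈ P.powerset, c T * (ro y (a * n + 1) * (if (∏ p ∈ T, p) ∣ a * n + 1 then 1 else 0)) := by
    intro n
    unfold VV
    rw [mul_sum]
    have e1 : ∀ T ∈ P.powerset, c T * (ro y (a * n + 1) * (if (∏ p ∈ T, p) ∣ a * n + 1 then (1 : ℝ) else 0)) =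
        ro y (a * n + 1) * (c T * ∏ p ∈ T, (if p ∣ a * n + 1 then (1 : ℝ) else 0)) := by
      intro T hT
      have e2 := prod_dv (fun p hp => (hPm p (mem_powerset.1 hT hp)).1) (a * n + 1)
      unfold dv at e2
      rw [e2]
      ring
    rw [sum_congr rfl e1]
    symm
    apply sum_subset (powerset_mono.2 hPsub)
    intro T hT hT2
    have h6 : ∃ p ∈ T, p ≤ y := by
      by_contra hcon
      push Not at hcon
      apply hT2
      rw [mem_powerset]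
      intro p hp
      rw [hP, mem_filter]
      exact ⟨mem_powerset.1 hT hp, hcon p hp⟩
    obtain ⟨p, hp, hpy⟩ := h6
    by_cases h7 : p ∣ a * n + 1
    · have h8 : ro y (a * n + 1) = 0 := by
        unfold ro
        rw [if_neg]
        intro h9
        exact h9 p (hPZ υ p (mem_powerset.1 hT hp)) hpy h7
      rw [h8, zero_mul]
    · rw [prod_eq_zero hp (if_neg h7), mul_zero, mul_zero]
  have hsum : ∑ n ∈ Icc 1 N, f n * (ro y (a * n + 1) *
      VV (PZ Y υ) c (fun p => if p ∣ a * n + 1 then 1 else 0)) =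
      E2 y N P c f a + VV (PZ Y υ) c (ha y a) * W0 := by
    have r1 : E2 y N P c f a + VV (PZ Y υ) c (ha y a) * W0 = ∑ T ∈ P.powerset, ∑ n ∈ Icc 1 N,
        c T * (f n * (ro y (a * n + 1) * (if (∏ p ∈ T, p) ∣ a * n + 1 then 1 else 0))) := by
      rw [hVVP]
      unfold E2
      rw [sum_mul, ← sum_add_distrib]
      refine sum_congr rfl fun T _ => ?_
      rw [hW0, mul_sum, mul_sum, ← sum_add_distrib]
      refine sum_congr rfl fun n _ => ?_
      ring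
    have r2 : ∑ n ∈ Icc 1 N, f n * (ro y (a * n + 1) *
        VV (PZ Y υ) c (fun p => if p ∣ a * n + 1 then 1 else 0)) = ∑ n ∈ Icc 1 N, ∑ T ∈ P.powerset,
        c T * (f n * (ro y (a * n + 1) * (if (∏ p ∈ T, p) ∣ a * n + 1 then 1 else 0))) := by
      refine sum_congr rfl fun n _ => ?_
      rw [hVVn, mul_sum]
      exact sum_congr rfl fun T _ => by ring
    rw [r2, r1, sum_comm]
  -- the pointwise inequality
  have hpt : ∀ n ∈ Icc 1 N, f n * (ro y (a * n + 1) *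
      VV (PZ Y υ) c (fun p => if p ∣ a * n + 1 then 1 else 0)) ≤
      f n * ga Y ζ υ lam (a * n + 1) + (if ∃ q ∈ pr Y ζ υ, q ^ 2 ∣ a * n + 1 then 1 else 0) := by
    intro n _
    obtain ⟨f1, f2⟩ := hf n
    have r0 := ro_nonneg y (a * n + 1)
    have r1 := ro_le_one y (a * n + 1)
    have w1 := WW_le_one Y ζ υ lam (lam / υ) (by positivity) hab (a * n + 1)
    have w2 := hcN (a * n + 1)
    have g1 := (ga_bd Y ζ υ lam (a * n + 1)).1
    have w3 : ro y (a * n + 1) * VV (PZ Y υ) c (fun p => if p ∣ a * n + 1 then 1 else 0) ≤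
        ro y (a * n + 1) * WW Y ζ υ lam (lam / υ) (a * n + 1) := mul_le_mul_of_nonneg_left w2 r0
    have s0 : (0 : ℝ) ≤ (if ∃ q ∈ pr Y ζ υ, q ^ 2 ∣ a * n + 1 then 1 else 0) := by
      split_ifs <;> norm_num
    by_cases hW : 0 < WW Y ζ υ lam (lam / υ) (a * n + 1)
    · have w4 : ro y (a * n + 1) * WW Y ζ υ lam (lam / υ) (a * n + 1) ≤ 1 := by
        calc _ ≤ 1 * 1 := mul_le_mul r1 w1 hW.le zero_le_one
          _ = 1 := one_mul 1
      have w5 : f n * (ro y (a * n + 1) *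
          VV (PZ Y υ) c (fun p => if p ∣ a * n + 1 then 1 else 0)) ≤ f n * 1 :=
        mul_le_mul_of_nonneg_left (w3.trans w4) f1
      by_cases hs : ∃ q ∈ pr Y ζ υ, q ^ 2 ∣ a * n + 1
      · rw [if_pos hs]
        have : 0 ≤ f n * ga Y ζ υ lam (a * n + 1) := mul_nonneg f1 g1
        linarith
      · rw [if_neg hs, add_zero]
        have : ga Y ζ υ lam (a * n + 1) = 1 := by
          unfold ga
          rw [if_pos]
          refine ⟨hW, fun q hq hd => hs ⟨q, hq, hd⟩⟩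
        rw [this]
        exact w5
    · push Not at hW
      have w4 : ro y (a * n + 1) * WW Y ζ υ lam (lam / υ) (a * n + 1) ≤ 0 :=
        mul_nonpos_of_nonneg_of_nonpos r0 hW
      have w5 : f n * (ro y (a * n + 1) *
          VV (PZ Y υ) c (fun p => if p ∣ a * n + 1 then 1 else 0)) ≤ 0 :=
        mul_nonpos_of_nonneg_of_nonpos f1 (w3.trans w4)
      have : 0 ≤ f n * ga Y ζ υ lam (a * n + 1) := mul_nonneg f1 g1
      linarith
  have hfin := sum_le_sum hpt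
  rw [hsum, sum_add_distrib] at hfin
  have hSq : ∑ n ∈ Icc 1 N, (if ∃ q ∈ pr Y ζ υ, q ^ 2 ∣ a * n + 1 then (1 : ℝ) else 0) =
      Sq Y N ζ υ a := by
    unfold Sq
    rw [card_filter]
    push_cast
    rfl
  rw [hSq] at hfin
  have h6 : f0 / 2 * V0 * W0 ≤ VV (PZ Y υ) c (ha y a) * W0 := mul_le_mul_of_nonneg_right hmain2 hW00
  have h7 := neg_abs_le (E2 y N P c f a)
  linarith

end Pool.Agent.H52AD
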