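import Mathlib
import Pool.Agent.H52AD.Ste
import Pool.Agent.Y822.Par3
import Pool.Agent.Y822.Stp
import Pool.Agent.Y882.KW.Num

/-! The step with parameters. -/

set_option autoImplicit false

namespace Pool.Agent.H52AD

open Finset Filter
open Pool.Agent.W23.DC (tt pr)
open Pool.Agent.Y882 (PZ tt_lt)
open Pool.Agent.Y822 (ro ro_nonneg ro_le_one VP)
open Pool.Agent.Y822.Stp (Pin mem_Pin)

/-- the small primes, for a power of `N` -/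
lemma PZ_pow {N K y : ℕ} (hN : 2 ≤ N) (hK : 1 ≤ K) (ε : ℝ) (hε : K * ε ≤ 1) :
    (PZ (N ^ K) ε).filter (fun p => y < p) = Pin N y (K * ε) := by
  classical
  have hK0 : (0 : ℝ) < K := by exact_mod_cast hK
  have htt : ∀ p : ℕ, tt (N ^ K) p < ε ↔ tt N p < K * ε := by
    intro p
    unfold tt
    rw [Nat.cast_pow, Real.log_pow]
    have e : Real.log p / (K * Real.log N) = Real.log p / Real.log N / K := by
      rw [mul_comm, div_div]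
    rw [e, div_lt_iff₀ hK0, mul_comm ε]
  have hN1 : (1 : ℝ) ≤ N := by exact_mod_cast (by omega : 1 ≤ N)
  ext p
  rw [mem_filter, mem_Pin]
  unfold PZ
  rw [mem_filter, mem_Icc, htt]
  constructor
  · rintro ⟨⟨⟨h1, h2⟩, h3, h4⟩, h5⟩
    refine ⟨⟨h5, ?_⟩, h3, h4⟩
    have h6 : (p : ℝ) < (N : ℝ) ^ ((K : ℝ) * ε) := (tt_lt N p _ hN h3.pos).1 h4
    have h7 : (N : ℝ) ^ ((K : ℝ) * ε) ≤ N := by
      calc (N : ℝ) ^ ((K : ℝ) * ε) ≤ (N : ℝ) ^ (1 : ℝ) := Real.rpow_le_rpow_of_exponent_le hN1 hε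
        _ = N := Real.rpow_one _
    exact_mod_cast (h6.le.trans h7)
  · rintro ⟨⟨h1, h2⟩, h3, h4⟩
    exact ⟨⟨⟨h3.one_le, h2.trans (Nat.le_self_pow (by omega) N)⟩, h3, h4⟩, h1⟩

/-- **one step, with parameters** -/
theorem prm (C w : ℝ) (hC : 0 < C) (hw0 : 0 < w) (hw : w < (1 + C) / 5) :
    ∃ (K : ℕ) (ρ δ ζ υ lam S0 ε' c₀ : ℝ), (1 ≤ K ∧ C + 1 ≤ K) ∧
      (0 ≤ ρ ∧ 0 < δ ∧ δ ≤ C / 2 ∧ δ ≤ 1 / 2 ∧ ρ + 2 * δ ≤ (1 + C) / 2 ∧ δ ≤ K * ζ ∧ K * υ ≤ ρ) ∧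
      (0 < lam ∧ 0 < υ ∧ υ ≤ 1 ∧ ζ ≤ υ ∧ 1 / lam + S0 / K / υ ≤ ((3 : ℕ) : ℝ) + 1 ∧ 1 + C < S0 ∧ w ≤ K * ζ) ∧
      (0 < ε' ∧ ε' ≤ 1 ∧ 0 < c₀ ∧ c₀ ≤ 1) ∧
      ∃ N0 : ℕ, ∀ N : ℕ, N0 ≤ N → ∃ c : Finset ℕ → ℝ, (∀ T, |c T| ≤ 5 * Real.log ((N ^ K : ℕ) : ℝ)) ∧
        (∀ T ⊆ PZ (N ^ K) υ, c T ≠ 0 → ((∏ p ∈ T, p : ℕ) : ℝ) ≤ (N : ℝ) ^ ρ) ∧
        ∀ y a : ℕ, 8 ≤ y → (y : ℝ) < (N : ℝ) ^ ε' → 1 ≤ a → a ≤ N ^ K → ∀ f : ℕ → ℝ,
          (∀ n, 0 ≤ f n ∧ f n ≤ 1) →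
          c₀ * VP (Pin N y ε') * ∑ n ∈ Icc 1 N, f n * ro y (a * n + 1) -
            (|E2 y N ((PZ (N ^ K) υ).filter (fun p => y < p)) c f a| + Sq (N ^ K) N ζ υ a) ≤
          ∑ n ∈ Icc 1 N, f n * ga (N ^ K) ζ υ lam (a * n + 1) := by
  classical
  obtain ⟨S1, hS1⟩ : ∃ S1 : ℝ, S1 = 1 + C := ⟨_, rfl⟩
  have hS11 : 1 < S1 := by rw [hS1]; linarith
  obtain ⟨m, hm⟩ : ∃ m : ℝ, m = max (5 * w / 2) (48 / 100 * S1) := ⟨_, rfl⟩
  have hm1 : 5 * w / 2 ≤ m := by rw [hm]; exact le_max_left _ _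
  have hm2 : 48 / 100 * S1 ≤ m := by rw [hm]; exact le_max_right _ _
  have hm3 : m < S1 / 2 := by
    rw [hm]
    apply max_lt
    · rw [hS1]; linarith
    · linarith
  obtain ⟨τ0, hτ0⟩ : ∃ τ0 : ℝ, τ0 = (m + S1 / 2) / 2 := ⟨_, rfl⟩
  obtain ⟨gap, hgap⟩ : ∃ gap : ℝ, gap = S1 / 2 - τ0 := ⟨_, rfl⟩
  have hgap0 : 0 < gap := by rw [hgap, hτ0]; linarith
  have hτm : m < τ0 := by rw [hτ0]; linarith
  have hτ00 : 0 < τ0 := by linarith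
  obtain ⟨K, hK⟩ := exists_nat_ge (C + 1)
  have hK1 : 1 ≤ K := by
    have : (1 : ℝ) ≤ K := by linarith
    exact_mod_cast this
  have hKr : (1 : ℝ) ≤ K := by exact_mod_cast hK1
  have hK0 : (0 : ℝ) < K := by linarith
  obtain ⟨τ, hτ⟩ : ∃ τ : ℝ, τ = τ0 / K := ⟨_, rfl⟩
  have hτpos : 0 < τ := by rw [hτ]; positivity
  have hKτ : K * τ = τ0 := by rw [hτ]; field_simp
  have hτ1 : τ ≤ 1 / 2 := by
    rw [hτ, div_le_iff₀ hK0]
    have : τ0 < S1 / 2 := by linarith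
    rw [hS1] at this
    linarith
  obtain ⟨τ', hτ'⟩ : ∃ τ' : ℝ, τ' = (τ0 + gap / 4) / K := ⟨_, rfl⟩
  have hKτ' : K * τ' = τ0 + gap / 4 := by rw [hτ']; field_simp
  have hττ' : τ < τ' := by
    rw [hτ, hτ']
    apply div_lt_div_of_pos_right _ hK0
    linarith
  have hlam : (0 : ℝ) < 20 / 31 := by norm_num
  obtain ⟨ε₁, f0, hε₁, hε₁β, hf0, Y0, HS⟩ := step τ (2 / 5 * τ) (9 / 10 * τ) (20 / 31) τ' (1 / K)
    (by linarith) (by linarith) (by linarith) (by linarith) (by linarith) (by linarith) hlam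
    (Pool.Agent.Y882.KW.cond_B τ (20 / 31) hτpos hlam (by norm_num)) hττ' (by positivity)
  have hKε : K * ε₁ ≤ 1 := by
    rw [le_div_iff₀ hK0] at hε₁β
    linarith
  refine ⟨K, τ0 + gap / 4, min (gap / 4) (min (C / 2) (min (1 / 2) (K * (2 / 5 * τ)))), 2 / 5 * τ, 9 / 10 * τ,
    20 / 31, 105 / 100 * S1, K * ε₁, min f0 1, ⟨hK1, hK⟩, ⟨by linarith, ?_, ?_, ?_, ?_, ?_, ?_⟩,
    ⟨hlam, by linarith, by linarith, by linarith, ?_, ?_, ?_⟩, ⟨by positivity, hKε, lt_min hf0 one_pos, min_le_right _ _⟩,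
    max Y0 2, ?_⟩
  · exact lt_min (by linarith) (lt_min (by linarith) (lt_min (by norm_num) (by positivity)))
  · exact (min_le_right _ _).trans (min_le_left _ _)
  · exact ((min_le_right _ _).trans (min_le_right _ _)).trans (min_le_left _ _)
  · have h1 : min (gap / 4) (min (C / 2) (min (1 / 2) (K * (2 / 5 * τ)))) ≤ gap / 4 := min_le_left _ _
    rw [← hS1]
    linarith
  · exact ((min_le_right _ _).trans (min_le_right _ _)).trans (min_le_right _ _)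
  · have : (K : ℝ) * (9 / 10 * τ) = 9 / 10 * τ0 := by rw [← hKτ]; ring
    rw [this]
    linarith
  · have e1 : 105 / 100 * S1 / K / (9 / 10 * τ) = 105 / 90 * (S1 / τ0) := by
      rw [← hKτ]
      field_simp
      ring
    rw [e1]
    have e2 : S1 / τ0 ≤ 100 / 48 := by
      rw [div_le_iff₀ hτ00]
      linarith
    push_cast
    linarith
  · rw [← hS1]
    linarith
  · have : (K : ℝ) * (2 / 5 * τ) = 2 / 5 * τ0 := by rw [← hKτ]; ring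
    rw [this]
    linarith
  · intro N hN
    have hN2 : 2 ≤ N := (le_max_right _ _).trans hN
    have hNK : N ≤ N ^ K := Nat.le_self_pow (by omega) N
    obtain ⟨c, hc1, hc2, hc3⟩ := HS (N ^ K) ((le_max_left _ _).trans (hN.trans hNK))
    have hN0 : (0 : ℝ) < N := by exact_mod_cast (by omega : 0 < N)
    have hYpow : ∀ t : ℝ, (((N ^ K : ℕ)) : ℝ) ^ t = (N : ℝ) ^ (K * t) := by
      intro t
      rw [Nat.cast_pow, ← Real.rpow_natCast, ← Real.rpow_mul hN0.le]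
    refine ⟨c, hc1, ?_, ?_⟩
    · intro T hT hne
      have h1 := hc2 T hT hne
      rwa [hYpow, hKτ'] at h1
    · intro y a hy hyN ha1 haN f hf
      have h1 := hc3 y N a hy (by rw [hYpow]; exact hyN) ha1 haN f hf
      rw [PZ_pow hN2 hK1 ε₁ hKε] at h1
      have hW0 : 0 ≤ ∑ n ∈ Icc 1 N, f n * ro y (a * n + 1) :=
        sum_nonneg fun n _ => mul_nonneg (hf n).1 (ro_nonneg _ _)
      have hV0 : 0 ≤ VP (Pin N y (K * ε₁)) := by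
        unfold VP
        refine prod_nonneg fun p hp => ?_
        have hp1 : (1 : ℝ) ≤ p := by exact_mod_cast (mem_Pin.1 hp).2.1.one_lt.le
        have : 1 / (p : ℝ) ≤ 1 := by rw [div_le_one (by linarith)]; exact hp1
        linarith
      have h2 : min f0 1 * VP (Pin N y (K * ε₁)) * ∑ n ∈ Icc 1 N, f n * ro y (a * n + 1) ≤
          f0 * VP (Pin N y (K * ε₁)) * ∑ n ∈ Icc 1 N, f n * ro y (a * n + 1) := by
        apply mul_le_mul_of_nonneg_right _ hW0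
        exact mul_le_mul_of_nonneg_right (min_le_left _ _) hV0
      have h3 : f0 * VP (Pin N y (K * ε₁)) * ∑ n ∈ Icc 1 N, f n * ro y (a * n + 1) -
          (|E2 y N ((PZ (N ^ K) (9 / 10 * τ)).filter (fun p => y < p)) c f a| +
            Sq (N ^ K) N (2 / 5 * τ) (9 / 10 * τ) a) ≤
          ∑ n ∈ Icc 1 N, f n * ga (N ^ K) (2 / 5 * τ) (9 / 10 * τ) (20 / 31) (a * n + 1) := h1
      linarith

end Pool.Agent.H52AD
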