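import Mathlib
import Pool.Agent.H52AD.Few
import Pool.Agent.H52AD.Prm
import Pool.Agent.Y822.F.Fin
import Pool.Agent.Y822.F.Out

/-! Almost primes `a n + 1`, `a ∈ T`, at primes `n`, for almost all sets `T`. -/

set_option autoImplicit false

namespace Pool.Agent.H52AD

open Finset Filter
open Pool.Agent.W23.DC (tt pr)
open Pool.Agent.Y882 (PZ tt_lt)
open Pool.Agent.Y882.KW (almost)
open Pool.Agent.Y822 (ro ro_nonneg ro_le_one VP yN yN_facts ev_logN ev_pow_exp ev_log_pow eP eP_bd Vz_sharp)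
open Pool.Agent.Y822.Stp (Pin mem_Pin)
open Pool.Agent.Y822.Par3 (zN zN_facts zN_lt)
open Pool.Agent.Y822.Low (VP_Vz yN_le_zN)
open Pool.Agent.Y822.F (WH Good few_bad step_lower calc_low baseP nuP nuP_lt rf lf Prim WH_bd)
open Pool.Agent.H373R2.T7 (pz Vz)

open Classical in
/-- the number of the primes `n ≤ N` such that all the `a n + 1`, `a ∈ T`, have at most three prime factors, all of
them at least `N ^ w` -/
noncomputable def cntN (w : ℝ) (N : ℕ) (T : Finset ℕ) : ℕ :=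
  ((Icc 1 N).filter (fun n => n.Prime ∧ ∀ a ∈ T, (a * n + 1).primeFactorsList.length ≤ 3 ∧
    ∀ p : ℕ, p.Prime → p ∣ a * n + 1 → (N : ℝ) ^ w ≤ p)).card

/-- the forms -/
def emb : ℕ ↪ ℕ × ℕ := ⟨fun a => (a, 1), fun a b h => by simpa using congrArg Prod.fst h⟩

/-- the base sum -/
lemma base_eq (g' : ℕ × ℕ → ℕ → ℝ) (g : ℕ → ℕ → ℝ) (y : ℕ) (T : Finset ℕ) (n : ℕ) :
    WH eP g' (rf y) (T.map emb) ∅ n = WH eP g (fun a n => ro y (a * n + 1)) T ∅ n := by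
  unfold WH
  rw [sdiff_empty, sdiff_empty, prod_empty, prod_empty, prod_map]
  rfl

lemma count_lower {w : ℝ} {N : ℕ} {T : Finset ℕ} {Y : ℕ} {ζ υ lam S : ℝ} (hY : 2 ≤ Y) (hζυ : ζ ≤ υ)
    (hυ0 : 0 < υ) (hυ1 : υ ≤ 1) (hlam : 0 < lam) (hr : 1 / lam + S / υ ≤ ((3 : ℕ) : ℝ) + 1)
    (hw : (N : ℝ) ^ w ≤ (Y : ℝ) ^ ζ)
    (hS : ∀ a ∈ T, ∀ n ∈ Icc 1 N, ((a * n + 1 : ℕ) : ℝ) ≤ (Y : ℝ) ^ S) :
    ∑ n ∈ Icc 1 N, WH eP (fun a n => ga Y ζ υ lam (a * n + 1)) (fun a n => ro 0 (a * n + 1)) T T n ≤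
      cntN w N T := by
  classical
  unfold cntN
  rw [card_filter]
  push_cast
  refine sum_le_sum fun n hn => ?_
  unfold WH
  rw [Finset.sdiff_self, prod_empty, mul_one]
  have h0 : 0 ≤ ∏ a ∈ T, ga Y ζ υ lam (a * n + 1) := prod_nonneg fun a _ => (ga_bd _ _ _ _ _).1
  have h1 : ∏ a ∈ T, ga Y ζ υ lam (a * n + 1) ≤ 1 :=
    prod_le_one (fun a _ => (ga_bd _ _ _ _ _).1) fun a _ => (ga_bd _ _ _ _ _).2
  by_cases hp : n.Prime
  · have e : eP n = 1 := by unfold eP; rw [if_pos hp]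
    rw [e, one_mul]
    by_cases hz : ∃ a ∈ T, ga Y ζ υ lam (a * n + 1) = 0
    · obtain ⟨a, ha, hz⟩ := hz
      rw [prod_eq_zero ha hz]
      split_ifs <;> norm_num
    · push Not at hz
      rw [if_pos]
      · exact h1
      · refine ⟨hp, fun a ha => ?_⟩
        have h2 := hz a ha
        unfold ga at h2
        split_ifs at h2 with h3
        · obtain ⟨h4, h5⟩ := h3
          obtain ⟨h6, h7⟩ := almost Y hY ζ υ lam S 3 hζυ hυ0 hυ1 hlam hr (a * n + 1) (by omega) (hS a ha n hn) h4 h5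
          exact ⟨h6, fun p hp hpd => hw.trans (h7 p hp hpd)⟩
        · exact absurd rfl h2
  · have e : eP n = 0 := by unfold eP; rw [if_neg hp]
    rw [e, zero_mul]
    split_ifs <;> norm_num

lemma ro_bd (y m : ℕ) : 0 ≤ ro y m ∧ ro y m ≤ 1 := ⟨ro_nonneg _ _, ro_le_one _ _⟩

/-- the factor of one step -/
lemma u_facts {N y : ℕ} {ε' c₀ cz L u : ℝ} (hN : 2 ≤ N) (hε' : 0 < ε') (hε'1 : ε' ≤ 1) (hc₀ : 0 < c₀)
    (hc₀1 : c₀ ≤ 1) (hcz : 0 < cz) (hyz : y ≤ zN ε' N) (hz3 : 3 ≤ zN ε' N) (hzN : zN ε' N ≤ N)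
    (hVZ : cz / Real.log (zN ε' N) ≤ Vz (zN ε' N)) (hL : L = Real.log N) (hL0 : 0 < L)
    (hu : u = c₀ * VP (Pin N y ε')) : 0 ≤ u ∧ u ≤ 1 ∧ c₀ * cz / L ≤ u * Vz y := by
  have hN0 : (0 : ℝ) < N := by exact_mod_cast (by omega : 0 < N)
  have hVP : 0 ≤ VP (Pin N y ε') ∧ VP (Pin N y ε') ≤ 1 := by
    unfold VP
    have hb : ∀ p ∈ Pin N y ε', 0 ≤ 1 - 1 / (p : ℝ) ∧ 1 - 1 / (p : ℝ) ≤ 1 := by
      intro p hp
      have hp1 : (1 : ℝ) ≤ p := by exact_mod_cast (mem_Pin.1 hp).2.1.one_lt.le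
      have : 1 / (p : ℝ) ≤ 1 := by rw [div_le_one (by linarith)]; exact hp1
      have h0 : 0 ≤ 1 / (p : ℝ) := by positivity
      constructor <;> linarith
    exact ⟨prod_nonneg fun p hp => (hb p hp).1, prod_le_one (fun p hp => (hb p hp).1) fun p hp => (hb p hp).2⟩
  refine ⟨by rw [hu]; exact mul_nonneg hc₀.le hVP.1, by rw [hu]; exact mul_le_one₀ hc₀1 hVP.1 hVP.2, ?_⟩
  have t1 : u * Vz y = c₀ * Vz (zN ε' N) := by
    rw [hu, mul_assoc, VP_Vz hN hyz hzN]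
  rw [t1]
  have hz0 : (0 : ℝ) < zN ε' N := by exact_mod_cast (by omega : 0 < zN ε' N)
  have t3 : Real.log (zN ε' N) ≤ L := by
    rw [hL]
    exact Real.log_le_log hz0 (by exact_mod_cast hzN)
  have t4 : 0 < Real.log (zN ε' N) := Real.log_pos (by exact_mod_cast (by omega : 1 < zN ε' N))
  have t5 : cz / L ≤ Vz (zN ε' N) := (div_le_div_of_nonneg_left hcz.le t4 t3).trans hVZ
  calc c₀ * cz / L = c₀ * (cz / L) := by ring
    _ ≤ c₀ * Vz (zN ε' N) := mul_le_mul_of_nonneg_left t5 hc₀.le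

/-- **the theorem, for natural numbers** -/
theorem mainN (k : ℕ) (C w : ℝ) (hC : 0 < C) (hw0 : 0 < w) (hw : w < (1 + C) / 5) :
    ∃ c : ℝ, 0 < c ∧ ∀ U : ℕ, ∀ᶠ N : ℕ in atTop, ∀ M : ℕ, (N : ℝ) ^ C ≤ 2 * M →
      (M : ℝ) ≤ (2 : ℝ) ^ C * (N : ℝ) ^ C → ∀ A : Finset ℕ, A ⊆ Icc 1 M → ∀ Bad : Finset (Finset ℕ),
      (∀ T ∈ Bad, T ∈ A.powersetCard (k + 1) ∧
        (∀ p : ℕ, p.Prime → ∃ n : ℕ, ¬ p ∣ n ∧ ∀ a ∈ T, ¬ p ∣ a * n + 1) ∧
        (cntN w N T : ℝ) < c * (N / Real.log N ^ (k + 2))) →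
      (Bad.card : ℝ) ≤ (A.card.choose k : ℝ) * (M / Real.log N ^ U) := by
  classical
  obtain ⟨K, ρ, δ, ζ, υ, lam, S0, ε', c₀, ⟨hK1, hK2⟩, ⟨r1, r2, r3, r4, r5, r6, r7⟩,
    ⟨l1, l2, l3, l4, l5, l6, l7⟩, ⟨v1, v2, v3, v4⟩, Ns, HS⟩ := prm C w hC hw0 hw
  obtain ⟨cb, hcb, hbase⟩ := baseP k
  obtain ⟨cz, hcz, VZ⟩ := Vz_sharp
  refine ⟨cb * (c₀ * cz) ^ (k + 1) / 2, by positivity, fun U => ?_⟩
  obtain ⟨κ, hκ, hκ1, HF⟩ := few_par C hC K hK1 ρ δ ζ υ r1 r2 r3 r4 r5 r6 r7 (U + k + 4)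
  have e1 := ev_logN (eventually_ge_atTop (max 1 (max ((2 : ℝ) ^ (k + 1))
    (2 * (k + 2) / (cb * (c₀ * cz) ^ (k + 1))))))
  have e2 : ∀ᶠ N : ℕ in atTop, (2 : ℝ) ^ C + 1 ≤ (N : ℝ) ^ (min 1 (S0 - (1 + C))) :=
    tendsto_natCast_atTop_atTop.eventually ((tendsto_rpow_atTop (lt_min one_pos (by linarith))).eventually_ge_atTop _)
  filter_upwards [HF, hbase κ hκ hκ1 (k + 3), yN_facts κ hκ hκ1 8 1, zN_facts ε' v1 v2 3,
    yN_le_zN κ ε' hκ hκ1 v1 v2, e1, e2, eventually_ge_atTop (max Ns 3)]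
    with N HF hb hyf hzf hyz h1 h2 hN
  intro M hM1 hM2 A hA Bad hBad
  have hNNs : Ns ≤ N := (le_max_left _ _).trans hN
  have hN3 : 3 ≤ N := (le_max_right _ _).trans hN
  have hN2 : 2 ≤ N := by omega
  obtain ⟨y1, y2, y3, y4, y5⟩ := hyf
  obtain ⟨z1, z2, z3, z4, z5⟩ := hzf
  obtain ⟨c, hc1, hc2, hc3⟩ := HS N hNNs
  clear y1 y2 y3 y4 z1 z3 z4
  have hVZz := VZ (zN ε' N) z2
  obtain ⟨y, hy⟩ : ∃ y : ℕ, y = yN κ N := ⟨_, rfl⟩
  rw [← hy] at HF hb hyz y5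
  obtain ⟨L, hL⟩ : ∃ L : ℝ, L = Real.log N := ⟨_, rfl⟩
  rw [← hL] at HF hb h1 hBad ⊢
  have hN0 : (0 : ℝ) < N := by positivity
  have hN1r : (1 : ℝ) ≤ N := by exact_mod_cast (by omega : 1 ≤ N)
  have hL1 : 1 ≤ L := (le_max_left _ _).trans h1
  have hL2k : (2 : ℝ) ^ (k + 1) ≤ L := ((le_max_left _ _).trans (le_max_right _ _)).trans h1
  have hLb : 2 * (k + 2) / (cb * (c₀ * cz) ^ (k + 1)) ≤ L :=
    ((le_max_right _ _).trans (le_max_right _ _)).trans h1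
  have hL0 : 0 < L := by linarith only [hL1]
  obtain ⟨x, hx⟩ : ∃ x : ℝ, x = N / L ^ (1 + k + 2) := ⟨_, rfl⟩
  have hx0 : 0 ≤ x := by rw [hx]; positivity
  have hyε : (y : ℝ) < (N : ℝ) ^ ε' := by
    have h5 := zN_lt (ε₁ := ε') (N := N) (by omega)
    have h6 : (y : ℝ) ≤ zN ε' N := by exact_mod_cast hyz
    exact lt_of_le_of_lt h6 h5
  have hNC1 : 0 < (N : ℝ) ^ C := by positivity
  have hM2' : (M : ℝ) ≤ (N : ℝ) ^ (C + 1) := by
    rw [Real.rpow_add hN0, Real.rpow_one, mul_comm]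
    have h3 : (N : ℝ) ^ (min 1 (S0 - (1 + C))) ≤ N := by
      calc (N : ℝ) ^ (min 1 (S0 - (1 + C))) ≤ (N : ℝ) ^ (1 : ℝ) :=
            Real.rpow_le_rpow_of_exponent_le hN1r (min_le_left _ _)
        _ = N := Real.rpow_one _
    have h4 : (2 : ℝ) ^ C ≤ N := by linarith only [h2, h3]
    exact hM2.trans (mul_le_mul_of_nonneg_right h4 hNC1.le)
  have hMK : M ≤ N ^ K := by
    have h3 : (M : ℝ) ≤ (N : ℝ) ^ K := by
      rw [← Real.rpow_natCast]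
      exact hM2'.trans (Real.rpow_le_rpow_of_exponent_le hN1r hK2)
    exact_mod_cast h3
  have hval : ∀ a : ℕ, a ≤ M → ∀ n ∈ Icc 1 N, ((a * n + 1 : ℕ) : ℝ) ≤ (((N ^ K : ℕ)) : ℝ) ^ (S0 / K) := by
    intro a ha n hn
    rw [mem_Icc] at hn
    have hK0 : (0 : ℝ) < K := by exact_mod_cast hK1
    rw [Nat.cast_pow, ← Real.rpow_natCast, ← Real.rpow_mul hN0.le, mul_div_cancel₀ _ hK0.ne']
    have h3 : ((a * n + 1 : ℕ) : ℝ) ≤ M * N + 1 := by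
      push_cast
      have h4 : (a : ℝ) ≤ M := by exact_mod_cast ha
      have h5 : (n : ℝ) ≤ N := by exact_mod_cast hn.2
      have := mul_le_mul h4 h5 (Nat.cast_nonneg _) (Nat.cast_nonneg _)
      linarith only [this]
    have h4 : (M : ℝ) * N + 1 ≤ ((2 : ℝ) ^ C + 1) * (N : ℝ) ^ (1 + C) := by
      rw [Real.rpow_add hN0, Real.rpow_one]
      have h5 : (M : ℝ) * N ≤ (2 : ℝ) ^ C * (N : ℝ) ^ C * N := mul_le_mul_of_nonneg_right hM2 hN0.le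
      have h6 : 1 ≤ (N : ℝ) ^ C := Real.one_le_rpow hN1r hC.le
      have h7 : 1 ≤ (N : ℝ) * (N : ℝ) ^ C := one_le_mul_of_one_le_of_one_le hN1r h6
      calc (M : ℝ) * N + 1 ≤ (2 : ℝ) ^ C * (N : ℝ) ^ C * N + N * (N : ℝ) ^ C := add_le_add h5 h7
        _ = _ := by ring
    calc ((a * n + 1 : ℕ) : ℝ) ≤ ((2 : ℝ) ^ C + 1) * (N : ℝ) ^ (1 + C) := h3.trans h4
      _ ≤ (N : ℝ) ^ (S0 - (1 + C)) * (N : ℝ) ^ (1 + C) := by
          apply mul_le_mul_of_nonneg_right _ (by positivity)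
          exact h2.trans (Real.rpow_le_rpow_of_exponent_le hN1r (min_le_right _ _))
      _ = (N : ℝ) ^ S0 := by rw [← Real.rpow_add hN0]; congr 1; ring
  obtain ⟨u, hu⟩ : ∃ u : ℝ, u = c₀ * VP (Pin N y ε') := ⟨_, rfl⟩
  obtain ⟨hu0, hu1, huV⟩ := u_facts hN2 v1 v2 v3 v4 hcz hyz z2 z5 hVZz hL hL0 hu
  obtain ⟨g, hg⟩ : ∃ g : ℕ → ℕ → ℝ, g = fun a n => ga (N ^ K) ζ υ lam (a * n + 1) := ⟨_, rfl⟩
  obtain ⟨r, hr⟩ : ∃ r : ℕ → ℕ → ℝ, r = fun a n => ro y (a * n + 1) := ⟨_, rfl⟩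
  obtain ⟨Z, hZ⟩ : ∃ Z : (ℕ → ℝ) → ℕ → ℝ, Z = fun f a =>
    |E2 y N ((PZ (N ^ K) υ).filter (fun p => y < p)) c f a| + Sq (N ^ K) N ζ υ a := ⟨_, rfl⟩
  have hgbd : ∀ t n, 0 ≤ g t n ∧ g t n ≤ 1 := fun t n => by rw [hg]; exact ga_bd _ _ _ _ _
  have hrbd : ∀ t n, 0 ≤ r t n ∧ r t n ≤ 1 := fun t n => by rw [hr]; exact ro_bd _ _
  have hYK : 2 ≤ N ^ K := hN2.trans (Nat.le_self_pow (by omega) N)
  have hwζ : (N : ℝ) ^ w ≤ (((N ^ K : ℕ)) : ℝ) ^ ζ := by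
    rw [Nat.cast_pow, ← Real.rpow_natCast, ← Real.rpow_mul hN0.le]
    exact Real.rpow_le_rpow_of_exponent_le hN1r l7
  -- the systems which are not good
  have hbad : ∀ T ∈ Bad, T ∈ A.powersetCard (k + 1) ∧ ¬ Good eP g r Z x T := by
    intro T hT
    obtain ⟨b1, b2, b3⟩ := hBad T hT
    refine ⟨b1, fun hgood => ?_⟩
    rw [mem_powersetCard] at b1
    have haM : ∀ a ∈ T, 1 ≤ a ∧ a ≤ M := fun a ha => mem_Icc.1 (hA (b1.1 ha))
    have hZs : ∀ f : ℕ → ℝ, (∀ n, 0 ≤ f n ∧ f n ≤ 1) → ∀ t ∈ T, Z f t ≤ x →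
        u * ∑ n ∈ Icc 1 N, f n * r t n - x ≤ ∑ n ∈ Icc 1 N, f n * g t n := by
      intro f hf01 t ht hZt
      have hs := hc3 y t y5 hyε (haM t ht).1 ((haM t ht).2.trans hMK) f hf01
      rw [← hu] at hs
      rw [hZ] at hZt
      rw [hr, hg]
      dsimp only at hZt ⊢
      linarith only [hs, hZt]
    have hlower := step_lower (N := N) hx0 hu0 hu1 eP_bd hgbd hrbd hZs hgood T (subset_refl _)
    rw [b1.2] at hlower
    have hcardm : (T.map emb).card = k + 1 := by rw [card_map, b1.2]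
    have hm := hb (fun _ _ => 0) (T.map emb) hcardm (fun a ha => by
      rw [Finset.mem_map] at ha
      obtain ⟨a', _, rfl⟩ := ha
      exact Nat.coprime_one_right _) (fun p hp => by
      apply nuP_lt hp.pos
      obtain ⟨n, hn1, hn2⟩ := b2 p hp
      refine ⟨n, hn1, fun a ha => ?_⟩
      rw [Finset.mem_map] at ha
      obtain ⟨a', ha', rfl⟩ := ha
      exact hn2 a' ha')
    have hbeq : ∑ n ∈ Icc 1 N, WH eP (fun _ _ => 0) (rf y) (T.map emb) ∅ n =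
        ∑ n ∈ Icc 1 N, WH eP g r T ∅ n := by
      rw [hr]
      exact sum_congr rfl fun n _ => base_eq _ g y T n
    rw [hbeq] at hm
    have hk3 : k + 3 = 1 + k + 2 := by ring
    rw [hk3, ← hx] at hm
    have hfin := calc_low (k := k) (j := 1) (cs := c₀ * cz) (cb := cb) (L := L) (n := N) (u := u) (V := Vz y)
      (W := ∑ n ∈ Icc 1 N, WH eP g r T ∅ n) (x := x)
      (P := ∑ n ∈ Icc 1 N, WH eP g r T T n) (by positivity) hcb hL1 hN0 hLb hu0 hu1 huV hx hm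
      (by push_cast at hlower; linarith only [hlower])
    have hcnt : ∑ n ∈ Icc 1 N, WH eP g r T T n ≤ cntN w N T := by
      refine le_trans (le_of_eq ?_) (count_lower (w := w) (N := N) (T := T) (Y := N ^ K) (ζ := ζ) (υ := υ)
        (lam := lam) (S := S0 / K) hYK l4 l2 l3 l1 l5 hwζ (fun a ha n hn => hval a (haM a ha).2 n hn))
      refine sum_congr rfl fun n _ => ?_
      unfold WH
      rw [Finset.sdiff_self, prod_empty, prod_empty, hg]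
    have hk1 : 1 + k + 1 = k + 2 := by ring
    rw [hk1] at hfin
    linarith only [hfin, hcnt, b3]
  have hfew : ∀ f : ℕ → ℝ, (∀ n, |f n| ≤ 1) → ∀ S : Finset ℕ, (∀ a ∈ S, a ∈ A ∧ x < Z f a) →
      (S.card : ℝ) ≤ M / L ^ (U + k + 4) := by
    intro f hf S hS
    refine HF M hM1 hM2' ((PZ (N ^ K) υ).filter (fun p => y < p)) c ?_ hc1 ?_ f hf S ?_ ?_
    · intro p hp
      rw [mem_filter] at hp
      refine ⟨?_, hp.2⟩
      have h3 := hp.1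
      unfold PZ at h3
      rw [mem_filter] at h3
      exact h3.2.1
    · intro T hT hne
      exact hc2 T (hT.trans (filter_subset _ _)) hne
    · intro a ha
      exact hA (hS a ha).1
    · intro a ha
      have h3 := (hS a ha).2
      rw [hZ] at h3
      dsimp only at h3
      refine lt_of_le_of_lt ?_ h3
      rw [hx]
      apply div_le_div_of_nonneg_left hN0.le (by positivity)
      exact pow_le_pow_right₀ hL1 (by omega)
  have hM0 : (0 : ℝ) ≤ M := Nat.cast_nonneg _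
  have hfinal := few_bad (K := M / L ^ (U + k + 4)) (by positivity) eP_bd hgbd hrbd A hfew k Bad hbad
  refine hfinal.trans (mul_le_mul_of_nonneg_left ?_ (Nat.cast_nonneg _))
  have g1 : (2 : ℝ) ^ k ≤ L := by
    have : (2 : ℝ) ^ k ≤ 2 ^ (k + 1) := pow_le_pow_right₀ (by norm_num) (by omega)
    linarith only [this, hL2k]
  have g2 : L * L ^ U ≤ L ^ (U + k + 4) := by
    rw [← pow_succ']
    exact pow_le_pow_right₀ hL1 (by omega)
  calc (2 : ℝ) ^ k * (M / L ^ (U + k + 4)) ≤ L * (M / (L * L ^ U)) := by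
        apply mul_le_mul g1 _ (by positivity) hL0.le
        exact div_le_div_of_nonneg_left hM0 (by positivity) g2
    _ = M / L ^ U := by field_simp

end Pool.Agent.H52AD
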